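import Mathlib

set_option autoImplicit false

/-!
Traces of endomorphisms of finitely generated projective left modules, with respect to a
linear form `lam : A →ₗ[k] k` with `lam (x * y) = lam (y * x)`.
-/

namespace Pool.Agent.Run7.h155

open Module

section

variable {k A : Type} [Field k] [Ring A] [Algebra k A]
  (lam : A →ₗ[k] k)

/-- The trace of an endomorphism of a free module of rank `n`. -/
def ftr {n : ℕ} (g : (Fin n → A) →ₗ[A] (Fin n → A)) : k :=
  ∑ j, lam (g (Pi.single j 1) j)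

theorem ftr_add {n : ℕ} (g h : (Fin n → A) →ₗ[A] (Fin n → A)) :
    ftr lam (g + h) = ftr lam g + ftr lam h := by
  simp [ftr, Finset.sum_add_distrib]

theorem ftr_zero {n : ℕ} : ftr lam (0 : (Fin n → A) →ₗ[A] (Fin n → A)) = 0 := by
  simp [ftr]

theorem ftr_comm_expand {n m : ℕ} (u : (Fin n → A) →ₗ[A] (Fin m → A))
    (v : (Fin m → A) →ₗ[A] (Fin n → A)) :
    ftr lam (v ∘ₗ u) = ∑ j, ∑ i, lam (u (Pi.single j 1) i * v (Pi.single i 1) j) := by
  unfold ftr
  refine Finset.sum_congr rfl fun j _ => ?_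
  have h : u (Pi.single j 1) = ∑ i, (u (Pi.single j 1) i) • (Pi.single i (1 : A) : Fin m → A) := by
    ext l
    simp [Finset.sum_apply, Pi.single_apply]
  conv_lhs => rw [LinearMap.comp_apply, h, map_sum, Finset.sum_apply, map_sum]
  refine Finset.sum_congr rfl fun i _ => ?_
  rw [map_smul]
  simp [smul_eq_mul]

theorem ftr_comm (hlam : ∀ x y, lam (x * y) = lam (y * x)) {n m : ℕ}
    (u : (Fin n → A) →ₗ[A] (Fin m → A))
    (v : (Fin m → A) →ₗ[A] (Fin n → A)) :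
    ftr lam (v ∘ₗ u) = ftr lam (u ∘ₗ v) := by
  rw [ftr_comm_expand, ftr_comm_expand, Finset.sum_comm]
  refine Finset.sum_congr rfl fun i _ => Finset.sum_congr rfl fun j _ => hlam _ _

/-- A presentation of a module as a retract of a finite free module. -/
structure Pres (A P : Type) [Ring A] [AddCommGroup P] [Module A P] where
  n : ℕ
  s : (Fin n → A) →ₗ[A] P
  i : P →ₗ[A] (Fin n → A)
  h : s ∘ₗ i = LinearMap.id

theorem nonempty_pres (P : Type) [AddCommGroup P] [Module A P] [Module.Finite A P]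
    [Module.Projective A P] : Nonempty (Pres A P) := by
  obtain ⟨n, f, g, -, -, h⟩ := Module.Finite.exists_comp_eq_id_of_projective A P
  exact ⟨⟨n, f, g, h⟩⟩

open Classical in
/-- The trace of an endomorphism of a finitely generated projective module (and `0` for a
module which is not finitely generated projective). -/
noncomputable def ptr (P : Type) [AddCommGroup P] [Module A P] (f : P →ₗ[A] P) : k :=
  if h : Nonempty (Pres A P) then ftr lam (h.some.i ∘ₗ f ∘ₗ h.some.s) else 0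

theorem ptr_eq (hlam : ∀ x y, lam (x * y) = lam (y * x)) {P : Type} [AddCommGroup P]
    [Module A P] (p : Pres A P) (f : P →ₗ[A] P) :
    ptr lam P f = ftr lam (p.i ∘ₗ f ∘ₗ p.s) := by
  have h : Nonempty (Pres A P) := ⟨p⟩
  rw [ptr, dif_pos h]
  have e1 : h.some.i ∘ₗ f ∘ₗ h.some.s
      = (h.some.i ∘ₗ f ∘ₗ p.s) ∘ₗ (p.i ∘ₗ h.some.s) := by
    have := p.h
    refine LinearMap.ext fun x => ?_
    have hx : ∀ y, p.s (p.i y) = y := fun y => LinearMap.congr_fun this y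
    simp [hx]
  have e2 : p.i ∘ₗ f ∘ₗ p.s = (p.i ∘ₗ h.some.s) ∘ₗ (h.some.i ∘ₗ f ∘ₗ p.s) := by
    have := h.some.h
    refine LinearMap.ext fun x => ?_
    have hx : ∀ y, h.some.s (h.some.i y) = y := fun y => LinearMap.congr_fun this y
    simp [hx]
  rw [e1, e2, ftr_comm lam hlam]

theorem ptr_comm (hlam : ∀ x y, lam (x * y) = lam (y * x)) {P Q : Type} [AddCommGroup P]
    [Module A P] [AddCommGroup Q] [Module A Q] (p : Pres A P) (q : Pres A Q)
    (u : P →ₗ[A] Q) (v : Q →ₗ[A] P) :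
    ptr lam P (v ∘ₗ u) = ptr lam Q (u ∘ₗ v) := by
  rw [ptr_eq lam hlam p, ptr_eq lam hlam q]
  have hp : ∀ y, p.s (p.i y) = y := fun y => LinearMap.congr_fun p.h y
  have hq : ∀ y, q.s (q.i y) = y := fun y => LinearMap.congr_fun q.h y
  have e1 : p.i ∘ₗ (v ∘ₗ u) ∘ₗ p.s = (p.i ∘ₗ v ∘ₗ q.s) ∘ₗ (q.i ∘ₗ u ∘ₗ p.s) := by
    refine LinearMap.ext fun x => ?_
    simp [hq]
  have e2 : q.i ∘ₗ (u ∘ₗ v) ∘ₗ q.s = (q.i ∘ₗ u ∘ₗ p.s) ∘ₗ (p.i ∘ₗ v ∘ₗ q.s) := by
    refine LinearMap.ext fun x => ?_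
    simp [hp]
  rw [e1, e2, ftr_comm lam hlam]

theorem ptr_add (hlam : ∀ x y, lam (x * y) = lam (y * x)) {P : Type} [AddCommGroup P]
    [Module A P] (p : Pres A P) (f g : P →ₗ[A] P) :
    ptr lam P (f + g) = ptr lam P f + ptr lam P g := by
  rw [ptr_eq lam hlam p, ptr_eq lam hlam p, ptr_eq lam hlam p, ← ftr_add]
  congr 1
  refine LinearMap.ext fun x => ?_
  simp

theorem ptr_zero (hlam : ∀ x y, lam (x * y) = lam (y * x)) {P : Type} [AddCommGroup P]
    [Module A P] (p : Pres A P) : ptr lam P (0 : P →ₗ[A] P) = 0 := by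
  rw [ptr_eq lam hlam p]
  have : p.i ∘ₗ (0 : P →ₗ[A] P) ∘ₗ p.s = 0 := by
    refine LinearMap.ext fun x => ?_
    simp
  rw [this, ftr_zero]

/-- Additivity of the trace on short exact sequences of projectives. -/
theorem ptr_exact (hlam : ∀ x y, lam (x * y) = lam (y * x)) {X Y Z : Type}
    [AddCommGroup X] [Module A X] [AddCommGroup Y] [Module A Y] [AddCommGroup Z] [Module A Z]
    (pX : Pres A X) (pY : Pres A Y) (pZ : Pres A Z) [Module.Projective A Z]
    (i : X →ₗ[A] Y) (p : Y →ₗ[A] Z) (hi : Function.Injective i) (hp : Function.Surjective p)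
    (hex : Function.Exact i p) (fX : X →ₗ[A] X) (fY : Y →ₗ[A] Y) (fZ : Z →ₗ[A] Z)
    (h1' : ∀ x, fY (i x) = i (fX x)) (h2' : ∀ y, fZ (p y) = p (fY y)) :
    ptr lam Y fY = ptr lam X fX + ptr lam Z fZ := by
  have h1 : fY ∘ₗ i = i ∘ₗ fX := LinearMap.ext h1'
  have h2 : fZ ∘ₗ p = p ∘ₗ fY := LinearMap.ext h2'
  obtain ⟨s₀, hs₀⟩ := Module.projective_lifting_property p LinearMap.id hp
  have hsplit : ∃ (r : Y →ₗ[A] X) (s : Z →ₗ[A] Y), r ∘ₗ i = LinearMap.id ∧
      p ∘ₗ s = LinearMap.id ∧ i ∘ₗ r + s ∘ₗ p = LinearMap.id := by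
    obtain ⟨e, rfl, rfl⟩ := ((Function.Exact.split_tfae' hex).out 0 2 rfl rfl).mp ⟨hi, s₀, hs₀⟩
    refine ⟨LinearMap.fst A X Z ∘ₗ e.toLinearMap, e.symm.toLinearMap ∘ₗ LinearMap.inr A X Z,
      ?_, ?_, ?_⟩
    · refine LinearMap.ext fun x => ?_
      simp
    · refine LinearMap.ext fun x => ?_
      simp
    · refine LinearMap.ext fun x => ?_
      simp only [LinearMap.add_apply, LinearMap.comp_apply, LinearEquiv.coe_coe, ← map_add]
      simp
  obtain ⟨r, s, hr, hs, hrs⟩ := hsplit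
  have hdec : fY = (fY ∘ₗ i) ∘ₗ r + (fY ∘ₗ s) ∘ₗ p := by
    calc fY = fY ∘ₗ (i ∘ₗ r + s ∘ₗ p) := by rw [hrs, LinearMap.comp_id]
      _ = _ := by rw [LinearMap.comp_add, LinearMap.comp_assoc, LinearMap.comp_assoc]
  rw [hdec, ptr_add lam hlam pY, ptr_comm lam hlam pY pX, ptr_comm lam hlam pY pZ]
  congr 1
  · rw [h1, ← LinearMap.comp_assoc, hr, LinearMap.id_comp]
  · rw [← LinearMap.comp_assoc, ← h2, LinearMap.comp_assoc, hs, LinearMap.comp_id]

end

end Pool.Agent.Run7.h155
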