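import Mathlib
import Pool.Agent.Run7.h155.Tr1

set_option autoImplicit false

/-!
Functorial resolutions `0 → Ω M → A ⊗[k] M → M → 0` and the trace of endomorphisms of modules
of finite projective dimension.
-/

namespace Pool.Agent.Run7.h155

open Module TensorProduct

section

variable (k A : Type) [Field k] [Ring A] [Algebra k A]

/-- A finite dimensional module with an endomorphism. -/
structure ModEnd where
  M : Type
  [inst1 : AddCommGroup M]
  [inst2 : Module A M]
  [inst3 : Module k M]
  [inst4 : IsScalarTower k A M]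
  [inst5 : Module.Finite k M]
  f : M →ₗ[A] M

attribute [instance] ModEnd.inst1 ModEnd.inst2 ModEnd.inst3 ModEnd.inst4 ModEnd.inst5

/-- The multiplication map `A ⊗[k] M → M`. -/
noncomputable def muMap (M : Type) [AddCommGroup M] [Module A M] [Module k M]
    [IsScalarTower k A M] : A ⊗[k] M →ₗ[A] M :=
  AlgebraTensorModule.lift (LinearMap.toSpanSingleton A (M →ₗ[k] M) LinearMap.id)

theorem muMap_tmul (M : Type) [AddCommGroup M] [Module A M] [Module k M]
    [IsScalarTower k A M] (a : A) (m : M) : muMap k A M (a ⊗ₜ m) = a • m := rfl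

theorem muMap_surjective (M : Type) [AddCommGroup M] [Module A M] [Module k M]
    [IsScalarTower k A M] : Function.Surjective (muMap k A M) :=
  fun m => ⟨1 ⊗ₜ m, by rw [muMap_tmul, one_smul]⟩

variable {k A}

/-- `A ⊗ f`. -/
noncomputable def fMap {M N : Type} [AddCommGroup M] [Module A M] [Module k M]
    [IsScalarTower k A M] [AddCommGroup N] [Module A N] [Module k N]
    [IsScalarTower k A N] (f : M →ₗ[A] N) : A ⊗[k] M →ₗ[A] A ⊗[k] N :=
  (f.restrictScalars k).baseChange A

theorem fMap_tmul {M N : Type} [AddCommGroup M] [Module A M] [Module k M]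
    [IsScalarTower k A M] [AddCommGroup N] [Module A N] [Module k N]
    [IsScalarTower k A N] (f : M →ₗ[A] N) (a : A) (m : M) :
    fMap (k := k) f (a ⊗ₜ m) = a ⊗ₜ f m := rfl

theorem muMap_fMap {M N : Type} [AddCommGroup M] [Module A M] [Module k M]
    [IsScalarTower k A M] [AddCommGroup N] [Module A N] [Module k N]
    [IsScalarTower k A N] (f : M →ₗ[A] N) (x : A ⊗[k] M) :
    muMap k A N (fMap f x) = f (muMap k A M x) := by
  induction x with
  | zero => simp
  | add x y hx hy => simp [hx, hy]
  | tmul a m => rw [fMap_tmul, muMap_tmul, muMap_tmul, map_smul]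

/-- The free cover of a module with endomorphism. -/
noncomputable def ModEnd.F [Module.Finite k A] (X : ModEnd k A) : ModEnd k A where
  M := A ⊗[k] X.M
  f := fMap X.f

theorem fMap_mem_ker {M N : Type} [AddCommGroup M] [Module A M] [Module k M]
    [IsScalarTower k A M] [AddCommGroup N] [Module A N] [Module k N]
    [IsScalarTower k A N] (f : M →ₗ[A] N) (x : LinearMap.ker (muMap k A M)) :
    fMap (k := k) f x.1 ∈ LinearMap.ker (muMap k A N) := by
  rw [LinearMap.mem_ker, muMap_fMap, LinearMap.mem_ker.1 x.2, map_zero]

theorem finite_submodule {M : Type} [AddCommGroup M] [Module A M] [Module k M]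
    [IsScalarTower k A M] [Module.Finite k M] (N : Submodule A M) : Module.Finite k N :=
  Module.Finite.of_injective (N.subtype.restrictScalars k) N.subtype_injective

/-- The map induced on kernels. -/
noncomputable def oMap {M N : Type} [AddCommGroup M] [Module A M] [Module k M]
    [IsScalarTower k A M] [AddCommGroup N] [Module A N] [Module k N]
    [IsScalarTower k A N] (f : M →ₗ[A] N) :
    LinearMap.ker (muMap k A M) →ₗ[A] LinearMap.ker (muMap k A N) :=
  LinearMap.codRestrict _ ((fMap f).comp (Submodule.subtype _)) (fMap_mem_ker f)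

theorem oMap_coe {M N : Type} [AddCommGroup M] [Module A M] [Module k M]
    [IsScalarTower k A M] [AddCommGroup N] [Module A N] [Module k N]
    [IsScalarTower k A N] (f : M →ₗ[A] N) (x : LinearMap.ker (muMap k A M)) :
    ((oMap f x : LinearMap.ker (muMap k A N)) : A ⊗[k] N) = fMap f x.1 := rfl

/-- The syzygy of a module with endomorphism. -/
noncomputable def ModEnd.O [Module.Finite k A] (X : ModEnd k A) : ModEnd k A :=
  haveI : Module.Finite k (LinearMap.ker (muMap k A X.M)) := finite_submodule _
  { M := LinearMap.ker (muMap k A X.M)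
    f := oMap X.f }

/-- Short exact sequences of modules with endomorphisms. -/
structure SES (X Y Z : ModEnd k A) where
  i : X.M →ₗ[A] Y.M
  p : Y.M →ₗ[A] Z.M
  hi : Function.Injective i
  hp : Function.Surjective p
  hex : Function.Exact i p
  h1 : ∀ x, Y.f (i x) = i (X.f x)
  h2 : ∀ y, Z.f (p y) = p (Y.f y)

theorem fMap_comp {M N L : Type} [AddCommGroup M] [Module A M] [Module k M]
    [IsScalarTower k A M] [AddCommGroup N] [Module A N] [Module k N]
    [IsScalarTower k A N] [AddCommGroup L] [Module A L] [Module k L]
    [IsScalarTower k A L] (f : M →ₗ[A] N) (g : N →ₗ[A] L) (x : A ⊗[k] M) :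
    fMap (k := k) g (fMap f x) = fMap (g ∘ₗ f) x := by
  induction x with
  | zero => simp
  | add x y hx hy => simp [hx, hy]
  | tmul a m => rfl

theorem fMap_injective {M N : Type} [AddCommGroup M] [Module A M] [Module k M]
    [IsScalarTower k A M] [AddCommGroup N] [Module A N] [Module k N]
    [IsScalarTower k A N] (f : M →ₗ[A] N) (hf : Function.Injective f) :
    Function.Injective (fMap (k := k) f) :=
  Module.Flat.lTensor_preserves_injective_linearMap (M := A) (f.restrictScalars k) hf

theorem fMap_surjective {M N : Type} [AddCommGroup M] [Module A M] [Module k M]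
    [IsScalarTower k A M] [AddCommGroup N] [Module A N] [Module k N]
    [IsScalarTower k A N] (f : M →ₗ[A] N) (hf : Function.Surjective f) :
    Function.Surjective (fMap (k := k) f) :=
  LinearMap.lTensor_surjective A (g := f.restrictScalars k) hf

theorem fMap_exact {M N L : Type} [AddCommGroup M] [Module A M] [Module k M]
    [IsScalarTower k A M] [AddCommGroup N] [Module A N] [Module k N]
    [IsScalarTower k A N] [AddCommGroup L] [Module A L] [Module k L]
    [IsScalarTower k A L] (f : M →ₗ[A] N) (g : N →ₗ[A] L) (hg : Function.Surjective g)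
    (h : Function.Exact f g) :
    Function.Exact (fMap (k := k) f) (fMap (k := k) g) :=
  lTensor_exact A (f := f.restrictScalars k) (g := g.restrictScalars k) h hg

theorem fMap_comm {M N N' L : Type} [AddCommGroup M] [Module A M] [Module k M]
    [IsScalarTower k A M] [AddCommGroup N] [Module A N] [Module k N]
    [IsScalarTower k A N] [AddCommGroup N'] [Module A N'] [Module k N']
    [IsScalarTower k A N'] [AddCommGroup L] [Module A L] [Module k L]
    [IsScalarTower k A L] (f : M →ₗ[A] N) (g : N →ₗ[A] L) (f' : M →ₗ[A] N') (g' : N' →ₗ[A] L)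
    (h : ∀ x, g (f x) = g' (f' x)) (x : A ⊗[k] M) :
    fMap (k := k) g (fMap f x) = fMap g' (fMap f' x) := by
  rw [fMap_comp, fMap_comp]
  congr 1
  congr 1
  exact LinearMap.ext h

theorem oMap_surjective {M N : Type} [AddCommGroup M] [Module A M] [Module k M]
    [IsScalarTower k A M] [AddCommGroup N] [Module A N] [Module k N]
    [IsScalarTower k A N] {L : Type} [AddCommGroup L] [Module A L] [Module k L]
    [IsScalarTower k A L] (i : L →ₗ[A] M) (p : M →ₗ[A] N) (hp : Function.Surjective p)
    (hex : Function.Exact i p) : Function.Surjective (oMap (k := k) p) := by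
  rintro ⟨z, hz⟩
  obtain ⟨y, rfl⟩ := fMap_surjective (k := k) _ hp z
  have h1 : p (muMap k A M y) = 0 := by
    rw [← muMap_fMap]
    exact hz
  obtain ⟨x, hx⟩ := (hex _).1 h1
  have hmem : y - fMap i (1 ⊗ₜ x) ∈ LinearMap.ker (muMap k A M) := by
    rw [LinearMap.mem_ker, map_sub, muMap_fMap, muMap_tmul, one_smul, hx, sub_self]
  refine ⟨⟨y - fMap i (1 ⊗ₜ x), hmem⟩, ?_⟩
  apply Subtype.ext
  rw [oMap_coe]
  change fMap p (y - fMap i (1 ⊗ₜ x)) = fMap p y
  rw [map_sub, fMap_comp, fMap_tmul]
  have : p (i x) = 0 := (hex _).2 ⟨x, rfl⟩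
  rw [LinearMap.comp_apply, this, TensorProduct.tmul_zero, sub_zero]

theorem oMap_exact {M N : Type} [AddCommGroup M] [Module A M] [Module k M]
    [IsScalarTower k A M] [AddCommGroup N] [Module A N] [Module k N]
    [IsScalarTower k A N] {L : Type} [AddCommGroup L] [Module A L] [Module k L]
    [IsScalarTower k A L] (i : L →ₗ[A] M) (p : M →ₗ[A] N) (hi : Function.Injective i)
    (hp : Function.Surjective p)
    (hex : Function.Exact i p) : Function.Exact (oMap (k := k) i) (oMap (k := k) p) := by
  rintro ⟨y, hy⟩
  constructor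
  · intro h
    have h' : fMap (k := k) p y = 0 := congrArg Subtype.val h
    obtain ⟨x, hx⟩ := (fMap_exact (k := k) _ _ hp hex _).1 h'
    have hmem : x ∈ LinearMap.ker (muMap k A L) := by
      rw [LinearMap.mem_ker]
      apply hi
      rw [← muMap_fMap, hx, map_zero]
      exact hy
    refine ⟨⟨x, hmem⟩, ?_⟩
    apply Subtype.ext
    exact hx
  · rintro ⟨x, hx⟩
    apply Subtype.ext
    rw [← hx, oMap_coe, oMap_coe]
    exact (fMap_exact (k := k) _ _ hp hex _).2 ⟨x.1, rfl⟩

/-- The functor `F` preserves short exact sequences. -/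
noncomputable def SES.F [Module.Finite k A] {X Y Z : ModEnd k A} (S : SES X Y Z) :
    SES X.F Y.F Z.F where
  i := fMap S.i
  p := fMap S.p
  hi := fMap_injective _ S.hi
  hp := fMap_surjective _ S.hp
  hex := fMap_exact _ _ S.hp S.hex
  h1 := fMap_comm _ _ _ _ S.h1
  h2 := fMap_comm _ _ _ _ S.h2

/-- The functor `O` preserves short exact sequences. -/
noncomputable def SES.O [Module.Finite k A] {X Y Z : ModEnd k A} (S : SES X Y Z) :
    SES X.O Y.O Z.O where
  i := oMap S.i
  p := oMap S.p
  hi := by
    intro x y h
    apply Subtype.ext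
    apply fMap_injective (k := k) _ S.hi
    exact congrArg Subtype.val h
  hp := oMap_surjective _ _ S.hp S.hex
  hex := oMap_exact _ _ S.hi S.hp S.hex
  h1 := by
    intro x
    apply Subtype.ext
    exact S.F.h1 x.1
  h2 := by
    intro x
    apply Subtype.ext
    exact S.F.h2 x.1

/-- `Ω ^ m X` is projective. -/
def PdLE [Module.Finite k A] : ℕ → ModEnd k A → Prop
  | 0, X => Module.Projective A X.M
  | m + 1, X => PdLE m X.O

/-- The trace of length `m`. -/
noncomputable def T [Module.Finite k A] (lam : A →ₗ[k] k) : ℕ → ModEnd k A → k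
  | 0, X => ptr lam X.M X.f
  | m + 1, X => ptr lam X.F.M X.F.f - T lam m X.O

theorem pres_of_projective (X : ModEnd k A) [Module.Projective A X.M] :
    Nonempty (Pres A X.M) := by
  have : Module.Finite A X.M := Module.Finite.of_restrictScalars_finite k A X.M
  exact nonempty_pres X.M

theorem projective_F [Module.Finite k A] (X : ModEnd k A) : Module.Projective A X.F.M := by
  change Module.Projective A (A ⊗[k] X.M)
  exact Module.Projective.of_basis (Algebra.TensorProduct.basis A (Module.finBasis k X.M))

theorem T_exact [Module.Finite k A] (lam : A →ₗ[k] k)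
    (hlam : ∀ x y, lam (x * y) = lam (y * x)) (m : ℕ) {X Y Z : ModEnd k A} (S : SES X Y Z)
    (hX : PdLE m X) (hY : PdLE m Y) (hZ : PdLE m Z) :
    T lam m Y = T lam m X + T lam m Z := by
  induction m generalizing X Y Z with
  | zero =>
    have : Module.Projective A X.M := hX
    have : Module.Projective A Y.M := hY
    have : Module.Projective A Z.M := hZ
    obtain ⟨pX⟩ := pres_of_projective X
    obtain ⟨pY⟩ := pres_of_projective Y
    obtain ⟨pZ⟩ := pres_of_projective Z
    exact ptr_exact lam hlam pX pY pZ S.i S.p S.hi S.hp S.hex _ _ _ S.h1 S.h2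
  | succ m ih =>
    have h1 := ih S.O hX hY hZ
    have := projective_F X
    have := projective_F Y
    have := projective_F Z
    obtain ⟨pX⟩ := pres_of_projective X.F
    obtain ⟨pY⟩ := pres_of_projective Y.F
    obtain ⟨pZ⟩ := pres_of_projective Z.F
    have h2 := ptr_exact lam hlam pX pY pZ S.F.i S.F.p S.F.hi S.F.hp S.F.hex _ _ _ S.F.h1 S.F.h2
    simp only [T]
    rw [h1, h2]
    ring

/-- The short exact sequence `0 → Ω X → F X → X → 0`. -/
noncomputable def sesO [Module.Finite k A] (X : ModEnd k A) : SES X.O X.F X where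
  i := Submodule.subtype (LinearMap.ker (muMap k A X.M))
  p := muMap k A X.M
  hi := Submodule.subtype_injective _
  hp := muMap_surjective _ _ _
  hex := LinearMap.exact_subtype_ker_map _
  h1 := fun _ => rfl
  h2 := fun y => (muMap_fMap X.f y).symm

theorem PdLE_projective [Module.Finite k A] (m : ℕ) (X : ModEnd k A)
    (hX : Module.Projective A X.M) : PdLE m X := by
  induction m generalizing X with
  | zero => exact hX
  | succ m ih =>
    apply ih
    obtain ⟨s, hs⟩ := Module.projective_lifting_property (sesO X).p LinearMap.id (sesO X).hp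
    have := ((Function.Exact.split_tfae' (sesO X).hex).out 0 1 rfl rfl).mp
      ⟨(sesO X).hi, s, hs⟩
    obtain ⟨-, l, hl⟩ := this
    have := projective_F X
    exact Module.Projective.of_split _ l hl

theorem T_projective [Module.Finite k A] (lam : A →ₗ[k] k)
    (hlam : ∀ x y, lam (x * y) = lam (y * x)) (m : ℕ) (X : ModEnd k A)
    (hX : Module.Projective A X.M) : T lam m X = ptr lam X.M X.f := by
  induction m generalizing X with
  | zero => rfl
  | succ m ih =>
    have hO : PdLE 0 X.O := PdLE_projective 1 X hX
    have : Module.Projective A X.O.M := hO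
    have := projective_F X
    simp only [T]
    rw [ih X.O hO]
    obtain ⟨pX⟩ := pres_of_projective X
    obtain ⟨pF⟩ := pres_of_projective X.F
    obtain ⟨pO⟩ := pres_of_projective X.O
    have h2 := ptr_exact lam hlam pO pF pX (sesO X).i (sesO X).p (sesO X).hi (sesO X).hp
      (sesO X).hex _ _ _ (sesO X).h1 (sesO X).h2
    rw [h2]
    ring

theorem T_zero [Module.Finite k A] (lam : A →ₗ[k] k)
    (hlam : ∀ x y, lam (x * y) = lam (y * x)) (m : ℕ) (X : ModEnd k A)
    (hX : PdLE m X) (h0 : X.f = 0) : T lam m X = 0 := by
  induction m generalizing X with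
  | zero =>
    have : Module.Projective A X.M := hX
    obtain ⟨pX⟩ := pres_of_projective X
    simp only [T]
    rw [h0]
    exact ptr_zero lam hlam pX
  | succ m ih =>
    have hF0 : X.F.f = 0 := by
      change fMap X.f = 0
      rw [h0]
      refine LinearMap.ext fun x => ?_
      induction x with
      | zero => simp
      | add x y hx hy => simp [hx, hy]
      | tmul a m => rw [fMap_tmul]; simp
    have hO0 : X.O.f = 0 := by
      refine LinearMap.ext fun x => ?_
      apply Subtype.ext
      exact LinearMap.congr_fun hF0 x.1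
    have := projective_F X
    obtain ⟨pF⟩ := pres_of_projective X.F
    simp only [T]
    rw [ih X.O hX hO0, hF0, ptr_zero lam hlam pF, sub_zero]

end

end Pool.Agent.Run7.h155
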