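import Mathlib
import Pool.Agent.Run7.h155.Tr2

set_option autoImplicit false

/-!
Over a finite dimensional algebra of finite global dimension, a trace form vanishes on
nilpotent elements.
-/

namespace Pool.Agent.Run7.h155

open Module TensorProduct

section

variable {k A : Type} [Field k] [Ring A] [Algebra k A]

/-- The kernel of the endomorphism, with zero endomorphism. -/
def ModEnd.K (X : ModEnd k A) : ModEnd k A :=
  haveI : Module.Finite k (LinearMap.ker X.f) := finite_submodule _
  { M := LinearMap.ker X.f
    f := 0 }

/-- The range of the endomorphism, with the restricted endomorphism. -/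
def ModEnd.R (X : ModEnd k A) : ModEnd k A :=
  haveI : Module.Finite k (LinearMap.range X.f) := finite_submodule _
  { M := LinearMap.range X.f
    f := X.f.rangeRestrict.comp (Submodule.subtype _) }

/-- The short exact sequence `0 → ker f → M → range f → 0`. -/
def sesKR (X : ModEnd k A) : SES X.K X X.R where
  i := Submodule.subtype (LinearMap.ker X.f)
  p := X.f.rangeRestrict
  hi := Submodule.subtype_injective _
  hp := LinearMap.surjective_rangeRestrict _
  hex := by
    intro y
    constructor
    · intro h
      have h' : X.f y = 0 := congrArg Subtype.val h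
      exact ⟨⟨y, h'⟩, rfl⟩
    · rintro ⟨x, rfl⟩
      apply Subtype.ext
      exact x.2
  h1 := by
    intro x
    exact x.2
  h2 := by
    intro y
    rfl

theorem T_nilpotent [Module.Finite k A] (lam : A →ₗ[k] k)
    (hlam : ∀ x y, lam (x * y) = lam (y * x)) (m : ℕ) (hpd : ∀ X : ModEnd k A, PdLE m X)
    (N : ℕ) (X : ModEnd k A) (hX : ∀ x, (X.f ^[N]) x = 0) :
    T lam m X = 0 := by
  induction N generalizing X with
  | zero =>
    apply T_zero lam hlam m X (hpd X)
    refine LinearMap.ext fun x => ?_
    have : x = 0 := hX x
    rw [this, map_zero, map_zero]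
  | succ N ih =>
    rw [T_exact lam hlam m (sesKR X) (hpd _) (hpd _) (hpd _),
      T_zero lam hlam m X.K (hpd _) rfl, zero_add]
    apply ih
    rintro ⟨x, y, rfl⟩
    apply Subtype.ext
    have key : ∀ j : ℕ, ∀ z : X.R.M, ((X.R.f ^[j]) z).1 = (X.f ^[j]) z.1 := by
      intro j
      induction j with
      | zero => intro z; rfl
      | succ j ihj =>
        intro z
        rw [Function.iterate_succ_apply', Function.iterate_succ_apply', ← ihj]
        rfl
    refine (key N _).trans ?_
    change (X.f ^[N]) (X.f y) = 0
    rw [← Function.iterate_succ_apply]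
    exact hX y

theorem lam_nilpotent_of_PdLE [Module.Finite k A] (lam : A →ₗ[k] k)
    (hlam : ∀ x y, lam (x * y) = lam (y * x)) (m : ℕ) (hpd : ∀ X : ModEnd k A, PdLE m X)
    (a : A) (ha : IsNilpotent a) : lam a = 0 := by
  obtain ⟨N, hN⟩ := ha
  let X : ModEnd k A := { M := A, f := LinearMap.toSpanSingleton A A a }
  have hproj : Module.Projective A X.M := inferInstanceAs (Module.Projective A A)
  have h1 := T_projective lam hlam m X hproj
  have h2 : T lam m X = 0 := by
    apply T_nilpotent lam hlam m hpd N
    have key : ∀ j : ℕ, ∀ z : A, ((LinearMap.toSpanSingleton A A a) ^[j]) z = z * a ^ j := by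
      intro j
      induction j with
      | zero => intro z; simp
      | succ j ihj =>
        intro z
        rw [Function.iterate_succ_apply', ihj, LinearMap.toSpanSingleton_apply, smul_eq_mul,
          mul_assoc, pow_succ]
    intro x
    change ((LinearMap.toSpanSingleton A A a) ^[N]) x = 0
    rw [key, hN, mul_zero]
  let p : Pres A A :=
    { n := 1
      s := LinearMap.proj 0
      i := LinearMap.single A (fun _ : Fin 1 => A) 0
      h := by
        refine LinearMap.ext fun x => ?_
        simp }
  have h3 : ptr lam A (LinearMap.toSpanSingleton A A a) = lam a := by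
    rw [ptr_eq lam hlam p]
    simp [ftr, p]
  rw [← h3]
  rw [← h2]
  exact h1.symm

theorem PdLE_of_hasProjectiveDimensionLT [Module.Finite k A] (m : ℕ) (X : ModEnd k A)
    (h : CategoryTheory.HasProjectiveDimensionLT (ModuleCat.of A X.M) (m + 1)) : PdLE m X := by
  induction m generalizing X with
  | zero =>
    rw [zero_add, ← CategoryTheory.projective_iff_hasProjectiveDimensionLT_one,
      ← IsProjective.iff_projective] at h
    exact h
  | succ m ih =>
    apply ih
    let S : CategoryTheory.ShortComplex (ModuleCat.{0} A) :=
      CategoryTheory.ShortComplex.mk (ModuleCat.ofHom (sesO X).i) (ModuleCat.ofHom (sesO X).p)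
        (by
          ext x
          exact ((sesO X).hex _).2 ⟨x, rfl⟩)
    have hS : S.ShortExact := by
      refine ModuleCat.shortComplex_shortExact S ?_ (sesO X).hi (sesO X).hp
      exact (sesO X).hex
    have hF : CategoryTheory.HasProjectiveDimensionLT S.X₂ (m + 1) := by
      have : CategoryTheory.Projective S.X₂ := by
        rw [← IsProjective.iff_projective]
        exact projective_F X
      exact CategoryTheory.hasProjectiveDimensionLT_of_ge S.X₂ 1 (m + 1) (by omega)
    exact hS.hasProjectiveDimensionLT_X₁ (m + 1) hF h

/-- The category-theoretic formulation of finite global dimension. -/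
theorem lam_nilpotent [Module.Finite k A]
    (hgl : ∃ m : ℕ, ∀ M : ModuleCat.{0} A, CategoryTheory.HasProjectiveDimensionLT M m)
    (lam : A →ₗ[k] k) (hlam : ∀ x y, lam (x * y) = lam (y * x))
    (a : A) (ha : IsNilpotent a) : lam a = 0 := by
  obtain ⟨m, hm⟩ := hgl
  refine lam_nilpotent_of_PdLE lam hlam m (fun X => ?_) a ha
  have := hm (ModuleCat.of A X.M)
  exact PdLE_of_hasProjectiveDimensionLT m X
    (CategoryTheory.hasProjectiveDimensionLT_of_ge _ m (m + 1) (by omega))

end

end Pool.Agent.Run7.h155
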