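import Mathlib
import Pool.Agent.Run7.h155.Tr3

set_option autoImplicit false

/-!
Elementary algebras: a complete family of orthogonal idempotents `e` which spans the algebra
modulo its Jacobson radical.
-/

namespace Pool.Agent.Run7.h155

open Module

section

variable {k A : Type} [Field k] [Ring A] [Algebra k A]

/-- `A = ⊕ k e i + J`. -/
structure Elem (k : Type) {A : Type} [Field k] [Ring A] [Algebra k A] {n : ℕ}
    (e : Fin n → A) : Prop where
  coi : CompleteOrthogonalIdempotents e
  ne : ∀ i, e i ≠ 0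
  split : ∀ x : A, ∃ c : Fin n → k, x - ∑ i, c i • e i ∈ Ring.jacobson A

theorem exists_pow_jacobson [Module.Finite k A] :
    ∃ N : ℕ, (Ring.jacobson A) ^ N = (⊥ : Ideal A) := by
  have : IsArtinianRing A := isArtinian_of_tower k inferInstance
  obtain ⟨N, hN⟩ := (inferInstance : IsSemiprimaryRing A).isNilpotent
  exact ⟨N, hN⟩

theorem mem_mul_left' {x : A} (a : A) (hx : x ∈ Ring.jacobson A) : a * x ∈ Ring.jacobson A :=
  Ideal.mul_mem_left _ a hx

theorem mem_mul_right' {x : A} (a : A) (hx : x ∈ Ring.jacobson A) : x * a ∈ Ring.jacobson A :=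
  Ideal.mul_mem_right a _ hx

theorem mem_smul' {x : A} (c : k) (hx : x ∈ Ring.jacobson A) : c • x ∈ Ring.jacobson A := by
  rw [Algebra.smul_def]
  exact mem_mul_left' _ hx

theorem isNilpotent_of_mem [Module.Finite k A] {x : A} (hx : x ∈ Ring.jacobson A) :
    IsNilpotent x := by
  obtain ⟨N, hN⟩ := exists_pow_jacobson (k := k) (A := A)
  refine ⟨N, ?_⟩
  have := Submodule.pow_mem_pow _ hx N
  rw [hN] at this
  exact this

variable {n : ℕ} {e : Fin n → A}

theorem Elem.idem (h : Elem k e) (i : Fin n) : e i * e i = e i := h.coi.idem i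

theorem Elem.ortho (h : Elem k e) {i j : Fin n} (hij : i ≠ j) : e i * e j = 0 :=
  h.coi.ortho hij

theorem Elem.sum (h : Elem k e) : ∑ i, e i = 1 := h.coi.complete

theorem Elem.notMem [Module.Finite k A] (h : Elem k e) (i : Fin n) :
    e i ∉ Ring.jacobson A := by
  intro hi
  obtain ⟨N, hN⟩ := isNilpotent_of_mem (k := k) hi
  have : ∀ j : ℕ, e i ^ (j + 1) = e i := by
    intro j
    induction j with
    | zero => simp
    | succ j ih => rw [pow_succ, ih, h.idem]
  rcases N with _ | N
  · apply h.ne i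
    rw [pow_zero] at hN
    calc e i = e i * 1 := (mul_one _).symm
      _ = 0 := by rw [hN, mul_zero]
  · exact h.ne i (by rw [← this N, hN])

theorem Elem.sum_mul_right (h : Elem k e) (c : Fin n → k) (i : Fin n) :
    (∑ j, c j • e j) * e i = c i • e i := by
  rw [Finset.sum_mul, Finset.sum_eq_single i]
  · rw [smul_mul_assoc, h.idem]
  · intro j _ hj
    rw [smul_mul_assoc, h.ortho hj, smul_zero]
  · intro hi
    exact absurd (Finset.mem_univ i) hi

theorem Elem.sum_mul_left (h : Elem k e) (c : Fin n → k) (i : Fin n) :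
    e i * (∑ j, c j • e j) = c i • e i := by
  rw [Finset.mul_sum, Finset.sum_eq_single i]
  · rw [mul_smul_comm, h.idem]
  · intro j _ hj
    rw [mul_smul_comm, h.ortho hj.symm, smul_zero]
  · intro hi
    exact absurd (Finset.mem_univ i) hi

/-- Off-diagonal corners lie in the radical. -/
theorem Elem.mixed (h : Elem k e) {i j : Fin n} (hij : i ≠ j) (x : A) :
    e i * x * e j ∈ Ring.jacobson A := by
  obtain ⟨c, hc⟩ := h.split x
  have h1 : e i * (x - ∑ l, c l • e l) * e j ∈ Ring.jacobson A :=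
    mem_mul_right' _ (mem_mul_left' _ hc)
  rw [mul_sub, sub_mul, h.sum_mul_left, smul_mul_assoc, h.ortho hij, smul_zero, sub_zero] at h1
  exact h1

/-- Diagonal corners are scalars modulo the radical. -/
theorem Elem.diag (h : Elem k e) (i : Fin n) (x : A) :
    ∃ c : k, e i * x * e i - c • e i ∈ Ring.jacobson A := by
  obtain ⟨c, hc⟩ := h.split x
  have h1 : e i * (x - ∑ l, c l • e l) * e i ∈ Ring.jacobson A :=
    mem_mul_right' _ (mem_mul_left' _ hc)
  rw [mul_sub, sub_mul, h.sum_mul_left, smul_mul_assoc, h.idem] at h1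
  exact ⟨c i, h1⟩

/-- Elements of `A e i` are scalars times `e i` modulo the radical. -/
theorem Elem.right (h : Elem k e) (i : Fin n) (x : A) (hx : x * e i = x) :
    ∃ c : k, x - c • e i ∈ Ring.jacobson A := by
  obtain ⟨c, hc⟩ := h.split x
  have h1 : (x - ∑ l, c l • e l) * e i ∈ Ring.jacobson A := mem_mul_right' _ hc
  rw [sub_mul, h.sum_mul_right, hx] at h1
  exact ⟨c i, h1⟩

/-- If `x = x * e i` is not in the radical, some multiple of it is `e i`. -/
theorem Elem.exists_inv [Module.Finite k A] (h : Elem k e) (i : Fin n) (x : A)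
    (hx : x * e i = x) (hx' : x ∉ Ring.jacobson A) : ∃ w : A, w * x = e i := by
  obtain ⟨c, hc⟩ := h.right i x hx
  have hc0 : c ≠ 0 := by
    rintro rfl
    rw [zero_smul, sub_zero] at hc
    exact hx' hc
  set y := x - c • e i with hy
  have hn : IsNilpotent (-(c⁻¹ • y)) := (isNilpotent_of_mem (k := k) (mem_smul' c⁻¹ hc)).neg
  have hu : IsUnit (1 - (-(c⁻¹ • y))) := hn.isUnit_one_sub
  obtain ⟨u, hu⟩ := hu
  refine ⟨(↑u⁻¹ : A) * (c⁻¹ • 1), ?_⟩
  have hye : y * e i = y := by
    rw [hy, sub_mul, hx, smul_mul_assoc, h.idem]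
  have hx2 : c⁻¹ • x = (u : A) * e i := by
    rw [hu, sub_mul, one_mul, neg_mul, smul_mul_assoc, hye, hy, smul_sub, smul_smul,
      inv_mul_cancel₀ hc0, one_smul]
    abel
  rw [mul_assoc, smul_mul_assoc, one_mul, hx2, ← mul_assoc, Units.inv_mul, one_mul]

/-- The no loops theorem: for finite global dimension, `e i J e i ⊆ J ^ 2`. -/
theorem Elem.no_loops [Module.Finite k A]
    (hgl : ∃ m : ℕ, ∀ M : ModuleCat.{0} A, CategoryTheory.HasProjectiveDimensionLT M m)
    (h : Elem k e) (i : Fin n) (x : A) (hx : x ∈ Ring.jacobson A) (hxi : e i * x * e i = x) :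
    x ∈ Submodule.span k {z : A | ∃ a ∈ Ring.jacobson A, ∃ b ∈ Ring.jacobson A, z = a * b} := by
  by_contra hnot
  set S := Submodule.span k {z : A | ∃ a ∈ Ring.jacobson A, ∃ b ∈ Ring.jacobson A, z = a * b}
    with hS
  obtain ⟨psi, hpsi1, hpsi2⟩ := Submodule.exists_le_ker_of_notMem (p := S) hnot
  have hker : ∀ a ∈ Ring.jacobson A, ∀ b ∈ Ring.jacobson A, psi (a * b) = 0 := by
    intro a ha b hb
    exact LinearMap.mem_ker.1 (hpsi2 (Submodule.subset_span ⟨a, ha, b, hb, rfl⟩))
  let lam : A →ₗ[k] k := psi ∘ₗ (LinearMap.mulLeft k (e i) ∘ₗ LinearMap.mulRight k (e i))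
  have hlamdef : ∀ x, lam x = psi (e i * (x * e i)) := fun x => rfl
  have hexp : ∀ (c d : Fin n → k) (a b : A), a ∈ Ring.jacobson A → b ∈ Ring.jacobson A →
      lam ((∑ j, c j • e j + a) * (∑ j, d j • e j + b)) =
        (c i * d i) * psi (e i) + c i * psi (e i * b * e i) + d i * psi (e i * a * e i) := by
    intro c d a b ha hb
    rw [hlamdef]
    have : e i * ((∑ j, c j • e j + a) * (∑ j, d j • e j + b) * e i)
        = (e i * (∑ j, c j • e j) + e i * a) * ((∑ j, d j • e j) * e i + b * e i) := by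
      noncomm_ring
    rw [this, h.sum_mul_left, h.sum_mul_right]
    have h2 : (c i • e i + e i * a) * (d i • e i + b * e i)
        = (c i * d i) • e i + c i • (e i * b * e i) + d i • (e i * a * e i)
          + (e i * a) * (b * e i) := by
      rw [add_mul, mul_add, mul_add, smul_mul_smul_comm, h.idem, smul_mul_assoc, mul_smul_comm,
        ← mul_assoc (e i) b (e i)]
      abel
    rw [h2, map_add, map_add, map_add, map_smul, map_smul, map_smul,
      hker _ (mem_mul_left' _ ha) _ (mem_mul_right' _ hb)]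
    simp only [smul_eq_mul, add_zero]
  have htr : ∀ a b, lam (a * b) = lam (b * a) := by
    intro a b
    obtain ⟨c, hc⟩ := h.split a
    obtain ⟨d, hd⟩ := h.split b
    have ea : a = ∑ j, c j • e j + (a - ∑ j, c j • e j) := by abel
    have eb : b = ∑ j, d j • e j + (b - ∑ j, d j • e j) := by abel
    rw [ea, eb, hexp _ _ _ _ hc hd, hexp _ _ _ _ hd hc]
    ring
  have h0 := lam_nilpotent hgl lam htr x (isNilpotent_of_mem (k := k) hx)
  rw [hlamdef, ← mul_assoc, hxi] at h0
  exact hpsi1 h0

/-- For finite global dimension, nilpotent elements are sums of commutators. -/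
theorem mem_commutators [Module.Finite k A]
    (hgl : ∃ m : ℕ, ∀ M : ModuleCat.{0} A, CategoryTheory.HasProjectiveDimensionLT M m)
    (x : A) (hx : IsNilpotent x) :
    x ∈ Submodule.span k {z : A | ∃ a b : A, z = a * b - b * a} := by
  by_contra hnot
  obtain ⟨psi, hpsi1, hpsi2⟩ := Submodule.exists_le_ker_of_notMem hnot
  apply hpsi1
  apply lam_nilpotent hgl psi _ x hx
  intro a b
  have := LinearMap.mem_ker.1 (hpsi2 (Submodule.subset_span ⟨a, b, rfl⟩))
  rw [map_sub] at this
  exact sub_eq_zero.1 this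

end

end Pool.Agent.Run7.h155
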