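import Mathlib
import Pool.Agent.Run7.h155.Ele

set_option autoImplicit false

/-!
Vanishing of the first Hochschild homology, in dual form: over an elementary algebra of finite
global dimension every bilinear form `tau` with
`tau (a b) c - tau a (b c) + tau (c a) b = 0` is of the form `mu (a b - b a)`.
-/

namespace Pool.Agent.Run7.h155

open Module TensorProduct

section

variable {k A : Type} [Field k] [Ring A] [Algebra k A]
  (tau : A →ₗ[k] A →ₗ[k] k)

/-- The pairing of two matrices. -/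
def ft2 {I J : Type} [Fintype I] [DecidableEq I] [Fintype J] [DecidableEq J]
    (g : (I → A) →ₗ[A] (J → A)) (h : (J → A) →ₗ[A] (I → A)) : k :=
  ∑ j, ∑ l, tau (g (Pi.single j 1) l) (h (Pi.single l 1) j)

theorem comp_entry {I J L : Type} [Fintype I] [DecidableEq I] [Fintype J] [DecidableEq J]
    (g : (I → A) →ₗ[A] (J → A)) (h : (J → A) →ₗ[A] (L → A)) (j : I) (m : L) :
    (h ∘ₗ g) (Pi.single j 1) m = ∑ l, g (Pi.single j 1) l * h (Pi.single l 1) m := by
  have e1 : g (Pi.single j 1) = ∑ l, (g (Pi.single j 1) l) • (Pi.single l (1 : A) : J → A) := by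
    ext l
    simp [Finset.sum_apply, Pi.single_apply]
  conv_lhs => rw [LinearMap.comp_apply, e1, map_sum, Finset.sum_apply]
  refine Finset.sum_congr rfl fun l _ => ?_
  rw [map_smul]
  simp [smul_eq_mul]

theorem ft2_identity (htau : ∀ a b c, tau (a * b) c - tau a (b * c) + tau (c * a) b = 0)
    {I J L : Type} [Fintype I] [DecidableEq I] [Fintype J] [DecidableEq J]
    [Fintype L] [DecidableEq L]
    (g : (I → A) →ₗ[A] (J → A)) (h : (J → A) →ₗ[A] (L → A)) (q : (L → A) →ₗ[A] (I → A)) :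
    ft2 tau (h ∘ₗ g) q = ft2 tau g (q ∘ₗ h) - ft2 tau (g ∘ₗ q) h := by
  have e1 : ft2 tau (h ∘ₗ g) q = ∑ j, ∑ l, ∑ m, tau
      (g (Pi.single j 1) l * h (Pi.single l 1) m) (q (Pi.single m 1) j) := by
    unfold ft2
    refine Finset.sum_congr rfl fun j _ => ?_
    rw [Finset.sum_comm]
    refine Finset.sum_congr rfl fun m _ => ?_
    rw [comp_entry, map_sum, LinearMap.sum_apply]
  have e2 : ft2 tau g (q ∘ₗ h) = ∑ j, ∑ l, ∑ m, tau
      (g (Pi.single j 1) l) (h (Pi.single l 1) m * q (Pi.single m 1) j) := by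
    unfold ft2
    refine Finset.sum_congr rfl fun j _ => ?_
    refine Finset.sum_congr rfl fun l _ => ?_
    rw [comp_entry, map_sum]
  have e3 : ft2 tau (g ∘ₗ q) h = ∑ j, ∑ l, ∑ m, tau
      (q (Pi.single m 1) j * g (Pi.single j 1) l) (h (Pi.single l 1) m) := by
    unfold ft2
    have : ∀ (m : L) (l : J), tau ((g ∘ₗ q) (Pi.single m 1) l) (h (Pi.single l 1) m)
        = ∑ j, tau (q (Pi.single m 1) j * g (Pi.single j 1) l) (h (Pi.single l 1) m) := by
      intro m l
      rw [comp_entry, map_sum, LinearMap.sum_apply]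
    simp only [this]
    rw [Finset.sum_comm]
    conv_rhs => rw [Finset.sum_comm]
    refine Finset.sum_congr rfl fun l _ => ?_
    rw [Finset.sum_comm]
  rw [e1, e2, e3, ← Finset.sum_sub_distrib]
  refine Finset.sum_congr rfl fun j _ => ?_
  rw [← Finset.sum_sub_distrib]
  refine Finset.sum_congr rfl fun l _ => ?_
  rw [← Finset.sum_sub_distrib]
  refine Finset.sum_congr rfl fun m _ => ?_
  have := htau (g (Pi.single j 1) l) (h (Pi.single l 1) m) (q (Pi.single m 1) j)
  linear_combination this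

/-- The coboundaries. -/
def Bd (k A : Type) [Field k] [Ring A] [Algebra k A] : Submodule k (A → A → k) where
  carrier := {f | ∃ mu : A →ₗ[k] k, ∀ b c, f b c = mu (b * c) - mu (c * b)}
  add_mem' := by
    rintro f g ⟨mu, hmu⟩ ⟨nu, hnu⟩
    refine ⟨mu + nu, fun b c => ?_⟩
    simp only [Pi.add_apply, LinearMap.add_apply, hmu, hnu]
    ring
  zero_mem' := ⟨0, fun b c => by simp⟩
  smul_mem' := by
    rintro t f ⟨mu, hmu⟩
    refine ⟨t • mu, fun b c => ?_⟩
    simp only [Pi.smul_apply, LinearMap.smul_apply, hmu, smul_sub]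

/-- A presentation of a module as a retract of a finite free module, indexed by a type. -/
structure Pre (A P : Type) [Ring A] [AddCommGroup P] [Module A P] where
  I : Type
  [inst1 : Fintype I]
  [inst2 : DecidableEq I]
  s : (I → A) →ₗ[A] P
  i : P →ₗ[A] (I → A)
  h : ∀ y, s (i y) = y

attribute [instance] Pre.inst1 Pre.inst2

/-- A right action on a left module. -/
structure RAct (k A : Type) [Field k] [Ring A] [Algebra k A] (P : Type) [AddCommGroup P]
    [Module A P] where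
  R : A → (P →ₗ[A] P)
  add : ∀ b c x, R (b + c) x = R b x + R c x
  smul : ∀ (t : k) b x, R (t • b) x = (algebraMap k A t) • R b x
  one : ∀ x, R 1 x = x
  mul : ∀ b c x, R (b * c) x = R c (R b x)

/-- The matrix of the right action. -/
def Pre.mat {P : Type} [AddCommGroup P] [Module A P] (p : Pre A P) (g : P →ₗ[A] P) :
    (p.I → A) →ₗ[A] (p.I → A) := p.i ∘ₗ g ∘ₗ p.s

/-- The class of the induced cochain. -/
def bfun {P : Type} [AddCommGroup P] [Module A P] (p : Pre A P) (r : RAct k A P) :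
    A → A → k := fun b c => ft2 tau (p.mat (r.R b)) (p.mat (r.R c))

theorem ft2_swap (htau : ∀ a b c, tau (a * b) c - tau a (b * c) + tau (c * a) b = 0)
    {P : Type} [AddCommGroup P] [Module A P] (p : Pre A P) (r : RAct k A P) (b c : A) :
    ft2 tau (p.mat (r.R b)) (p.mat (r.R c)) + ft2 tau (p.mat (r.R c)) (p.mat (r.R b))
      = ft2 tau (p.mat (r.R 1)) (p.mat (r.R (b * c))) := by
  have key := ft2_identity tau htau (p.mat (r.R 1)) (p.mat (r.R b)) (p.mat (r.R c))
  have e1 : p.mat (r.R b) ∘ₗ p.mat (r.R 1) = p.mat (r.R b) := by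
    refine LinearMap.ext fun x => ?_
    simp [Pre.mat, p.h, r.one]
  have e2 : p.mat (r.R c) ∘ₗ p.mat (r.R b) = p.mat (r.R (b * c)) := by
    refine LinearMap.ext fun x => ?_
    simp [Pre.mat, p.h, r.mul]
  have e3 : p.mat (r.R 1) ∘ₗ p.mat (r.R c) = p.mat (r.R c) := by
    refine LinearMap.ext fun x => ?_
    simp [Pre.mat, p.h, r.one]
  rw [e1, e2, e3] at key
  rw [key]
  ring

theorem ft2_add_right {I J : Type} [Fintype I] [DecidableEq I] [Fintype J] [DecidableEq J]
    (g : (I → A) →ₗ[A] (J → A)) (h h' : (J → A) →ₗ[A] (I → A)) :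
    ft2 tau g (h + h') = ft2 tau g h + ft2 tau g h' := by
  simp [ft2, Finset.sum_add_distrib]

/-- Independence of the presentation. -/
theorem bfun_indep (htau : ∀ a b c, tau (a * b) c - tau a (b * c) + tau (c * a) b = 0)
    {P : Type} [AddCommGroup P] [Module A P] (p p' : Pre A P) (r : RAct k A P) :
    bfun tau p' r - bfun tau p r ∈ Bd k A := by
  let V : (p'.I → A) →ₗ[A] (p.I → A) := p.i ∘ₗ p'.s
  let U : (p.I → A) →ₗ[A] (p'.I → A) := p'.i ∘ₗ p.s
  let mu : A →ₗ[k] k :=
    { toFun := fun x => ft2 tau V (U ∘ₗ p.mat (r.R x))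
      map_add' := by
        intro x y
        rw [← ft2_add_right]
        congr 1
        refine LinearMap.ext fun z => ?_
        simp [Pre.mat, r.add]
      map_smul' := by
        intro t x
        simp only [RingHom.id_apply, ft2]
        rw [Finset.smul_sum]
        refine Finset.sum_congr rfl fun j _ => ?_
        rw [Finset.smul_sum]
        refine Finset.sum_congr rfl fun l _ => ?_
        rw [← map_smul]
        congr 1
        have hR : (U ∘ₗ p.mat (r.R (t • x))) (Pi.single l 1) j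
            = (U (p.i (r.R (t • x) (p.s (Pi.single l 1))))) j := rfl
        rw [hR, r.smul, map_smul, map_smul, Pi.smul_apply, smul_eq_mul, Algebra.smul_def]
        rfl }
  refine ⟨mu, fun b c => ?_⟩
  change ft2 tau (p'.mat (r.R b)) (p'.mat (r.R c)) - ft2 tau (p.mat (r.R b)) (p.mat (r.R c))
    = ft2 tau V (U ∘ₗ p.mat (r.R (b * c))) - ft2 tau V (U ∘ₗ p.mat (r.R (c * b)))
  have k1 := ft2_identity tau htau (p.mat (r.R b) ∘ₗ V) U (p'.mat (r.R c))
  have k2 := ft2_identity tau htau V (p.mat (r.R b)) (U ∘ₗ p.mat (r.R c))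
  have k3 := ft2_identity tau htau V (p.mat (r.R (c * b))) U
  have k4 := ft2_swap tau htau p r c b
  have e1 : U ∘ₗ (p.mat (r.R b) ∘ₗ V) = p'.mat (r.R b) := by
    refine LinearMap.ext fun x => ?_
    simp [Pre.mat, U, V, p.h, p'.h]
  have e2 : p'.mat (r.R c) ∘ₗ U = U ∘ₗ p.mat (r.R c) := by
    refine LinearMap.ext fun x => ?_
    simp [Pre.mat, U, p.h, p'.h]
  have e3 : (p.mat (r.R b) ∘ₗ V) ∘ₗ p'.mat (r.R c) = p.mat (r.R (c * b)) ∘ₗ V := by
    refine LinearMap.ext fun x => ?_
    simp [Pre.mat, V, p.h, p'.h, r.mul]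
  have e4 : (U ∘ₗ p.mat (r.R c)) ∘ₗ p.mat (r.R b) = U ∘ₗ p.mat (r.R (b * c)) := by
    refine LinearMap.ext fun x => ?_
    simp [Pre.mat, U, p.h, r.mul]
  have e5 : V ∘ₗ (U ∘ₗ p.mat (r.R c)) = p.mat (r.R c) := by
    refine LinearMap.ext fun x => ?_
    simp [Pre.mat, U, V, p.h, p'.h]
  have e6 : V ∘ₗ U = p.mat (r.R 1) := by
    refine LinearMap.ext fun x => ?_
    simp [Pre.mat, U, V, p'.h, r.one]
  rw [e1, e2, e3] at k1
  rw [e4, e5] at k2
  rw [e6] at k3
  rw [k1, k2, k3]
  linear_combination -k4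

open Classical in
/-- The class of the induced cochain of a projective module with a right action. -/
noncomputable def bptr (P : Type) [AddCommGroup P] [Module A P] (r : RAct k A P) :
    (A → A → k) ⧸ Bd k A :=
  if h : Nonempty (Pre A P) then Submodule.Quotient.mk (bfun tau h.some r) else 0

theorem bptr_eq (htau : ∀ a b c, tau (a * b) c - tau a (b * c) + tau (c * a) b = 0)
    {P : Type} [AddCommGroup P] [Module A P] (p : Pre A P) (r : RAct k A P) :
    bptr tau P r = Submodule.Quotient.mk (bfun tau p r) := by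
  have h : Nonempty (Pre A P) := ⟨p⟩
  rw [bptr, dif_pos h, Submodule.Quotient.eq]
  exact bfun_indep tau htau p h.some r

theorem nonempty_pre (P : Type) [AddCommGroup P] [Module A P] [Module.Finite A P]
    [Module.Projective A P] : Nonempty (Pre A P) := by
  obtain ⟨n, f, g, -, -, h⟩ := Module.Finite.exists_comp_eq_id_of_projective A P
  exact ⟨⟨Fin n, f, g, fun y => LinearMap.congr_fun h y⟩⟩

/-- The presentation of a split extension. -/
def preExt {X Y Z : Type}
    [AddCommGroup X] [Module A X] [AddCommGroup Y] [Module A Y] [AddCommGroup Z] [Module A Z]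
    (pX : Pre A X) (pZ : Pre A Z) (u : X →ₗ[A] Y) (v : Y →ₗ[A] Z)
    (r : Y →ₗ[A] X) (s : Z →ₗ[A] Y) (hrs : u ∘ₗ r + s ∘ₗ v = LinearMap.id) : Pre A Y where
  I := pX.I ⊕ pZ.I
  s := (u ∘ₗ pX.s ∘ₗ LinearMap.funLeft A A Sum.inl) +
    (s ∘ₗ pZ.s ∘ₗ LinearMap.funLeft A A Sum.inr)
  i := (LinearMap.pi fun j => Sum.rec (fun j => LinearMap.proj j ∘ₗ pX.i ∘ₗ r)
    (fun j => LinearMap.proj j ∘ₗ pZ.i ∘ₗ v) j)
  h := by
    intro y
    have h1 : (LinearMap.funLeft A A Sum.inl) ((LinearMap.pi fun j => Sum.rec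
        (fun j => LinearMap.proj j ∘ₗ pX.i ∘ₗ r)
        (fun j => LinearMap.proj j ∘ₗ pZ.i ∘ₗ v) j : Y →ₗ[A] (pX.I ⊕ pZ.I → A)) y)
        = pX.i (r y) := by
      funext j
      rfl
    have h2 : (LinearMap.funLeft A A Sum.inr) ((LinearMap.pi fun j => Sum.rec
        (fun j => LinearMap.proj j ∘ₗ pX.i ∘ₗ r)
        (fun j => LinearMap.proj j ∘ₗ pZ.i ∘ₗ v) j : Y →ₗ[A] (pX.I ⊕ pZ.I → A)) y)
        = pZ.i (v y) := by
      funext j
      rfl
    simp only [LinearMap.add_apply, LinearMap.comp_apply]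
    rw [h1, h2, pX.h, pZ.h]
    exact LinearMap.congr_fun hrs y

/-- Additivity of the class on short exact sequences of projectives. -/
theorem bptr_exact (htau : ∀ a b c, tau (a * b) c - tau a (b * c) + tau (c * a) b = 0)
    {X Y Z : Type}
    [AddCommGroup X] [Module A X] [AddCommGroup Y] [Module A Y] [AddCommGroup Z] [Module A Z]
    (pX : Pre A X) (pZ : Pre A Z) [Module.Projective A Z]
    (u : X →ₗ[A] Y) (v : Y →ₗ[A] Z) (hu : Function.Injective u) (hv : Function.Surjective v)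
    (hex : Function.Exact u v) (rX : RAct k A X) (rY : RAct k A Y) (rZ : RAct k A Z)
    (h1 : ∀ b x, rY.R b (u x) = u (rX.R b x)) (h2 : ∀ b y, rZ.R b (v y) = v (rY.R b y)) :
    bptr tau Y rY = bptr tau X rX + bptr tau Z rZ := by
  obtain ⟨s₀, hs₀⟩ := Module.projective_lifting_property v LinearMap.id hv
  have hsplit : ∃ (r : Y →ₗ[A] X) (s : Z →ₗ[A] Y), r ∘ₗ u = LinearMap.id ∧
      v ∘ₗ s = LinearMap.id ∧ u ∘ₗ r + s ∘ₗ v = LinearMap.id := by
    obtain ⟨e, rfl, rfl⟩ := ((Function.Exact.split_tfae' hex).out 0 2 rfl rfl).mp ⟨hu, s₀, hs₀⟩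
    refine ⟨LinearMap.fst A X Z ∘ₗ e.toLinearMap, e.symm.toLinearMap ∘ₗ LinearMap.inr A X Z,
      ?_, ?_, ?_⟩
    · refine LinearMap.ext fun x => ?_
      simp
    · refine LinearMap.ext fun x => ?_
      simp
    · refine LinearMap.ext fun x => ?_
      simp only [LinearMap.add_apply, LinearMap.comp_apply, LinearEquiv.coe_coe, ← map_add]
      simp
  obtain ⟨r, s, hr, hs, hrs⟩ := hsplit
  rw [bptr_eq tau htau (preExt pX pZ u v r s hrs), bptr_eq tau htau pX, bptr_eq tau htau pZ,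
    ← Submodule.Quotient.mk_add]
  congr 1
  have hr' : ∀ x, r (u x) = x := fun x => LinearMap.congr_fun hr x
  have hs' : ∀ x, v (s x) = x := fun x => LinearMap.congr_fun hs x
  have hvu : ∀ x, v (u x) = 0 := fun x => (hex _).2 ⟨x, rfl⟩
  funext b c
  change ft2 tau ((preExt pX pZ u v r s hrs).mat (rY.R b))
    ((preExt pX pZ u v r s hrs).mat (rY.R c)) = ft2 tau (pX.mat (rX.R b)) (pX.mat (rX.R c)) +
      ft2 tau (pZ.mat (rZ.R b)) (pZ.mat (rZ.R c))
  have entry : ∀ (b : A) (x : pX.I ⊕ pZ.I → A), (preExt pX pZ u v r s hrs).mat (rY.R b) x =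
      Sum.elim (pX.i (r (rY.R b (u (pX.s (x ∘ Sum.inl)) + s (pZ.s (x ∘ Sum.inr))))))
        (pZ.i (v (rY.R b (u (pX.s (x ∘ Sum.inl)) + s (pZ.s (x ∘ Sum.inr)))))) := by
    intro b x
    funext j
    rcases j with j | j
    · rfl
    · rfl
  have single_l : ∀ j : pX.I, ((Pi.single (Sum.inl j) (1 : A) : pX.I ⊕ pZ.I → A) ∘ Sum.inl)
      = Pi.single j 1 := by
    intro j
    funext l
    simp [Pi.single_apply]
  have single_lr : ∀ j : pX.I, ((Pi.single (Sum.inl j) (1 : A) : pX.I ⊕ pZ.I → A) ∘ Sum.inr)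
      = 0 := by
    intro j
    funext l
    simp [Pi.single_apply]
  have single_r : ∀ j : pZ.I, ((Pi.single (Sum.inr j) (1 : A) : pX.I ⊕ pZ.I → A) ∘ Sum.inr)
      = Pi.single j 1 := by
    intro j
    funext l
    simp [Pi.single_apply]
  have single_rl : ∀ j : pZ.I, ((Pi.single (Sum.inr j) (1 : A) : pX.I ⊕ pZ.I → A) ∘ Sum.inl)
      = 0 := by
    intro j
    funext l
    simp [Pi.single_apply]
  have hLL : ∀ (b : A) (j l : pX.I),
      (preExt pX pZ u v r s hrs).mat (rY.R b) (Pi.single (Sum.inl j) 1) (Sum.inl l)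
        = pX.mat (rX.R b) (Pi.single j 1) l := by
    intro b j l
    refine (congrFun (entry b (Pi.single (Sum.inl j) 1)) (Sum.inl l)).trans ?_
    rw [single_l, single_lr]
    simp [Pre.mat, h1, hr']
  have hLR : ∀ (b : A) (j : pX.I) (l : pZ.I),
      (preExt pX pZ u v r s hrs).mat (rY.R b) (Pi.single (Sum.inl j) 1) (Sum.inr l) = 0 := by
    intro b j l
    refine (congrFun (entry b (Pi.single (Sum.inl j) 1)) (Sum.inr l)).trans ?_
    rw [single_l, single_lr]
    simp [h1, hvu]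
  have hRR : ∀ (b : A) (j l : pZ.I),
      (preExt pX pZ u v r s hrs).mat (rY.R b) (Pi.single (Sum.inr j) 1) (Sum.inr l)
        = pZ.mat (rZ.R b) (Pi.single j 1) l := by
    intro b j l
    refine (congrFun (entry b (Pi.single (Sum.inr j) 1)) (Sum.inr l)).trans ?_
    rw [single_r, single_rl]
    simp only [map_zero, zero_add, Sum.elim_inr]
    rw [← h2, hs']
    rfl
  unfold ft2
  change ∑ j : pX.I ⊕ pZ.I, ∑ l : pX.I ⊕ pZ.I, _ = _
  rw [Fintype.sum_sum_type]
  simp only [Fintype.sum_sum_type, hLL, hLR, hRR, map_zero, LinearMap.zero_apply,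
    Finset.sum_const_zero, add_zero, zero_add]

end

end Pool.Agent.Run7.h155
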