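import Mathlib
import Pool.Agent.Run7.h155.Hh1

set_option autoImplicit false

/-!
Vanishing of the first Hochschild homology, in dual form, part 2.
-/

namespace Pool.Agent.Run7.h155

open Module TensorProduct

section

variable {k A : Type} [Field k] [Ring A] [Algebra k A]
  (tau : A →ₗ[k] A →ₗ[k] k)

/-- A finite dimensional bimodule. -/
structure BiMod (k A : Type) [Field k] [Ring A] [Algebra k A] where
  M : Type
  [inst1 : AddCommGroup M]
  [inst2 : Module A M]
  [inst3 : Module k M]
  [inst4 : IsScalarTower k A M]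
  [inst5 : Module.Finite k M]
  r : RAct k A M

attribute [instance] BiMod.inst1 BiMod.inst2 BiMod.inst3 BiMod.inst4 BiMod.inst5

/-- The module with one of the endomorphisms. -/
def BiMod.toEnd (X : BiMod k A) (b : A) : ModEnd k A where
  M := X.M
  f := X.r.R b

/-- The right action on the free cover. -/
noncomputable def RAct.F {M : Type} [AddCommGroup M] [Module A M] [Module k M]
    [IsScalarTower k A M] (r : RAct k A M) : RAct k A (A ⊗[k] M) where
  R b := fMap (r.R b)
  add b c x := by
    induction x with
    | zero => simp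
    | add x y hx hy => rw [map_add, map_add, map_add, hx, hy]; abel
    | tmul a m => rw [fMap_tmul, fMap_tmul, fMap_tmul, r.add, tmul_add]
  smul t b x := by
    induction x with
    | zero => simp
    | add x y hx hy => rw [map_add, map_add, hx, hy, smul_add]
    | tmul a m =>
      rw [fMap_tmul, fMap_tmul, r.smul, algebraMap_smul, algebraMap_smul, tmul_smul]
  one x := by
    induction x with
    | zero => simp
    | add x y hx hy => rw [map_add, hx, hy]
    | tmul a m => rw [fMap_tmul, r.one]
  mul b c x := by
    induction x with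
    | zero => simp
    | add x y hx hy => rw [map_add, map_add, map_add, hx, hy]
    | tmul a m => rw [fMap_tmul, fMap_tmul, fMap_tmul, r.mul]

/-- The right action on the syzygy. -/
noncomputable def RAct.O {M : Type} [AddCommGroup M] [Module A M] [Module k M]
    [IsScalarTower k A M] (r : RAct k A M) : RAct k A (LinearMap.ker (muMap k A M)) where
  R b := oMap (r.R b)
  add b c x := by
    apply Subtype.ext
    exact r.F.add b c x.1
  smul t b x := by
    apply Subtype.ext
    exact r.F.smul t b x.1
  one x := by
    apply Subtype.ext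
    exact r.F.one x.1
  mul b c x := by
    apply Subtype.ext
    exact r.F.mul b c x.1

/-- The free cover of a bimodule. -/
noncomputable def BiMod.F [Module.Finite k A] (X : BiMod k A) : BiMod k A where
  M := A ⊗[k] X.M
  r := X.r.F

/-- The syzygy of a bimodule. -/
noncomputable def BiMod.O [Module.Finite k A] (X : BiMod k A) : BiMod k A :=
  haveI : Module.Finite k (LinearMap.ker (muMap k A X.M)) := finite_submodule _
  { M := LinearMap.ker (muMap k A X.M)
    r := X.r.O }

/-- Short exact sequences of bimodules. -/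
structure BSES (X Y Z : BiMod k A) where
  i : X.M →ₗ[A] Y.M
  p : Y.M →ₗ[A] Z.M
  hi : Function.Injective i
  hp : Function.Surjective p
  hex : Function.Exact i p
  h1 : ∀ b x, Y.r.R b (i x) = i (X.r.R b x)
  h2 : ∀ b y, Z.r.R b (p y) = p (Y.r.R b y)

/-- The functor `F` preserves short exact sequences. -/
noncomputable def BSES.F [Module.Finite k A] {X Y Z : BiMod k A} (S : BSES X Y Z) :
    BSES X.F Y.F Z.F where
  i := fMap S.i
  p := fMap S.p
  hi := fMap_injective _ S.hi
  hp := fMap_surjective _ S.hp
  hex := fMap_exact _ _ S.hp S.hex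
  h1 b := fMap_comm _ _ _ _ (S.h1 b)
  h2 b := fMap_comm _ _ _ _ (S.h2 b)

/-- The functor `O` preserves short exact sequences. -/
noncomputable def BSES.O [Module.Finite k A] {X Y Z : BiMod k A} (S : BSES X Y Z) :
    BSES X.O Y.O Z.O where
  i := oMap S.i
  p := oMap S.p
  hi := by
    intro x y h
    apply Subtype.ext
    apply fMap_injective (k := k) _ S.hi
    exact congrArg Subtype.val h
  hp := oMap_surjective _ _ S.hp S.hex
  hex := oMap_exact _ _ S.hi S.hp S.hex
  h1 := by
    intro b x
    apply Subtype.ext
    exact S.F.h1 b x.1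
  h2 := by
    intro b x
    apply Subtype.ext
    exact S.F.h2 b x.1

/-- `Ω ^ m X` is projective. -/
def BPd [Module.Finite k A] (m : ℕ) (X : BiMod k A) : Prop := PdLE m (X.toEnd 1)

/-- The class of length `m`. -/
noncomputable def T1 [Module.Finite k A] : ℕ → BiMod k A → (A → A → k) ⧸ Bd k A
  | 0, X => bptr tau X.M X.r
  | m + 1, X => bptr tau X.F.M X.F.r - T1 m X.O

theorem pre_of_projective (X : BiMod k A) [Module.Projective A X.M] :
    Nonempty (Pre A X.M) := by
  have : Module.Finite A X.M := Module.Finite.of_restrictScalars_finite k A X.M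
  exact nonempty_pre X.M

theorem bprojective_F [Module.Finite k A] (X : BiMod k A) : Module.Projective A X.F.M :=
  projective_F (X.toEnd 1)

theorem T1_exact [Module.Finite k A]
    (htau : ∀ a b c, tau (a * b) c - tau a (b * c) + tau (c * a) b = 0)
    (m : ℕ) {X Y Z : BiMod k A} (S : BSES X Y Z)
    (hX : BPd m X) (hY : BPd m Y) (hZ : BPd m Z) :
    T1 tau m Y = T1 tau m X + T1 tau m Z := by
  induction m generalizing X Y Z with
  | zero =>
    have : Module.Projective A X.M := hX
    have : Module.Projective A Y.M := hY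
    have : Module.Projective A Z.M := hZ
    obtain ⟨pX⟩ := pre_of_projective X
    obtain ⟨pZ⟩ := pre_of_projective Z
    exact bptr_exact tau htau pX pZ S.i S.p S.hi S.hp S.hex _ _ _ S.h1 S.h2
  | succ m ih =>
    have h1 := ih S.O hX hY hZ
    have := bprojective_F X
    have := bprojective_F Z
    obtain ⟨pX⟩ := pre_of_projective X.F
    obtain ⟨pZ⟩ := pre_of_projective Z.F
    have h2 := bptr_exact tau htau pX pZ S.F.i S.F.p S.F.hi S.F.hp S.F.hex _ _ _ S.F.h1 S.F.h2
    simp only [T1]
    rw [h1, h2]
    abel

/-- The short exact sequence `0 → Ω X → F X → X → 0`. -/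
noncomputable def bsesO [Module.Finite k A] (X : BiMod k A) : BSES X.O X.F X where
  i := Submodule.subtype (LinearMap.ker (muMap k A X.M))
  p := muMap k A X.M
  hi := Submodule.subtype_injective _
  hp := muMap_surjective _ _ _
  hex := LinearMap.exact_subtype_ker_map _
  h1 := fun _ _ => rfl
  h2 := fun b y => (muMap_fMap (X.r.R b) y).symm

theorem T1_projective [Module.Finite k A]
    (htau : ∀ a b c, tau (a * b) c - tau a (b * c) + tau (c * a) b = 0) (m : ℕ)
    (X : BiMod k A) (hX : Module.Projective A X.M) : T1 tau m X = bptr tau X.M X.r := by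
  induction m generalizing X with
  | zero => rfl
  | succ m ih =>
    have hO : PdLE 0 (X.toEnd 1).O := PdLE_projective 1 (X.toEnd 1) hX
    have hO' : Module.Projective A X.O.M := hO
    simp only [T1]
    rw [ih X.O hO']
    obtain ⟨pX⟩ := pre_of_projective X
    obtain ⟨pO⟩ := pre_of_projective X.O
    have h2 := bptr_exact tau htau pO pX (bsesO X).i (bsesO X).p (bsesO X).hi (bsesO X).hp
      (bsesO X).hex _ _ _ (bsesO X).h1 (bsesO X).h2
    rw [h2]
    abel

theorem ft2_zero_left {I J : Type} [Fintype I] [DecidableEq I] [Fintype J] [DecidableEq J]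
    (h : (J → A) →ₗ[A] (I → A)) : ft2 tau 0 h = 0 := by
  simp [ft2]

theorem ft2_add_left {I J : Type} [Fintype I] [DecidableEq I] [Fintype J] [DecidableEq J]
    (g g' : (I → A) →ₗ[A] (J → A)) (h : (J → A) →ₗ[A] (I → A)) :
    ft2 tau (g + g') h = ft2 tau g h + ft2 tau g' h := by
  simp [ft2, Finset.sum_add_distrib]

theorem RAct.zero {M : Type} [AddCommGroup M] [Module A M] (r : RAct k A M) : r.R 0 = 0 := by
  refine LinearMap.ext fun x => ?_
  have := r.smul 0 0 x
  rw [zero_smul, map_zero, zero_smul] at this
  exact this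

theorem RAct.add' {M : Type} [AddCommGroup M] [Module A M] (r : RAct k A M) (b c : A) :
    r.R (b + c) = r.R b + r.R c := by
  refine LinearMap.ext fun x => ?_
  exact r.add b c x

theorem Pre.mat_add {M : Type} [AddCommGroup M] [Module A M] (p : Pre A M)
    (f g : M →ₗ[A] M) : p.mat (f + g) = p.mat f + p.mat g := by
  refine LinearMap.ext fun x => ?_
  simp [Pre.mat]

theorem Pre.mat_zero {M : Type} [AddCommGroup M] [Module A M] (p : Pre A M) :
    p.mat 0 = 0 := by
  refine LinearMap.ext fun x => ?_
  simp [Pre.mat]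

/-- `bfun` as a bilinear map. -/
noncomputable def bfun2 {P : Type} [AddCommGroup P] [Module A P] (p : Pre A P)
    (r : RAct k A P) : A →ₗ[k] A →ₗ[k] k :=
  LinearMap.mk₂ k (bfun tau p r)
    (by
      intro b b' c
      simp only [bfun]
      rw [r.add', p.mat_add, ft2_add_left])
    (by
      intro t b c
      simp only [bfun, ft2]
      rw [Finset.smul_sum]
      refine Finset.sum_congr rfl fun j _ => ?_
      rw [Finset.smul_sum]
      refine Finset.sum_congr rfl fun l _ => ?_
      have hR : (p.mat (r.R (t • b))) (Pi.single j 1) l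
            = (p.i (r.R (t • b) (p.s (Pi.single j 1)))) l := rfl
      have hR' : (p.mat (r.R b)) (Pi.single j 1) l
            = (p.i (r.R b (p.s (Pi.single j 1)))) l := rfl
      rw [hR, hR', r.smul, map_smul, Pi.smul_apply, smul_eq_mul, ← Algebra.smul_def, map_smul,
        LinearMap.smul_apply])
    (by
      intro b c c'
      simp only [bfun]
      rw [r.add', p.mat_add, ft2_add_right])
    (by
      intro t b c
      simp only [bfun, ft2]
      rw [Finset.smul_sum]
      refine Finset.sum_congr rfl fun j _ => ?_
      rw [Finset.smul_sum]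
      refine Finset.sum_congr rfl fun l _ => ?_
      have hR : (p.mat (r.R (t • c))) (Pi.single l 1) j
            = (p.i (r.R (t • c) (p.s (Pi.single l 1)))) j := rfl
      have hR' : (p.mat (r.R c)) (Pi.single l 1) j
            = (p.i (r.R c (p.s (Pi.single l 1)))) j := rfl
      rw [hR, hR', r.smul, map_smul, Pi.smul_apply, smul_eq_mul, ← Algebra.smul_def, map_smul])

theorem bfun2_apply {P : Type} [AddCommGroup P] [Module A P] (p : Pre A P)
    (r : RAct k A P) (b c : A) : bfun2 tau p r b c = bfun tau p r b c := rfl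

theorem bfun_semisimple {n : ℕ} {e : Fin n → A} (h : Elem k e)
    (htau : ∀ a b c, tau (a * b) c - tau a (b * c) + tau (c * a) b = 0)
    {P : Type} [AddCommGroup P] [Module A P] (p : Pre A P) (r : RAct k A P)
    (h0 : ∀ b ∈ Ring.jacobson A, r.R b = 0) : bfun tau p r = 0 := by
  have hcomp : ∀ i j, p.mat (r.R (e j)) ∘ₗ p.mat (r.R (e i)) = p.mat (r.R (e i * e j)) := by
    intro i j
    refine LinearMap.ext fun x => ?_
    simp [Pre.mat, p.h, r.mul]
  have hcomp0 : ∀ i j, i ≠ j → p.mat (r.R (e j)) ∘ₗ p.mat (r.R (e i)) = 0 := by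
    intro i j hij
    rw [hcomp, h.ortho hij, r.zero, p.mat_zero]
  have hE : ∀ i j, bfun2 tau p r (e i) (e j) = 0 := by
    intro i j
    rw [bfun2_apply]
    simp only [bfun]
    by_cases hij : i = j
    · subst hij
      have := ft2_identity tau htau (p.mat (r.R (e i))) (p.mat (r.R (e i))) (p.mat (r.R (e i)))
      rw [hcomp, h.idem, sub_self] at this
      exact this
    · have := ft2_identity tau htau (p.mat (r.R (e i))) (p.mat (r.R (e j))) (p.mat (r.R (e j)))
      rw [hcomp0 i j hij, hcomp j j, h.idem, hcomp0 j i (Ne.symm hij), ft2_zero_left,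
        sub_zero] at this
      exact this.symm
  have hJ1 : ∀ b ∈ Ring.jacobson A, ∀ c, bfun2 tau p r b c = 0 := by
    intro b hb c
    rw [bfun2_apply]
    simp only [bfun]
    rw [h0 b hb, p.mat_zero, ft2_zero_left]
  have hJ2 : ∀ b ∈ Ring.jacobson A, ∀ c, bfun2 tau p r c b = 0 := by
    intro b hb c
    rw [bfun2_apply]
    simp only [bfun]
    rw [h0 b hb, p.mat_zero]
    simp [ft2]
  funext b c
  rw [← bfun2_apply]
  obtain ⟨x, hx⟩ := h.split b
  obtain ⟨y, hy⟩ := h.split c
  have e1 : b = ∑ i, x i • e i + (b - ∑ i, x i • e i) := by abel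
  have e2 : c = ∑ i, y i • e i + (c - ∑ i, y i • e i) := by abel
  rw [e1, e2, LinearMap.map_add₂, hJ1 _ hx, map_add, hJ2 _ hy]
  simp only [map_sum, map_smul, LinearMap.sum_apply, LinearMap.smul_apply, hE, smul_zero,
    Finset.sum_const_zero, add_zero]
  rfl

theorem T1_zero [Module.Finite k A] {n : ℕ} {e : Fin n → A} (h : Elem k e)
    (htau : ∀ a b c, tau (a * b) c - tau a (b * c) + tau (c * a) b = 0) (m : ℕ)
    (X : BiMod k A) (hX : BPd m X) (h0 : ∀ b ∈ Ring.jacobson A, X.r.R b = 0) :
    T1 tau m X = 0 := by
  induction m generalizing X with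
  | zero =>
    have : Module.Projective A X.M := hX
    obtain ⟨pX⟩ := pre_of_projective X
    simp only [T1]
    rw [bptr_eq tau htau pX, bfun_semisimple tau h htau pX X.r h0]
    rfl
  | succ m ih =>
    have hF0 : ∀ b ∈ Ring.jacobson A, X.F.r.R b = 0 := by
      intro b hb
      change fMap (X.r.R b) = 0
      rw [h0 b hb]
      refine LinearMap.ext fun x => ?_
      induction x with
      | zero => simp
      | add x y hx hy => simp [hx, hy]
      | tmul a m => rw [fMap_tmul]; simp
    have hO0 : ∀ b ∈ Ring.jacobson A, X.O.r.R b = 0 := by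
      intro b hb
      refine LinearMap.ext fun x => ?_
      apply Subtype.ext
      exact LinearMap.congr_fun (hF0 b hb) x.1
    have := bprojective_F X
    obtain ⟨pF⟩ := pre_of_projective X.F
    simp only [T1]
    rw [ih X.O hX hO0, bptr_eq tau htau pF, bfun_semisimple tau h htau pF X.F.r hF0, sub_zero]
    rfl

/-- The elements killed by the radical. -/
def BiMod.soc (X : BiMod k A) : Submodule A X.M where
  carrier := {x | ∀ b ∈ Ring.jacobson A, X.r.R b x = 0}
  add_mem' := by
    intro x y hx hy b hb
    rw [map_add, hx b hb, hy b hb, add_zero]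
  zero_mem' := by
    intro b _
    rw [map_zero]
  smul_mem' := by
    intro a x hx b hb
    rw [map_smul, hx b hb, smul_zero]

theorem BiMod.soc_stable (X : BiMod k A) (c : A) (x : X.M) (hx : x ∈ X.soc) :
    X.r.R c x ∈ X.soc := by
  intro b hb
  rw [← X.r.mul]
  exact hx _ (mem_mul_left' _ hb)

/-- The right action on the socle. -/
def BiMod.socAct (X : BiMod k A) : RAct k A X.soc where
  R c := LinearMap.restrict (X.r.R c) (X.soc_stable c)
  add b c x := by
    apply Subtype.ext
    exact X.r.add b c x.1
  smul t b x := by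
    apply Subtype.ext
    exact X.r.smul t b x.1
  one x := by
    apply Subtype.ext
    exact X.r.one x.1
  mul b c x := by
    apply Subtype.ext
    exact X.r.mul b c x.1

/-- The socle as a bimodule. -/
def BiMod.K (X : BiMod k A) : BiMod k A :=
  haveI : Module.Finite k X.soc := finite_submodule _
  { M := X.soc
    r := X.socAct }

/-- The right action on the quotient. -/
def BiMod.quotAct (X : BiMod k A) : RAct k A (X.M ⧸ X.soc) where
  R c := X.soc.mapQ X.soc (X.r.R c) (X.soc_stable c)
  add b c x := by
    obtain ⟨x, rfl⟩ := Submodule.mkQ_surjective _ x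
    simp only [Submodule.mkQ_apply, Submodule.mapQ_apply, X.r.add, Submodule.Quotient.mk_add]
  smul t b x := by
    obtain ⟨x, rfl⟩ := Submodule.mkQ_surjective _ x
    simp only [Submodule.mkQ_apply, Submodule.mapQ_apply, X.r.smul, Submodule.Quotient.mk_smul]
  one x := by
    obtain ⟨x, rfl⟩ := Submodule.mkQ_surjective _ x
    simp only [Submodule.mkQ_apply, Submodule.mapQ_apply, X.r.one]
  mul b c x := by
    obtain ⟨x, rfl⟩ := Submodule.mkQ_surjective _ x
    simp only [Submodule.mkQ_apply, Submodule.mapQ_apply, X.r.mul]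

/-- The quotient as a bimodule. -/
def BiMod.Q (X : BiMod k A) : BiMod k A where
  M := X.M ⧸ X.soc
  r := X.quotAct

/-- The short exact sequence. -/
def sesKQ (X : BiMod k A) : BSES X.K X X.Q where
  i := Submodule.subtype X.soc
  p := Submodule.mkQ X.soc
  hi := Submodule.subtype_injective _
  hp := Submodule.mkQ_surjective _
  hex := LinearMap.exact_subtype_mkQ _
  h1 := fun _ _ => rfl
  h2 := fun _ _ => rfl

theorem T1_nilp [Module.Finite k A] {n : ℕ} {e : Fin n → A} (h : Elem k e)
    (htau : ∀ a b c, tau (a * b) c - tau a (b * c) + tau (c * a) b = 0) (m : ℕ)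
    (hpd : ∀ X : BiMod k A, BPd m X) (N : ℕ) (X : BiMod k A)
    (hX : ∀ b ∈ (Ring.jacobson A) ^ N, X.r.R b = 0) :
    T1 tau m X = 0 := by
  induction N generalizing X with
  | zero =>
    apply T1_zero tau h htau m X (hpd X)
    intro b _
    refine LinearMap.ext fun x => ?_
    have h1 : X.r.R 1 = 0 := hX 1 (by
      rw [Submodule.pow_zero, Ideal.one_eq_top]
      exact Submodule.mem_top)
    have : x = 0 := by rw [← X.r.one x, h1]; rfl
    rw [this, map_zero, map_zero]
  | succ N ih =>
    have hK : T1 tau m X.K = 0 := by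
      apply T1_zero tau h htau m X.K (hpd _)
      intro b hb
      refine LinearMap.ext fun x => ?_
      apply Subtype.ext
      exact x.2 b hb
    rw [T1_exact tau htau m (sesKQ X) (hpd _) (hpd _) (hpd _), hK, zero_add]
    apply ih
    intro b hb
    refine LinearMap.ext fun x => ?_
    obtain ⟨x, rfl⟩ := Submodule.mkQ_surjective _ x
    change Submodule.mkQ X.soc (X.r.R b x) = 0
    rw [← LinearMap.mem_ker, Submodule.ker_mkQ]
    intro c hc
    rw [← X.r.mul, hX _ (by rw [Submodule.pow_succ]; exact Submodule.mul_mem_mul hb hc)]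
    rfl

/-- Right multiplication. -/
def selfAct (k A : Type) [Field k] [Ring A] [Algebra k A] : RAct k A A where
  R b := LinearMap.toSpanSingleton A A b
  add b c x := by simp [mul_add]
  smul t b x := by
    rw [LinearMap.toSpanSingleton_apply, smul_eq_mul, mul_smul_comm, Algebra.smul_def]
    rfl
  one x := by simp
  mul b c x := by simp [mul_assoc]

/-- The vanishing theorem, in dual form. -/
theorem hh1 [Module.Finite k A] {n : ℕ} {e : Fin n → A} (h : Elem k e)
    (hgl : ∃ m : ℕ, ∀ M : ModuleCat.{0} A, CategoryTheory.HasProjectiveDimensionLT M m)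
    (htau : ∀ a b c, tau (a * b) c - tau a (b * c) + tau (c * a) b = 0) :
    ∃ mu : A →ₗ[k] k, ∀ b c, tau b c = mu (b * c) - mu (c * b) := by
  obtain ⟨m, hm⟩ := hgl
  have hpd : ∀ X : BiMod k A, BPd m X := by
    intro X
    have := hm (ModuleCat.of A X.M)
    exact PdLE_of_hasProjectiveDimensionLT m (X.toEnd 1)
      (CategoryTheory.hasProjectiveDimensionLT_of_ge _ m (m + 1) (by omega))
  obtain ⟨N, hN⟩ := exists_pow_jacobson (k := k) (A := A)
  let X : BiMod k A := { M := A, r := selfAct k A }
  have hproj : Module.Projective A X.M := inferInstanceAs (Module.Projective A A)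
  have h1 := T1_projective tau htau m X hproj
  have h2 : T1 tau m X = 0 := by
    apply T1_nilp tau h htau m hpd N X
    intro b hb
    rw [hN] at hb
    have : b = 0 := hb
    rw [this]
    exact X.r.zero
  let p : Pre A A :=
    { I := Unit
      s := LinearMap.proj ()
      i := LinearMap.pi fun _ => LinearMap.id
      h := fun y => rfl }
  have h3 : bptr tau A (selfAct k A) = Submodule.Quotient.mk (bfun tau p (selfAct k A)) :=
    bptr_eq tau htau p _
  have h4 : bfun tau p (selfAct k A) = fun b c => tau b c := by
    funext b c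
    simp [bfun, ft2, p, Pre.mat, selfAct]
  have h5 : Submodule.Quotient.mk (bfun tau p (selfAct k A)) = (0 : (A → A → k) ⧸ Bd k A) := by
    rw [← h3, ← h2]
    exact h1.symm
  rw [Submodule.Quotient.mk_eq_zero, h4] at h5
  exact h5

end

end Pool.Agent.Run7.h155
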