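import Mathlib
import Pool.Agent.Run7.h155.Hh2

set_option autoImplicit false

/-!
Two simple modules: the corners `e i A e i`, `e i A e j` of an elementary algebra of finite
global dimension.
-/

namespace Pool.Agent.Run7.h155

open Module TensorProduct

section

variable {k A : Type} [Field k] [Ring A] [Algebra k A]

/-- The projection `x ↦ p x q` as a linear map. -/
def corMap (k : Type) {A : Type} [Field k] [Ring A] [Algebra k A] (p q : A) : A →ₗ[k] A :=
  (LinearMap.mulLeft k p).comp (LinearMap.mulRight k q)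

theorem corMap_apply (p q x : A) : corMap k p q x = p * (x * q) := rfl

/-- `p A q`. -/
def cor (k : Type) {A : Type} [Field k] [Ring A] [Algebra k A] (p q : A) : Submodule k A :=
  LinearMap.range (corMap k p q)

theorem mem_cor {p q : A} (hp : p * p = p) (hq : q * q = q) {x : A} :
    x ∈ cor k p q ↔ p * x = x ∧ x * q = x := by
  constructor
  · rintro ⟨y, rfl⟩
    rw [corMap_apply]
    constructor
    · rw [← mul_assoc, hp]
    · rw [mul_assoc, mul_assoc, hq]
  · rintro ⟨h1, h2⟩
    exact ⟨x, by rw [corMap_apply, h2, h1]⟩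

theorem cor_left {p q : A} (hp : p * p = p) {x : A} (hx : x ∈ cor k p q) : p * x = x := by
  obtain ⟨y, rfl⟩ := hx
  rw [corMap_apply, ← mul_assoc, hp]

theorem cor_right {p q : A} (hq : q * q = q) {x : A} (hx : x ∈ cor k p q) : x * q = x := by
  obtain ⟨y, rfl⟩ := hx
  rw [corMap_apply, mul_assoc, mul_assoc, hq]

theorem mem_cor_mk (p q x : A) : p * (x * q) ∈ cor k p q := ⟨x, rfl⟩

/-- `p J p`. -/
def radc (k : Type) {A : Type} [Field k] [Ring A] [Algebra k A] (p : A) : Submodule k A :=
  (Ring.jacobson A).restrictScalars k ⊓ cor k p p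

theorem mem_radc {p : A} (hp : p * p = p) {x : A} :
    x ∈ radc k p ↔ x ∈ Ring.jacobson A ∧ p * x = x ∧ x * p = x := by
  unfold radc
  rw [Submodule.mem_inf, mem_cor hp hp, Submodule.restrictScalars_mem]

theorem pow_radc_le (p : A) (m : ℕ) (x : A) (hx : x ∈ (radc k p) ^ m) :
    x ∈ (Ring.jacobson A) ^ m := by
  induction m generalizing x with
  | zero =>
    rw [Submodule.pow_zero, Ideal.one_eq_top]
    exact Submodule.mem_top
  | succ m ih =>
    rw [Submodule.pow_succ] at hx ⊢
    refine Submodule.mul_induction_on hx (fun a ha b hb => ?_) (fun a b ha hb => ?_)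
    · exact Submodule.mul_mem_mul (ih a ha) hb.1
    · exact Submodule.add_mem _ ha hb

theorem exists_pow_radc [Module.Finite k A] (p : A) : ∃ N : ℕ, (radc k p) ^ N = ⊥ := by
  obtain ⟨N, hN⟩ := exists_pow_jacobson (k := k) (A := A)
  refine ⟨N, ?_⟩
  rw [eq_bot_iff]
  intro x hx
  have := pow_radc_le p N x hx
  rw [hN] at this
  exact this

/-- A submodule contained in `R * R + P`, with `P * R ≤ P`, is contained in `P`. -/
theorem le_of_le_sq {R P : Submodule k A} (h1 : R ≤ R * R ⊔ P) (h2 : P * R ≤ P)
    (hR : ∃ N : ℕ, R ^ N = ⊥) : R ≤ P := by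
  have h3 : ∀ m : ℕ, P * R ^ m ≤ P := by
    intro m
    induction m with
    | zero => rw [Submodule.pow_zero, mul_one]
    | succ m ih =>
      rw [Submodule.pow_succ, ← mul_assoc]
      exact (mul_le_mul' ih le_rfl).trans h2
  have h4 : ∀ m : ℕ, R ≤ R ^ (m + 1) ⊔ P := by
    intro m
    induction m with
    | zero => rw [pow_one]; exact le_sup_left
    | succ m ih =>
      refine ih.trans (sup_le ?_ le_sup_right)
      calc R ^ (m + 1) = R * R ^ m := pow_succ' R m
        _ ≤ (R * R ⊔ P) * R ^ m := mul_le_mul' h1 le_rfl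
        _ = R * R * R ^ m ⊔ P * R ^ m := Submodule.sup_mul _ _ _
        _ ≤ R ^ (m + 1 + 1) ⊔ P := by
          refine sup_le_sup (le_of_eq ?_) (h3 m)
          rw [pow_succ' R (m + 1), pow_succ' R m, mul_assoc]
  obtain ⟨N, hN⟩ := hR
  have := h4 N
  rw [pow_succ, hN, Submodule.bot_mul, bot_sup_eq] at this
  exact this

variable {e : Fin 2 → A} {i j : Fin 2}

theorem Elem.sum_two (h : Elem k e) (hij : i ≠ j) : e i + e j = 1 := by
  rw [← h.sum, Fin.sum_univ_two]
  fin_cases i <;> fin_cases j <;> simp_all [add_comm]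

theorem Elem.cor_mem_jac (h : Elem k e) (hij : i ≠ j) {x : A} (hx : x ∈ cor k (e i) (e j)) :
    x ∈ Ring.jacobson A := by
  obtain ⟨y, rfl⟩ := hx
  rw [corMap_apply, ← mul_assoc]
  exact h.mixed hij y

theorem cor_mul_cor (h : Elem k e) (i j l : Fin 2) :
    cor k (e i) (e j) * cor k (e j) (e l) ≤ cor k (e i) (e l) := by
  rw [Submodule.mul_le]
  intro x hx y hy
  rw [mem_cor (h.idem _) (h.idem _)]
  rw [mem_cor (h.idem _) (h.idem _)] at hx hy
  constructor
  · rw [← mul_assoc, hx.1]
  · rw [mul_assoc, hy.2]

theorem radc_le_cor (p : A) : radc k p ≤ cor k p p := inf_le_right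

/-- The radical of a corner is the product of the two off-diagonal corners. -/
theorem radc_le [Module.Finite k A] (h : Elem k e)
    (hgl : ∃ m : ℕ, ∀ M : ModuleCat.{0} A, CategoryTheory.HasProjectiveDimensionLT M m)
    (hij : i ≠ j) :
    radc k (e i) ≤ cor k (e i) (e j) * cor k (e j) (e i) := by
  apply le_of_le_sq
  · intro x hx
    obtain ⟨hxJ, hx1, hx2⟩ := (mem_radc (h.idem i)).1 hx
    have h1 := h.no_loops hgl i x hxJ (by rw [hx1, hx2])
    have h2 : ∀ z ∈ Submodule.span k {z : A | ∃ a ∈ Ring.jacobson A, ∃ b ∈ Ring.jacobson A,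
        z = a * b}, e i * z * e i ∈
        radc k (e i) * radc k (e i) ⊔ cor k (e i) (e j) * cor k (e j) (e i) := by
      intro z hz
      induction hz using Submodule.span_induction with
      | mem z hz =>
        obtain ⟨a, ha, b, hb, rfl⟩ := hz
        have e1 : e i * (a * b) * e i = (e i * a * e i) * (e i * b * e i) +
            (e i * (a * e j)) * (e j * (b * e i)) := by
          have : e i * (a * b) * e i = e i * a * (e i + e j) * b * e i := by
            rw [h.sum_two hij]
            noncomm_ring
          rw [this]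
          have h3 := h.idem i
          have h4 := h.idem j
          calc e i * a * (e i + e j) * b * e i = e i * a * e i * b * e i +
              e i * a * e j * b * e i := by noncomm_ring
            _ = e i * a * (e i * e i) * b * e i + e i * a * (e j * e j) * b * e i := by
              rw [h3, h4]
            _ = _ := by noncomm_ring
        rw [e1]
        refine Submodule.add_mem_sup (Submodule.mul_mem_mul ?_ ?_)
          (Submodule.mul_mem_mul (mem_cor_mk _ _ _) (mem_cor_mk _ _ _))
        · rw [mem_radc (h.idem i)]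
          refine ⟨mem_mul_right' _ (mem_mul_left' _ ha), ?_, ?_⟩
          · rw [← mul_assoc, ← mul_assoc, h.idem]
          · rw [mul_assoc, h.idem]
        · rw [mem_radc (h.idem i)]
          refine ⟨mem_mul_right' _ (mem_mul_left' _ hb), ?_, ?_⟩
          · rw [← mul_assoc, ← mul_assoc, h.idem]
          · rw [mul_assoc, h.idem]
      | zero => simp
      | add x y _ _ hx hy =>
        rw [mul_add, add_mul]
        exact Submodule.add_mem _ hx hy
      | smul c x _ hx =>
        rw [mul_smul_comm, smul_mul_assoc]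
        exact Submodule.smul_mem _ _ hx
    have h3 := h2 x h1
    rwa [hx1, hx2] at h3
  · rw [mul_assoc]
    refine mul_le_mul' le_rfl ?_
    exact (mul_le_mul' le_rfl (radc_le_cor _)).trans (cor_mul_cor h _ _ _)
  · exact exists_pow_radc _

theorem cor_mul_cor_le_radc (h : Elem k e) (hij : i ≠ j) :
    cor k (e i) (e j) * cor k (e j) (e i) ≤ radc k (e i) := by
  refine le_inf ?_ (cor_mul_cor h _ _ _)
  rw [Submodule.mul_le]
  intro x hx y _
  exact mem_mul_right' _ (h.cor_mem_jac hij hx)

theorem radc_eq [Module.Finite k A] (h : Elem k e)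
    (hgl : ∃ m : ℕ, ∀ M : ModuleCat.{0} A, CategoryTheory.HasProjectiveDimensionLT M m)
    (hij : i ≠ j) :
    radc k (e i) = cor k (e i) (e j) * cor k (e j) (e i) :=
  le_antisymm (radc_le h hgl hij) (cor_mul_cor_le_radc h hij)

/-- The dimension of a diagonal corner. -/
theorem finrank_cor_diag [Module.Finite k A] (h : Elem k e) (i : Fin 2) :
    finrank k (cor k (e i) (e i)) = 1 + finrank k (radc k (e i)) := by
  have hsup : cor k (e i) (e i) = Submodule.span k {e i} ⊔ radc k (e i) := by
    apply le_antisymm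
    · intro x hx
      have hx' := (mem_cor (h.idem i) (h.idem i)).1 hx
      obtain ⟨c, hc⟩ := h.diag i x
      rw [hx'.1, hx'.2] at hc
      have : x = c • e i + (x - c • e i) := by abel
      rw [this]
      refine Submodule.add_mem_sup (Submodule.smul_mem _ _ (Submodule.mem_span_singleton_self _)) ?_
      rw [mem_radc (h.idem i)]
      refine ⟨hc, ?_, ?_⟩
      · rw [mul_sub, hx'.1, mul_smul_comm, h.idem]
      · rw [sub_mul, hx'.2, smul_mul_assoc, h.idem]
    · refine sup_le ?_ (radc_le_cor _)
      rw [Submodule.span_singleton_le_iff_mem, mem_cor (h.idem i) (h.idem i)]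
      exact ⟨h.idem i, h.idem i⟩
  have hinf : Submodule.span k {e i} ⊓ radc k (e i) = ⊥ := by
    rw [eq_bot_iff]
    rintro x ⟨hx1, hx2⟩
    obtain ⟨c, rfl⟩ := Submodule.mem_span_singleton.1 hx1
    by_contra hne
    have hc0 : c ≠ 0 := by
      rintro rfl
      exact hne (by simp)
    have hJ : c • e i ∈ Ring.jacobson A := hx2.1
    have := mem_smul' c⁻¹ hJ
    rw [smul_smul, inv_mul_cancel₀ hc0, one_smul] at this
    exact h.notMem i this
  have h1 := Submodule.finrank_sup_add_finrank_inf_eq (Submodule.span k {e i}) (radc k (e i))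
  rw [hinf, finrank_bot, add_zero, finrank_span_singleton (h.ne i)] at h1
  rw [hsup, h1]

end

end Pool.Agent.Run7.h155
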