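import Mathlib
import Pool.Agent.Run7.h155.Two

set_option autoImplicit false

/-!
The consequence of `hh1` for an elementary algebra with two simple modules.
-/

namespace Pool.Agent.Run7.h155

open Module TensorProduct

section

variable {k A : Type} [Field k] [Ring A] [Algebra k A]

/-- The span of the idempotents. -/
def idS (k : Type) {A : Type} [Field k] [Ring A] [Algebra k A] {n : ℕ} (e : Fin n → A) :
    Submodule k A := Submodule.span k (Set.range e)

theorem mem_idS {n : ℕ} {e : Fin n → A} {u : A} :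
    u ∈ idS k e ↔ ∃ c : Fin n → k, ∑ s, c s • e s = u := by
  unfold idS
  exact Submodule.mem_span_range_iff_exists_fun k

theorem Elem.isCompl [Module.Finite k A] {n : ℕ} {e : Fin n → A} (h : Elem k e) :
    IsCompl ((Ring.jacobson A).restrictScalars k) (idS k e) := by
  constructor
  · rw [Submodule.disjoint_def]
    intro x hx hx2
    obtain ⟨c, rfl⟩ := mem_idS.1 hx2
    have hc : ∀ s, c s = 0 := by
      intro s
      by_contra hne
      have h1 : (∑ t, c t • e t) * e s ∈ Ring.jacobson A := mem_mul_right' _ hx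
      rw [h.sum_mul_right] at h1
      have h2 := mem_smul' (c s)⁻¹ h1
      rw [smul_smul, inv_mul_cancel₀ hne, one_smul] at h2
      exact h.notMem s h2
    simp [hc]
  · rw [codisjoint_iff, eq_top_iff]
    intro x _
    obtain ⟨c, hc⟩ := h.split x
    have : x = (x - ∑ s, c s • e s) + ∑ s, c s • e s := by abel
    rw [this]
    exact Submodule.add_mem_sup hc (mem_idS.2 ⟨c, rfl⟩)

theorem idS_mul {n : ℕ} {e : Fin n → A} (h : Elem k e) {u v : A} (hu : u ∈ idS k e)
    (hv : v ∈ idS k e) : u * v ∈ idS k e := by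
  obtain ⟨c, rfl⟩ := mem_idS.1 hu
  obtain ⟨d, rfl⟩ := mem_idS.1 hv
  refine mem_idS.2 ⟨fun s => c s * d s, ?_⟩
  rw [Finset.mul_sum]
  refine Finset.sum_congr rfl fun s _ => ?_
  rw [mul_smul_comm, h.sum_mul_right, smul_smul, mul_comm]

/-- The cocycle built from an associative form on the radical. -/
theorem cocycle_of_assoc [Module.Finite k A] {n : ℕ} {e : Fin n → A} (h : Elem k e)
    (hgl : ∃ m : ℕ, ∀ M : ModuleCat.{0} A, CategoryTheory.HasProjectiveDimensionLT M m)
    (Ps : A →ₗ[k] A →ₗ[k] k)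
    (h1 : ∀ x ∈ Ring.jacobson A, ∀ y ∈ Ring.jacobson A, ∀ z ∈ Ring.jacobson A,
      Ps (x * y) z = Ps x (y * z))
    (h2 : ∀ x ∈ Ring.jacobson A, ∀ y ∈ Ring.jacobson A, ∀ s, Ps (e s * x) y = Ps x (y * e s))
    (h3 : ∀ x ∈ Ring.jacobson A, ∀ y ∈ Ring.jacobson A, ∀ s, Ps (x * e s) y = Ps x (e s * y)) :
    ∃ mu : A →ₗ[k] k, ∀ x ∈ Ring.jacobson A, ∀ y ∈ Ring.jacobson A,
      Ps x y - Ps y x = mu (x * y) - mu (y * x) := by
  set pr : A →ₗ[k] A := ((Ring.jacobson A).restrictScalars k).projection (idS k e) h.isCompl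
    with hpr
  have pr1 : ∀ u ∈ idS k e, ∀ x ∈ Ring.jacobson A, pr (u + x) = x := by
    intro u hu x hx
    rw [map_add]
    have e1 : pr u = 0 := Submodule.projection_apply_right h.isCompl ⟨u, hu⟩
    have e2 : pr x = x := Submodule.projection_apply_left h.isCompl ⟨x, hx⟩
    rw [e1, e2, zero_add]
  have pr2 : ∀ a : A, ∃ u ∈ idS k e, ∃ x ∈ Ring.jacobson A, a = u + x := by
    intro a
    obtain ⟨c, hc⟩ := h.split a
    exact ⟨∑ s, c s • e s, mem_idS.2 ⟨c, rfl⟩, a - ∑ s, c s • e s, hc, by abel⟩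
  have h2' : ∀ u ∈ idS k e, ∀ x ∈ Ring.jacobson A, ∀ y ∈ Ring.jacobson A,
      Ps (u * x) y = Ps x (y * u) := by
    intro u hu x hx y hy
    obtain ⟨c, rfl⟩ := mem_idS.1 hu
    rw [Finset.sum_mul, Finset.mul_sum, map_sum, map_sum, LinearMap.sum_apply]
    refine Finset.sum_congr rfl fun s _ => ?_
    rw [smul_mul_assoc, mul_smul_comm, map_smul, map_smul, LinearMap.smul_apply, h2 x hx y hy]
  have h3' : ∀ u ∈ idS k e, ∀ x ∈ Ring.jacobson A, ∀ y ∈ Ring.jacobson A,
      Ps (x * u) y = Ps x (u * y) := by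
    intro u hu x hx y hy
    obtain ⟨c, rfl⟩ := mem_idS.1 hu
    rw [Finset.mul_sum, Finset.sum_mul, map_sum, map_sum, LinearMap.sum_apply]
    refine Finset.sum_congr rfl fun s _ => ?_
    rw [smul_mul_assoc, mul_smul_comm, map_smul, map_smul, LinearMap.smul_apply, h3 x hx y hy]
  let f : A →ₗ[k] A →ₗ[k] k := Ps.compl₁₂ pr pr
  have hf : ∀ a b, f a b = Ps (pr a) (pr b) := fun a b => rfl
  let tau : A →ₗ[k] A →ₗ[k] k := f - f.flip
  have htau' : ∀ a b, tau a b = f a b - f b a := fun a b => rfl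
  have hmul : ∀ u ∈ idS k e, ∀ x ∈ Ring.jacobson A, ∀ v ∈ idS k e, ∀ y ∈ Ring.jacobson A,
      pr ((u + x) * (v + y)) = u * y + x * v + x * y := by
    intro u hu x hx v hv y hy
    have : (u + x) * (v + y) = u * v + (u * y + x * v + x * y) := by noncomm_ring
    rw [this]
    apply pr1 _ (idS_mul h hu hv)
    exact Ideal.add_mem _ (Ideal.add_mem _ (mem_mul_left' _ hy) (mem_mul_right' _ hx))
      (mem_mul_left' _ hy)
  have htau : ∀ a b c, tau (a * b) c - tau a (b * c) + tau (c * a) b = 0 := by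
    intro a b c
    obtain ⟨u, hu, x, hx, rfl⟩ := pr2 a
    obtain ⟨v, hv, y, hy, rfl⟩ := pr2 b
    obtain ⟨w, hw, z, hz, rfl⟩ := pr2 c
    simp only [htau', hf]
    rw [hmul u hu x hx v hv y hy, hmul v hv y hy w hw z hz, hmul w hw z hz u hu x hx,
      pr1 u hu x hx, pr1 v hv y hy, pr1 w hw z hz]
    simp only [map_add, LinearMap.add_apply]
    rw [h1 x hx y hy z hz, h1 y hy z hz x hx, h1 z hz x hx y hy,
      h2' u hu y hy z hz, h2' v hv z hz x hx, h2' w hw x hx y hy,
      h3' u hu z hz y hy, h3' v hv x hx z hz, h3' w hw y hy x hx]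
    ring
  obtain ⟨mu, hmu⟩ := hh1 tau h hgl htau
  refine ⟨mu, fun x hx y hy => ?_⟩
  rw [← hmu, htau', hf, hf]
  have e2 : pr x = x := Submodule.projection_apply_left h.isCompl ⟨x, hx⟩
  have e3 : pr y = y := Submodule.projection_apply_left h.isCompl ⟨y, hy⟩
  rw [e2, e3]

variable {e : Fin 2 → A} {i j : Fin 2}

/-- `(r, c ⊗ d) ↦ psi (r c, d)`. -/
def Hm (psi : A →ₗ[k] A →ₗ[k] k) (M N : Submodule k A) : A →ₗ[k] (M ⊗[k] N) →ₗ[k] k :=
  LinearMap.mk₂ k
    (fun r w => (TensorProduct.lift ((psi ∘ₗ LinearMap.mulLeft k r).domRestrict₁₂ M N)) w)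
    (by
      intro r r' w
      induction w with
      | zero => simp
      | add x y hx hy => simp only [map_add, hx, hy]; ring
      | tmul c d =>
        change psi ((r + r') * c) d = psi (r * c) d + psi (r' * c) d
        rw [add_mul, map_add, LinearMap.add_apply])
    (by
      intro t r w
      induction w with
      | zero => simp
      | add x y hx hy => simp only [map_add, hx, hy, smul_add]
      | tmul c d =>
        change psi ((t • r) * c) d = t • psi (r * c) d
        rw [smul_mul_assoc, map_smul, LinearMap.smul_apply])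
    (by
      intro r w w'
      simp only [map_add])
    (by
      intro t r w
      simp only [map_smul])

theorem Hm_tmul (psi : A →ₗ[k] A →ₗ[k] k) (M N : Submodule k A) (r : A) (c : M) (d : N) :
    Hm psi M N r (c ⊗ₜ d) = psi (r * c) d := rfl

theorem exists_section {V W : Type} [AddCommGroup V] [Module k V] [AddCommGroup W] [Module k W]
    (f : V →ₗ[k] W) : ∃ s : W →ₗ[k] V, ∀ w ∈ LinearMap.range f, f (s w) = w := by
  obtain ⟨s0, hs0⟩ := LinearMap.exists_rightInverse_of_surjective f.rangeRestrict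
    (LinearMap.range_rangeRestrict f)
  obtain ⟨s, hs⟩ := LinearMap.exists_extend s0
  refine ⟨s, ?_⟩
  intro w hw
  have h1 : s w = s0 ⟨w, hw⟩ := LinearMap.congr_fun hs ⟨w, hw⟩
  have h2 := LinearMap.congr_fun hs0 ⟨w, hw⟩
  rw [h1]
  exact congrArg Subtype.val h2

theorem fin2_cases : ∀ (i j s : Fin 2), i ≠ j → s = i ∨ s = j := by decide

theorem cor_mul_expand (h : Elem k e) (hij : i ≠ j) (p q x y : A) :
    p * ((x * y) * q) = p * (x * e i) * (e i * (y * q)) + p * (x * e j) * (e j * (y * q)) := by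
  have h1 : p * ((x * y) * q) = p * (x * (e i + e j) * y * q) := by
    rw [h.sum_two hij]
    noncomm_ring
  rw [h1]
  calc p * (x * (e i + e j) * y * q) = p * x * e i * y * q + p * x * e j * y * q := by
        noncomm_ring
    _ = p * x * (e i * e i) * y * q + p * x * (e j * e j) * y * q := by
      rw [h.idem, h.idem]
    _ = _ := by noncomm_ring

/-- The key consequence of the vanishing theorem: elements of the kernel of both
multiplications are balanced relations, in dual form. -/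
theorem psi_zero [Module.Finite k A] (h : Elem k e)
    (hgl : ∃ m : ℕ, ∀ M : ModuleCat.{0} A, CategoryTheory.HasProjectiveDimensionLT M m)
    (hij : i ≠ j) (psi : A →ₗ[k] A →ₗ[k] k)
    (hc : ∀ a b, psi a b = psi (e j * (a * e i)) (e i * (b * e j)))
    (hb : ∀ a b, ∀ l ∈ radc k (e i), psi (a * l) b = psi a (l * b))
    {ι : Type} (S : Finset ι) (m n : ι → A) (hm : ∀ s ∈ S, m s ∈ cor k (e j) (e i))
    (hn : ∀ s ∈ S, n s ∈ cor k (e i) (e j)) (h1 : ∑ s ∈ S, m s * n s = 0)
    (h2 : ∑ s ∈ S, n s * m s = 0) : ∑ s ∈ S, psi (m s) (n s) = 0 := by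
  have hji : j ≠ i := Ne.symm hij
  obtain ⟨si, hsi⟩ := exists_section (k := k)
    (V := cor k (e j) (e i) ⊗[k] cor k (e i) (e j)) (W := A)
    (Submodule.mulMap (cor k (e j) (e i)) (cor k (e i) (e j)))
  rw [Submodule.mulMap_range] at hsi
  set HH := Hm psi (cor k (e j) (e i)) (cor k (e i) (e j)) with hHH
  -- the product of an element of `N` and an element of `M`
  have hNM : ∀ n ∈ cor k (e i) (e j), ∀ c ∈ cor k (e j) (e i), n * c ∈ radc k (e i) :=
    fun n hn c hc => cor_mul_cor_le_radc h hij (Submodule.mul_mem_mul hn hc)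
  have hH2 : ∀ m n : A, n ∈ cor k (e i) (e j) →
      ∀ w, HH (m * n) w = psi m (n * Submodule.mulMap _ _ w) := by
    intro m n hn w
    induction w with
    | zero => simp
    | add x y hx hy => rw [map_add, map_add, mul_add, map_add, hx, hy]
    | tmul c d =>
      rw [hHH, Hm_tmul, Submodule.mulMap_tmul, mul_assoc, hb _ _ _ (hNM n hn c c.2), mul_assoc]
  have hR : radc k (e j) = cor k (e j) (e i) * cor k (e i) (e j) := radc_eq h hgl hji
  have F1 : ∀ r ∈ radc k (e j), ∀ w, Submodule.mulMap _ _ w = 0 → HH r w = 0 := by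
    intro r hr w hw
    rw [hR] at hr
    refine Submodule.mul_induction_on hr (fun a _ b hb' => ?_) (fun a b ha hb' => ?_)
    · rw [hH2 a b hb', hw, mul_zero, map_zero]
    · rw [map_add, LinearMap.add_apply, ha, hb', add_zero]
  have F3 : ∀ r ∈ radc k (e j), ∀ w, HH r (si (Submodule.mulMap _ _ w)) = HH r w := by
    intro r hr w
    rw [← sub_eq_zero, ← map_sub]
    apply F1 r hr
    rw [map_sub, hsi, sub_self]
    rw [← Submodule.mulMap_range]
    exact ⟨w, rfl⟩
  have g3 : ∀ r ∈ radc k (e j), ∀ c ∈ cor k (e j) (e i), ∀ d ∈ cor k (e i) (e j),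
      HH r (si (c * d)) = psi (r * c) d := by
    intro r hr c hc d hd
    have := F3 r hr ((⟨c, hc⟩ : cor k (e j) (e i)) ⊗ₜ (⟨d, hd⟩ : cor k (e i) (e j)))
    rw [Submodule.mulMap_tmul] at this
    rw [this, hHH, Hm_tmul]
  have g2 : ∀ m n : A, n ∈ cor k (e i) (e j) → ∀ r ∈ radc k (e j),
      HH (m * n) (si r) = psi m (n * r) := by
    intro m n hn r hr
    rw [hH2 m n hn, hsi r (by rw [← hR]; exact hr)]
  have hRM : ∀ r ∈ radc k (e j), ∀ c ∈ cor k (e j) (e i), r * c ∈ cor k (e j) (e i) :=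
    fun r hr c hc => cor_mul_cor h _ _ _ (Submodule.mul_mem_mul (radc_le_cor _ hr) hc)
  have g4 : ∀ r ∈ radc k (e j), ∀ r' ∈ radc k (e j), ∀ r'' ∈ radc k (e j),
      HH (r * r') (si r'') = HH r (si (r' * r'')) := by
    intro r hr r' hr' r'' hr''
    rw [hR] at hr''
    have hrr : r * r' ∈ radc k (e j) := by
      rw [mem_radc (h.idem j)] at hr hr' ⊢
      refine ⟨mem_mul_left' _ hr'.1, ?_, ?_⟩
      · rw [← mul_assoc, hr.2.1]
      · rw [mul_assoc, hr'.2.2]
    refine Submodule.mul_induction_on hr'' (fun c hc d hd => ?_) (fun a b ha hb' => ?_)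
    · rw [g3 _ hrr c hc d hd, ← mul_assoc, g3 r hr _ (hRM r' hr' c hc) d hd, mul_assoc]
    · rw [map_add, map_add, ha, hb', mul_add, map_add, map_add]
  let Ps : A →ₗ[k] A →ₗ[k] k :=
    psi + (HH.compl₂ si).compl₁₂ (corMap k (e j) (e j)) (corMap k (e j) (e j))
  have hPs : ∀ x y, Ps x y = psi x y + HH (e j * (x * e j)) (si (e j * (y * e j))) :=
    fun x y => rfl
  have hrad : ∀ p : Fin 2, ∀ x ∈ Ring.jacobson A, e p * (x * e p) ∈ radc k (e p) := by
    intro p x hx
    exact ⟨mem_mul_left' _ (mem_mul_right' _ hx), mem_cor_mk _ _ _⟩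
  have a1 : ∀ x ∈ Ring.jacobson A, ∀ y ∈ Ring.jacobson A, ∀ z ∈ Ring.jacobson A,
      Ps (x * y) z = Ps x (y * z) := by
    intro x hx y hy z hz
    rw [hPs, hPs]
    have t1 : psi (x * y) z = psi x (e i * (y * e i) * (e i * (z * e j))) +
        HH (e j * (x * e j)) (si (e j * (y * e i) * (e i * (z * e j)))) := by
      rw [hc (x * y) z, cor_mul_expand h hij (e j) (e i) x y, map_add, LinearMap.add_apply,
        g3 _ (hrad j x hx) _ (mem_cor_mk _ _ _) _ (mem_cor_mk _ _ _)]
      congr 1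
      rw [hb _ _ _ (hrad i y hy), hc x]
      congr 1
      rw [mul_assoc (e i * (y * e i)), mul_assoc (e i) (z * e j), mul_assoc z, h.idem,
        ← mul_assoc (e i) (e i * (y * e i)), ← mul_assoc (e i) (e i), h.idem]
    have t2 : HH (e j * ((x * y) * e j)) (si (e j * (z * e j))) =
        psi x (e i * (y * e j) * (e j * (z * e j))) +
        HH (e j * (x * e j)) (si (e j * (y * e j) * (e j * (z * e j)))) := by
      rw [cor_mul_expand h hij (e j) (e j) x y, map_add, LinearMap.add_apply,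
        g2 _ _ (mem_cor_mk _ _ _) _ (hrad j z hz),
        g4 _ (hrad j x hx) _ (hrad j y hy) _ (hrad j z hz)]
      congr 1
      rw [hc x]
      congr 1
      rw [mul_assoc (e i * (y * e j)), mul_assoc (e j) (z * e j), mul_assoc z, h.idem,
        ← mul_assoc (e i) (e i * (y * e j)), ← mul_assoc (e i) (e i), h.idem]
    have t3 : psi x (y * z) = psi x (e i * (y * e i) * (e i * (z * e j))) +
        psi x (e i * (y * e j) * (e j * (z * e j))) := by
      rw [hc x (y * z), cor_mul_expand h hij (e i) (e j) y z, map_add, hc x (_ * _),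
        hc x (e i * (y * e j) * _)]
      congr 2
      · rw [mul_assoc (e i * (y * e i)), mul_assoc (e i) (z * e j), mul_assoc z, h.idem,
          ← mul_assoc (e i) (e i * (y * e i)), ← mul_assoc (e i) (e i), h.idem]
      · rw [mul_assoc (e i * (y * e j)), mul_assoc (e j) (z * e j), mul_assoc z, h.idem,
          ← mul_assoc (e i) (e i * (y * e j)), ← mul_assoc (e i) (e i), h.idem]
    have t4 : HH (e j * (x * e j)) (si (e j * ((y * z) * e j))) =
        HH (e j * (x * e j)) (si (e j * (y * e i) * (e i * (z * e j)))) +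
        HH (e j * (x * e j)) (si (e j * (y * e j) * (e j * (z * e j)))) := by
      rw [cor_mul_expand h hij (e j) (e j) y z, map_add, map_add]
    rw [t1, t2, t3, t4]
    ring
  have hs2 : ∀ s : Fin 2, s = i ∨ s = j := fun s => fin2_cases i j s hij
  have hii := h.idem i
  have hjj := h.idem j
  have hio := h.ortho hij
  have hjo := h.ortho hji
  have a2 : ∀ x ∈ Ring.jacobson A, ∀ y ∈ Ring.jacobson A, ∀ s,
      Ps (e s * x) y = Ps x (y * e s) := by
    intro x _ y _ s
    rw [hPs, hPs]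
    rcases hs2 s with rfl | rfl
    · rw [hc (e s * x) y, hc x (y * e s)]
      rw [mul_assoc (e s) x (e s), ← mul_assoc (e j) (e s), hjo, zero_mul, map_zero,
        LinearMap.zero_apply, mul_assoc (e s) x (e j), ← mul_assoc (e j) (e s), hjo, zero_mul,
        map_zero, LinearMap.zero_apply, mul_assoc y (e s) (e j), hio, mul_zero, mul_zero,
        map_zero, mul_zero, map_zero, map_zero]
    · rw [hc (e s * x) y, hc x (y * e s)]
      rw [mul_assoc (e s) x (e i), ← mul_assoc (e s) (e s), hjj, mul_assoc (e s) x (e s),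
        ← mul_assoc (e s) (e s), hjj, mul_assoc y (e s) (e s), hjj]
  have a3 : ∀ x ∈ Ring.jacobson A, ∀ y ∈ Ring.jacobson A, ∀ s,
      Ps (x * e s) y = Ps x (e s * y) := by
    intro x _ y _ s
    rw [hPs, hPs]
    rcases hs2 s with rfl | rfl
    · rw [hc (x * e s) y, hc x (e s * y)]
      rw [mul_assoc x (e s) (e s), hii, mul_assoc x (e s) (e j), hio, mul_zero, mul_zero,
        map_zero, LinearMap.zero_apply, mul_assoc (e s) y (e j), ← mul_assoc (e s) (e s), hii,
        ← mul_assoc (e j) (e s), hjo, zero_mul, map_zero, map_zero]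
    · rw [hc (x * e s) y, hc x (e s * y)]
      rw [mul_assoc x (e s) (e i), hjo, mul_zero, mul_zero, map_zero, LinearMap.zero_apply,
        mul_assoc (e s) y (e s), ← mul_assoc (e i) (e s), hio, zero_mul, map_zero,
        mul_assoc x (e s) (e s), hjj, ← mul_assoc (e s) (e s), hjj]
  obtain ⟨mu, hmu⟩ := cocycle_of_assoc h hgl Ps a1 a2 a3
  have key : ∀ m ∈ cor k (e j) (e i), ∀ n ∈ cor k (e i) (e j),
      psi m n = mu (m * n) - mu (n * m) := by
    intro m hm n hn
    rw [← hmu m (h.cor_mem_jac hji hm) n (h.cor_mem_jac hij hn), hPs, hPs, hc n m]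
    have e1 : m * e j = 0 := by rw [← cor_right hii hm, mul_assoc, hio, mul_zero]
    have e2 : n * e i = 0 := by rw [← cor_right hjj hn, mul_assoc, hjo, mul_zero]
    have e3 : e j * n = 0 := by rw [← cor_left hii hn, ← mul_assoc, hjo, zero_mul]
    rw [e1, e2, ← mul_assoc (e j) n, e3]
    simp
  calc ∑ s ∈ S, psi (m s) (n s) = ∑ s ∈ S, (mu (m s * n s) - mu (n s * m s)) :=
        Finset.sum_congr rfl fun s hs => key _ (hm s hs) _ (hn s hs)
    _ = mu (∑ s ∈ S, m s * n s) - mu (∑ s ∈ S, n s * m s) := by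
      rw [Finset.sum_sub_distrib, map_sum, map_sum]
    _ = 0 := by rw [h1, h2, map_zero, sub_zero]

end

end Pool.Agent.Run7.h155
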