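import Mathlib
import Pool.Agent.Run7.h155.Inj

set_option autoImplicit false

/-!
The consequence of the vanishing of trace forms for two simple modules.
-/

namespace Pool.Agent.Run7.h155

open Module TensorProduct

section

variable {k A : Type} [Field k] [Ring A] [Algebra k A] {e : Fin 2 → A} {i j : Fin 2}

/-- `m ⊗ n ↦ n m`. -/
noncomputable def taM (M N : Submodule k A) : M ⊗[k] N →ₗ[k] A :=
  Submodule.mulMap N M ∘ₗ (TensorProduct.comm k M N).toLinearMap

theorem taM_tmul (M N : Submodule k A) (m : M) (n : N) : taM M N (m ⊗ₜ n) = n.1 * m.1 := rfl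

theorem Elem.comm_diag (h : Elem k e) (p : Fin 2) (a b : A) (ha : a ∈ cor k (e p) (e p))
    (hb : b ∈ cor k (e p) (e p)) :
    ∃ r ∈ radc k (e p), ∃ r' ∈ radc k (e p), a * b - b * a = r * r' - r' * r := by
  have key : ∀ a ∈ cor k (e p) (e p), ∃ c : k, ∃ r ∈ radc k (e p), a = c • e p + r := by
    intro a ha
    have ha' := (mem_cor (h.idem p) (h.idem p)).1 ha
    obtain ⟨c, hc⟩ := h.diag p a
    rw [ha'.1, ha'.2] at hc
    refine ⟨c, a - c • e p, ?_, by abel⟩
    rw [mem_radc (h.idem p)]
    refine ⟨hc, ?_, ?_⟩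
    · rw [mul_sub, ha'.1, mul_smul_comm, h.idem]
    · rw [sub_mul, ha'.2, smul_mul_assoc, h.idem]
  obtain ⟨c, r, hr, rfl⟩ := key a ha
  obtain ⟨d, s, hs, rfl⟩ := key b hb
  refine ⟨r, hr, s, hs, ?_⟩
  have hr' := (mem_radc (h.idem p)).1 hr
  have hs' := (mem_radc (h.idem p)).1 hs
  have e1 : (c • e p + r) * (d • e p + s) = (c * d) • e p + c • s + d • r + r * s := by
    rw [add_mul, mul_add, mul_add, smul_mul_smul_comm, h.idem, smul_mul_assoc, hs'.2.1,
      mul_smul_comm, hr'.2.2]
    abel
  have e2 : (d • e p + s) * (c • e p + r) = (d * c) • e p + d • r + c • s + s * r := by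
    rw [add_mul, mul_add, mul_add, smul_mul_smul_comm, h.idem, smul_mul_assoc, hr'.2.1,
      mul_smul_comm, hs'.2.2]
    abel
  rw [e1, e2, mul_comm d c]
  abel

/-- Elements of the radical of a corner come from the kernel of the other multiplication,
modulo the square of the radical. -/
theorem hh0 [Module.Finite k A] (h : Elem k e)
    (hgl : ∃ m : ℕ, ∀ M : ModuleCat.{0} A, CategoryTheory.HasProjectiveDimensionLT M m)
    (hij : i ≠ j) (z : A) (hz : z ∈ radc k (e i)) :
    ∃ θ : cor k (e j) (e i) ⊗[k] cor k (e i) (e j),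
      Submodule.mulMap _ _ θ = 0 ∧ z - taM _ _ θ ∈ radc k (e i) * radc k (e i) := by
  have hji : j ≠ i := Ne.symm hij
  set M := cor k (e j) (e i) with hM
  set N := cor k (e i) (e j) with hN
  let W : Submodule k (A × A) :=
    LinearMap.range ((taM M N).prod (Submodule.mulMap M N)) ⊔
      (radc k (e i) * radc k (e i)).prod ⊥
  let Th : A →ₗ[k] A × A := (corMap k (e i) (e i)).prod (-(corMap k (e j) (e j)))
  have hR : radc k (e j) = M * N := radc_eq h hgl hji
  have hcomm : ∀ r ∈ radc k (e j), ∀ r' ∈ radc k (e j), ((0, r * r' - r' * r) : A × A) ∈ W := by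
    intro r hr r' hr'
    rw [hR] at hr
    refine Submodule.mul_induction_on hr (fun m hm n hn => ?_) (fun a b ha hb => ?_)
    · apply Submodule.mem_sup_left
      have h1 : n * r' ∈ N := cor_mul_cor h _ _ _ (Submodule.mul_mem_mul hn (radc_le_cor _ hr'))
      have h2 : r' * m ∈ M := cor_mul_cor h _ _ _ (Submodule.mul_mem_mul (radc_le_cor _ hr') hm)
      refine ⟨(⟨m, hm⟩ : M) ⊗ₜ (⟨n * r', h1⟩ : N) - (⟨r' * m, h2⟩ : M) ⊗ₜ (⟨n, hn⟩ : N), ?_⟩
      refine Prod.ext ?_ ?_
      · change taM M N (_ - _) = 0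
        rw [map_sub, taM_tmul, taM_tmul]
        change n * r' * m - n * (r' * m) = 0
        rw [mul_assoc, sub_self]
      · change Submodule.mulMap M N (_ - _) = m * n * r' - r' * (m * n)
        rw [map_sub, Submodule.mulMap_tmul, Submodule.mulMap_tmul]
        change m * (n * r') - r' * m * n = m * n * r' - r' * (m * n)
        rw [mul_assoc, mul_assoc]
    · have : ((0, (a + b) * r' - r' * (a + b)) : A × A) =
          (0, a * r' - r' * a) + (0, b * r' - r' * b) := by
        refine Prod.ext ?_ ?_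
        · simp
        · simp only [Prod.snd_add]
          noncomm_ring
      rw [this]
      exact Submodule.add_mem _ ha hb
  have hW : ∀ a b : A, Th (a * b - b * a) ∈ W := by
    intro a b
    obtain ⟨r, hr, r', hr', h1⟩ := h.comm_diag i (e i * (a * e i)) (e i * (b * e i))
      (mem_cor_mk _ _ _) (mem_cor_mk _ _ _)
    obtain ⟨s, hs, s', hs', h2⟩ := h.comm_diag j (e j * (a * e j)) (e j * (b * e j))
      (mem_cor_mk _ _ _) (mem_cor_mk _ _ _)
    have e0 : Th (a * b - b * a) =
        (taM M N).prod (Submodule.mulMap M N)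
          ((⟨e j * (b * e i), mem_cor_mk _ _ _⟩ : M) ⊗ₜ (⟨e i * (a * e j), mem_cor_mk _ _ _⟩ : N) -
          (⟨e j * (a * e i), mem_cor_mk _ _ _⟩ : M) ⊗ₜ (⟨e i * (b * e j), mem_cor_mk _ _ _⟩ : N))
        + (r * r' - r' * r, 0) + (-(0, s * s' - s' * s)) := by
      refine Prod.ext ?_ ?_
      · change corMap k (e i) (e i) (a * b - b * a) =
          taM M N (_ - _) + (r * r' - r' * r) + (-0)
        rw [map_sub, map_sub, taM_tmul, taM_tmul, corMap_apply, corMap_apply,
          cor_mul_expand h hij (e i) (e i) a b, cor_mul_expand h hij (e i) (e i) b a, ← h1]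
        abel
      · change -(corMap k (e j) (e j) (a * b - b * a)) =
          Submodule.mulMap M N (_ - _) + 0 + -(s * s' - s' * s)
        rw [map_sub, map_sub, Submodule.mulMap_tmul, Submodule.mulMap_tmul, corMap_apply,
          corMap_apply, cor_mul_expand h hij (e j) (e j) a b,
          cor_mul_expand h hij (e j) (e j) b a, ← h2]
        abel
    rw [e0]
    refine Submodule.add_mem _ (Submodule.add_mem _ ?_ ?_) ?_
    · exact Submodule.mem_sup_left ⟨_, rfl⟩
    · apply Submodule.mem_sup_right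
      refine ⟨?_, ?_⟩
      · exact Submodule.sub_mem _ (Submodule.mul_mem_mul hr hr') (Submodule.mul_mem_mul hr' hr)
      · simp
    · exact Submodule.neg_mem _ (hcomm s hs s' hs')
  have hzJ : z ∈ Ring.jacobson A := hz.1
  have hz1 := mem_commutators (k := k) hgl z (isNilpotent_of_mem (k := k) hzJ)
  have hz2 : Th z ∈ W := by
    have : Submodule.span k {z : A | ∃ a b : A, z = a * b - b * a} ≤ W.comap Th := by
      rw [Submodule.span_le]
      rintro _ ⟨a, b, rfl⟩
      exact hW a b
    exact this hz1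
  obtain ⟨w, ⟨θ, rfl⟩, q, hq, hsum⟩ := Submodule.mem_sup.1 hz2
  have hzi := (mem_radc (h.idem i)).1 hz
  have e1 : e i * (z * e i) = z := by rw [hzi.2.2, hzi.2.1]
  have e2 : e j * (z * e j) = 0 := by
    rw [← hzi.2.1, mul_assoc, ← mul_assoc (e j), h.ortho hji, zero_mul]
  have e3 : Th z = (z, 0) := by
    change (e i * (z * e i), -(e j * (z * e j))) = (z, 0)
    rw [e1, e2, neg_zero]
  rw [e3] at hsum
  have h3 := congrArg Prod.fst hsum
  have h4 := congrArg Prod.snd hsum
  have hq2 : q.2 = 0 := hq.2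
  refine ⟨θ, ?_, ?_⟩
  · have : Submodule.mulMap M N θ + q.2 = 0 := h4
    rwa [hq2, add_zero] at this
  · have h5 : taM M N θ + q.1 = z := h3
    have h6 : z - taM M N θ = q.1 := by rw [← h5]; abel
    rw [h6]
    exact hq.1

end

end Pool.Agent.Run7.h155
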