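import Mathlib
import Pool.Agent.Run7.h155.Ele

set_option autoImplicit false

/-!
Dimension vectors, minimal systems of generators and projective covers over elementary
algebras.
-/

namespace Pool.Agent.Run7.h155

open Module

section

variable {k A : Type} [Field k] [Ring A] [Algebra k A]

/-- The subspace of a module fixed by an element of the algebra. -/
def eSub (k : Type) {A : Type} [Field k] [Ring A] [Algebra k A] (f : A) (M : Type)
    [AddCommGroup M] [Module A M] [Module k M] [IsScalarTower k A M] : Submodule k M where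
  carrier := {m | f • m = m}
  add_mem' := by
    intro a b ha hb
    simp only [Set.mem_ofPred_eq] at *
    rw [smul_add, ha, hb]
  zero_mem' := by simp
  smul_mem' := by
    intro c x hx
    simp only [Set.mem_ofPred_eq] at *
    rw [← algebraMap_smul A c x, ← mul_smul, ← Algebra.commutes, mul_smul, hx]

theorem mem_eSub {f : A} {M : Type} [AddCommGroup M] [Module A M] [Module k M]
    [IsScalarTower k A M] {m : M} : m ∈ eSub k f M ↔ f • m = m := Iff.rfl

/-- The dimension vector of a module. -/
noncomputable def dv (k : Type) {A : Type} [Field k] [Ring A] [Algebra k A] {n : ℕ}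
    (e : Fin n → A) (M : Type)
    [AddCommGroup M] [Module A M] [Module k M] [IsScalarTower k A M] (i : Fin n) : ℤ :=
  Module.finrank k (eSub k (e i) M)

/-- Additivity of dimension vectors. -/
theorem dv_exact {n : ℕ} {e : Fin n → A} (h : Elem k e) {X Y Z : Type}
    [AddCommGroup X] [Module A X] [Module k X] [IsScalarTower k A X]
    [AddCommGroup Y] [Module A Y] [Module k Y] [IsScalarTower k A Y]
    [AddCommGroup Z] [Module A Z] [Module k Z] [IsScalarTower k A Z]
    [Module.Finite k Y]
    (u : X →ₗ[A] Y) (p : Y →ₗ[A] Z) (hu : Function.Injective u) (hp : Function.Surjective p)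
    (hex : Function.Exact u p) (i : Fin n) :
    dv k e Y i = dv k e X i + dv k e Z i := by
  have h1 : ∀ x ∈ eSub k (e i) X, u x ∈ eSub k (e i) Y := by
    intro x hx
    rw [mem_eSub] at *
    rw [← map_smul, hx]
  have h2 : ∀ x ∈ eSub k (e i) Y, p x ∈ eSub k (e i) Z := by
    intro x hx
    rw [mem_eSub] at *
    rw [← map_smul, hx]
  let u' : eSub k (e i) X →ₗ[k] eSub k (e i) Y := (u.restrictScalars k).restrict h1
  let p' : eSub k (e i) Y →ₗ[k] eSub k (e i) Z := (p.restrictScalars k).restrict h2
  have hu' : Function.Injective u' := by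
    intro x y hxy
    apply Subtype.ext
    apply hu
    exact congrArg Subtype.val hxy
  have hp' : Function.Surjective p' := by
    rintro ⟨z, hz⟩
    obtain ⟨y, rfl⟩ := hp z
    rw [mem_eSub] at hz
    refine ⟨⟨e i • y, ?_⟩, ?_⟩
    · rw [mem_eSub, ← mul_smul, h.idem]
    · apply Subtype.ext
      change p (e i • y) = p y
      rw [map_smul, hz]
  have hker : LinearMap.ker p' = LinearMap.range u' := by
    ext ⟨y, hy⟩
    constructor
    · intro hy0
      have : p y = 0 := congrArg Subtype.val (LinearMap.mem_ker.1 hy0)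
      obtain ⟨x, hx⟩ := (hex _).1 this
      refine ⟨⟨e i • x, ?_⟩, ?_⟩
      · rw [mem_eSub, ← mul_smul, h.idem]
      · apply Subtype.ext
        change u (e i • x) = y
        rw [map_smul, hx]
        exact hy
    · rintro ⟨x, hx⟩
      rw [LinearMap.mem_ker]
      apply Subtype.ext
      change p y = 0
      have : u x.1 = y := congrArg Subtype.val hx
      rw [← this]
      exact (hex _).2 ⟨x.1, rfl⟩
  have h3 := LinearMap.finrank_range_add_finrank_ker p'
  rw [hker, LinearMap.range_eq_top.2 hp', finrank_top, LinearMap.finrank_range_of_inj hu'] at h3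
  unfold dv
  rw [← h3]
  push_cast
  ring

theorem dv_congr {n : ℕ} {e : Fin n → A} {X Y : Type}
    [AddCommGroup X] [Module A X] [Module k X] [IsScalarTower k A X]
    [AddCommGroup Y] [Module A Y] [Module k Y] [IsScalarTower k A Y]
    (u : X ≃ₗ[A] Y) (i : Fin n) : dv k e X i = dv k e Y i := by
  unfold dv
  congr 1
  refine LinearEquiv.finrank_eq ?_
  refine LinearEquiv.ofSubmodules (u.restrictScalars k) _ _ ?_
  ext y
  simp only [Submodule.mem_map, mem_eSub]
  constructor
  · rintro ⟨x, hx, rfl⟩
    change e i • u x = u x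
    rw [← map_smul, hx]
  · intro hy
    refine ⟨u.symm y, ?_, ?_⟩
    · rw [← map_smul, hy]
    · exact u.apply_symm_apply y

theorem dv_pi {n : ℕ} {e : Fin n → A} {r : ℕ} (M : Fin r → Type)
    [∀ l, AddCommGroup (M l)] [∀ l, Module A (M l)] [∀ l, Module k (M l)]
    [∀ l, IsScalarTower k A (M l)] [∀ l, Module.Finite k (M l)] (i : Fin n) :
    dv k e (∀ l, M l) i = ∑ l, dv k e (M l) i := by
  unfold dv
  have E : eSub k (e i) (∀ l, M l) ≃ₗ[k] (∀ l, eSub k (e i) (M l)) :=
    { toFun := fun x l => ⟨x.1 l, by
        have := x.2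
        rw [mem_eSub] at *
        exact congrFun this l⟩
      invFun := fun y => ⟨fun l => (y l).1, by
        rw [mem_eSub]
        funext l
        exact (y l).2⟩
      map_add' := fun x y => rfl
      map_smul' := fun c x => rfl
      left_inv := fun x => rfl
      right_inv := fun x => rfl }
  rw [E.finrank_eq, Module.finrank_pi_fintype]
  push_cast
  rfl

/-- The left ideal `A f = {x | x * f = x}` for an idempotent `f`. -/
def Pe (f : A) : Submodule A A where
  carrier := {x | x * f = x}
  add_mem' := by
    intro a b ha hb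
    simp only [Set.mem_ofPred_eq] at *
    rw [add_mul, ha, hb]
  zero_mem' := by simp
  smul_mem' := by
    intro c x hx
    simp only [Set.mem_ofPred_eq] at *
    rw [smul_eq_mul, mul_assoc, hx]

theorem mem_Pe {f x : A} : x ∈ Pe f ↔ x * f = x := Iff.rfl

theorem projective_Pe (f : A) (hf : f * f = f) : Module.Projective A (Pe f) := by
  refine Module.Projective.of_split (Pe f).subtype
    (LinearMap.codRestrict (Pe f) (LinearMap.toSpanSingleton A A f) ?_) ?_
  · intro c
    rw [mem_Pe, LinearMap.toSpanSingleton_apply, smul_eq_mul, mul_assoc, hf]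
  · refine LinearMap.ext fun x => ?_
    apply Subtype.ext
    change (x : A) • f = x
    exact x.2

/-- The Cartan matrix. -/
noncomputable def cart (k : Type) {A : Type} [Field k] [Ring A] [Algebra k A] {n : ℕ}
    (e : Fin n → A) : Matrix (Fin n) (Fin n) ℤ :=
  Matrix.of fun i j => (Module.finrank k (LinearMap.range
    ((LinearMap.mulLeft k (e i)).comp (LinearMap.mulRight k (e j)))) : ℤ)

theorem dv_Pe {n : ℕ} {e : Fin n → A} (h : Elem k e) (i j : Fin n) :
    dv k e (Pe (e j)) i = cart k e i j := by
  unfold dv cart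
  rw [Matrix.of_apply]
  congr 1
  refine LinearEquiv.finrank_eq ?_
  exact
    { toFun := fun x => ⟨x.1.1, ⟨x.1.1, by
        change e i * (x.1.1 * e j) = x.1.1
        rw [x.1.2]
        exact congrArg Subtype.val x.2⟩⟩
      invFun := fun y => ⟨⟨y.1, by
        obtain ⟨y, z, rfl⟩ := y
        rw [mem_Pe]
        change (e i * (z * e j)) * e j = e i * (z * e j)
        rw [mul_assoc, mul_assoc, h.idem]⟩, by
        obtain ⟨y, z, rfl⟩ := y
        rw [mem_eSub]
        apply Subtype.ext
        change e i * (e i * (z * e j)) = e i * (z * e j)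
        rw [← mul_assoc, h.idem]⟩
      map_add' := fun x y => rfl
      map_smul' := fun c x => rfl
      left_inv := fun x => rfl
      right_inv := fun x => rfl }

/-- The number of occurrences of `j` in `v`. -/
def cnt {n r : ℕ} (v : Fin r → Fin n) (j : Fin n) : ℤ := ∑ l, if v l = j then 1 else 0

theorem dv_PeV [Module.Finite k A] {n r : ℕ} {e : Fin n → A} (h : Elem k e)
    (v : Fin r → Fin n) (i : Fin n) :
    dv k e (∀ l, Pe (e (v l))) i = ∑ j, cart k e i j * cnt v j := by
  have : ∀ l, Module.Finite k (Pe (e (v l))) := fun l => finite_submodule _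
  rw [dv_pi]
  simp only [dv_Pe h, cnt, Finset.mul_sum]
  rw [Finset.sum_comm]
  refine Finset.sum_congr rfl fun l _ => ?_
  simp

/-- The map `⊕ A e (v l) → M` given by elements `m l`. -/
noncomputable def covMap {n r : ℕ} (e : Fin n → A) (v : Fin r → Fin n) {M : Type}
    [AddCommGroup M] [Module A M] (m : Fin r → M) : (∀ l, Pe (e (v l))) →ₗ[A] M :=
  ∑ l, (LinearMap.toSpanSingleton A M (m l)) ∘ₗ (Submodule.subtype _) ∘ₗ (LinearMap.proj l)

theorem covMap_apply {n r : ℕ} (e : Fin n → A) (v : Fin r → Fin n) {M : Type}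
    [AddCommGroup M] [Module A M] (m : Fin r → M) (x : ∀ l, Pe (e (v l))) :
    covMap e v m x = ∑ l, (x l : A) • m l := by
  unfold covMap
  rw [LinearMap.sum_apply]
  rfl

/-- A minimal system of homogeneous generators. -/
structure Cov {A : Type} [Ring A] {n : ℕ} (e : Fin n → A) (M : Type) [AddCommGroup M]
    [Module A M] where
  r : ℕ
  v : Fin r → Fin n
  m : Fin r → M
  fix : ∀ l, e (v l) • m l = m l
  gen : ∀ y : M, ∃ x : Fin r → A, ∑ l, x l • m l = y
  min : ∀ x : Fin r → A, (∀ l, x l * e (v l) = x l) → ∑ l, x l • m l = 0 →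
    ∀ l, x l ∈ Ring.jacobson A

theorem exists_cov [Module.Finite k A] {n : ℕ} {e : Fin n → A} (h : Elem k e) (M : Type)
    [AddCommGroup M] [Module A M] [Module k M] [IsScalarTower k A M] [Module.Finite k M] :
    Nonempty (Cov e M) := by
  classical
  let Q : ℕ → Prop := fun r => ∃ (v : Fin r → Fin n) (m : Fin r → M),
    (∀ l, e (v l) • m l = m l) ∧ ∀ y : M, ∃ x : Fin r → A, ∑ l, x l • m l = y
  have hQ : ∃ r, Q r := by
    let b := Module.finBasis k M
    let E := (finProdFinEquiv (m := Module.finrank k M) (n := n))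
    refine ⟨Module.finrank k M * n, fun l => (E.symm l).2,
      fun l => e (E.symm l).2 • b (E.symm l).1, ?_, ?_⟩
    · intro l
      rw [← mul_smul, h.idem]
    · intro y
      refine ⟨fun l => algebraMap k A (b.repr y (E.symm l).1), ?_⟩
      rw [← Equiv.sum_comp E]
      simp only [Equiv.symm_apply_apply]
      rw [Fintype.sum_prod_type]
      simp only
      have : ∀ x, ∑ y_1, (algebraMap k A) ((b.repr y) x) • e y_1 • b x
          = (b.repr y x) • b x := by
        intro x
        rw [← Finset.smul_sum, ← Finset.sum_smul, h.sum, one_smul, algebraMap_smul]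
      simp only [this]
      exact b.sum_repr y
  obtain ⟨v, m, hfix, hgen⟩ := Nat.find_spec hQ
  refine ⟨⟨Nat.find hQ, v, m, hfix, hgen, ?_⟩⟩
  intro x hx h0
  by_contra hne
  push Not at hne
  obtain ⟨l0, hl0⟩ := hne
  obtain ⟨w, hw⟩ := h.exists_inv (v l0) (x l0) (hx l0) hl0
  generalize hrr : Nat.find hQ = rr at *
  rcases rr with _ | r
  · exact Fin.elim0 l0
  · have hlt : r < Nat.find hQ := by omega
    apply Nat.find_min hQ hlt
    refine ⟨fun l => v (l0.succAbove l), fun l => m (l0.succAbove l),
      fun l => hfix _, ?_⟩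
    intro y
    obtain ⟨c, hc⟩ := hgen y
    rw [Fin.sum_univ_succAbove _ l0] at hc h0
    have hm : m l0 = - ∑ l, (w * x (l0.succAbove l)) • m (l0.succAbove l) := by
      have : w • (x l0 • m l0 + ∑ l, x (l0.succAbove l) • m (l0.succAbove l)) = 0 := by
        rw [h0, smul_zero]
      rw [smul_add, ← mul_smul, hw, hfix, Finset.smul_sum] at this
      rw [eq_neg_of_add_eq_zero_left this]
      simp only [mul_smul]
    refine ⟨fun l => c (l0.succAbove l) - c l0 * (w * x (l0.succAbove l)), ?_⟩
    rw [← hc]
    conv_rhs => rw [hm, smul_neg, Finset.smul_sum]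
    simp only [sub_smul, mul_smul, Finset.sum_sub_distrib]
    abel

theorem Cov.surjective {n : ℕ} {e : Fin n → A} (h : Elem k e) {M : Type}
    [AddCommGroup M] [Module A M] (c : Cov e M) : Function.Surjective (covMap e c.v c.m) := by
  intro y
  obtain ⟨x, hx⟩ := c.gen y
  refine ⟨fun l => ⟨x l * e (c.v l), ?_⟩, ?_⟩
  · rw [mem_Pe, mul_assoc, h.idem]
  · rw [covMap_apply]
    simp only [mul_smul, c.fix]
    exact hx

theorem Cov.ker_mem {n : ℕ} {e : Fin n → A} {M : Type}
    [AddCommGroup M] [Module A M] (c : Cov e M) (x : ∀ l, Pe (e (c.v l)))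
    (hx : covMap e c.v c.m x = 0) (l : Fin c.r) : (x l : A) ∈ Ring.jacobson A := by
  rw [covMap_apply] at hx
  exact c.min (fun l => (x l : A)) (fun l => (x l).2) hx l

/-- The minimal cover of a projective module is an isomorphism. -/
theorem Cov.injective [Module.Finite k A] {n : ℕ} {e : Fin n → A} (h : Elem k e) {M : Type}
    [AddCommGroup M] [Module A M] (c : Cov e M) [Module.Projective A M] :
    Function.Injective (covMap e c.v c.m) := by
  obtain ⟨s, hs⟩ := Module.projective_lifting_property (covMap e c.v c.m) LinearMap.id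
    (c.surjective h)
  have hs' : ∀ y, covMap e c.v c.m (s y) = y := fun y => LinearMap.congr_fun hs y
  obtain ⟨N, hN⟩ := exists_pow_jacobson (k := k) (A := A)
  let eps : ∀ l0 : Fin c.r, (∀ l, Pe (e (c.v l))) := fun l0 =>
    Pi.single l0 ⟨e (c.v l0), h.idem _⟩
  let kap : (∀ l, Pe (e (c.v l))) →ₗ[A] (∀ l, Pe (e (c.v l))) :=
    LinearMap.id - s ∘ₗ covMap e c.v c.m
  have hkap : ∀ x, covMap e c.v c.m (kap x) = 0 := by
    intro x
    simp only [kap, LinearMap.sub_apply, LinearMap.id_apply, LinearMap.comp_apply, map_sub, hs',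
      sub_self]
  have hdec : ∀ x : (∀ l, Pe (e (c.v l))), x = ∑ l, (x l : A) • eps l := by
    intro x
    funext l
    rw [Finset.sum_apply, Finset.sum_eq_single l]
    · apply Subtype.ext
      simp only [eps, Pi.smul_apply, Pi.single_eq_same]
      exact (x l).2.symm
    · intro b _ hb
      simp only [eps, Pi.smul_apply]
      rw [Pi.single_eq_of_ne hb.symm, smul_zero]
    · intro hl
      exact absurd (Finset.mem_univ l) hl
  have key : ∀ j : ℕ, j ≤ N → ∀ a ∈ (Ring.jacobson A) ^ (N - j),
      ∀ x : (∀ l, Pe (e (c.v l))), covMap e c.v c.m x = 0 → a • x = 0 := by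
    intro j
    induction j with
    | zero =>
      intro _ a ha x _
      rw [Nat.sub_zero, hN] at ha
      rw [(Submodule.mem_bot A).1 ha, zero_smul]
    | succ j ih =>
      intro hj a ha x hx
      have hxk : x = kap x := by
        simp only [kap, LinearMap.sub_apply, LinearMap.id_apply, LinearMap.comp_apply, hx,
          map_zero, sub_zero]
      rw [hxk, hdec x, map_sum, Finset.smul_sum]
      apply Finset.sum_eq_zero
      intro l _
      rw [map_smul, ← mul_smul]
      apply ih (by omega) _ _ _ (hkap _)
      have : N - j = (N - (j + 1)) + 1 := by omega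
      rw [this, Submodule.pow_succ]
      exact Submodule.mul_mem_mul ha (c.ker_mem x hx l)
  rw [← LinearMap.ker_eq_bot, LinearMap.ker_eq_bot']
  intro x hx
  have := key N le_rfl 1 (by
    rw [Nat.sub_self, Submodule.pow_zero]
    exact Submodule.one_le.1 le_rfl) x hx
  rwa [one_smul] at this

end

end Pool.Agent.Run7.h155
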