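import Mathlib
import Pool.Agent.Run7.h155.Cover

set_option autoImplicit false

/-!
Projective dimension and dimension vectors.
-/

namespace Pool.Agent.Run7.h155

open Module CategoryTheory

section

variable {k A : Type} [Field k] [Ring A] [Algebra k A]

/-- Dimension shifting. -/
theorem pd_ker {P M : Type} [AddCommGroup P] [Module A P] [Module.Projective A P]
    [AddCommGroup M] [Module A M] (p : P →ₗ[A] M) (hp : Function.Surjective p) (m : ℕ)
    (h : HasProjectiveDimensionLT (ModuleCat.of A M) (m + 2)) :
    HasProjectiveDimensionLT (ModuleCat.of A (LinearMap.ker p)) (m + 1) := by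
  let S : ShortComplex (ModuleCat.{0} A) :=
    ShortComplex.mk (ModuleCat.ofHom (Submodule.subtype (LinearMap.ker p))) (ModuleCat.ofHom p)
      (by
        ext x
        exact x.2)
  have hS : S.ShortExact := by
    refine ModuleCat.shortComplex_shortExact S ?_ (Submodule.subtype_injective _) hp
    exact LinearMap.exact_subtype_ker_map p
  have hF : HasProjectiveDimensionLT S.X₂ (m + 1) := by
    have : Projective S.X₂ := by
      rw [← IsProjective.iff_projective]
      exact inferInstanceAs (Module.Projective A P)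
    exact hasProjectiveDimensionLT_of_ge S.X₂ 1 (m + 1) (by omega)
  exact hS.hasProjectiveDimensionLT_X₁ (m + 1) hF h

theorem proj_of_pd {M : Type} [AddCommGroup M] [Module A M]
    (h : HasProjectiveDimensionLT (ModuleCat.of A M) 1) : Module.Projective A M := by
  rw [← projective_iff_hasProjectiveDimensionLT_one, ← IsProjective.iff_projective] at h
  exact h

variable [Module.Finite k A] {n : ℕ} {e : Fin n → A}

omit [Module.Finite k A] in
theorem projPeV (h : Elem k e) {r : ℕ} (v : Fin r → Fin n) :
    Module.Projective A (∀ l, Pe (e (v l))) := by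
  have : ∀ l, Module.Projective A (Pe (e (v l))) := fun l => projective_Pe _ (h.idem _)
  exact Module.Projective.of_equiv
    (DirectSum.linearEquivFunOnFintype A (Fin r) (fun l => Pe (e (v l))))

theorem finPe (f : A) : Module.Finite k (Pe f) := finite_submodule _

theorem finPeV {r : ℕ} (v : Fin r → Fin n) : Module.Finite k (∀ l, Pe (e (v l))) := by
  have : ∀ l, Module.Finite k (Pe (e (v l))) := fun l => finite_submodule _
  infer_instance

theorem dv_proj (h : Elem k e) {M : Type} [AddCommGroup M] [Module A M] [Module k M]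
    [IsScalarTower k A M] (c : Cov e M) [Module.Projective A M] (i : Fin n) :
    dv k e M i = ∑ j, cart k e i j * cnt c.v j := by
  rw [← dv_PeV h, ← dv_congr (LinearEquiv.ofBijective (covMap e c.v c.m)
    ⟨c.injective (k := k) h, c.surjective h⟩)]

theorem dv_ker (h : Elem k e) {M : Type} [AddCommGroup M] [Module A M] [Module k M]
    [IsScalarTower k A M] (c : Cov e M) (i : Fin n) :
    dv k e M i = ∑ j, cart k e i j * cnt c.v j
      - dv k e (LinearMap.ker (covMap e c.v c.m)) i := by
  have := finPeV (k := k) (e := e) c.v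
  have h1 := dv_exact h (Submodule.subtype (LinearMap.ker (covMap e c.v c.m)))
    (covMap e c.v c.m) (Submodule.subtype_injective _) (c.surjective h)
    (LinearMap.exact_subtype_ker_map _) i
  rw [← dv_PeV h, h1]
  ring

/-- Modules of finite projective dimension have dimension vector in the image of the Cartan
matrix. -/
theorem exists_alpha (h : Elem k e) (m : ℕ) : ∀ (M : Type) [AddCommGroup M] [Module A M]
    [Module k M] [IsScalarTower k A M] [Module.Finite k M],
    HasProjectiveDimensionLT (ModuleCat.of A M) (m + 1) →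
    ∃ al : Fin n → ℤ, ∀ i, dv k e M i = ∑ j, cart k e i j * al j := by
  induction m with
  | zero =>
    intro M _ _ _ _ _ hM
    have := proj_of_pd hM
    obtain ⟨c⟩ := exists_cov h M
    exact ⟨cnt c.v, fun i => dv_proj h c i⟩
  | succ m ih =>
    intro M _ _ _ _ _ hM
    obtain ⟨c⟩ := exists_cov h M
    have h1 := finPeV (k := k) (e := e) c.v
    have h2 := projPeV h c.v
    have h3 : Module.Finite k (LinearMap.ker (covMap e c.v c.m)) := finite_submodule _
    obtain ⟨al, hal⟩ := ih (LinearMap.ker (covMap e c.v c.m))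
      (pd_ker (covMap e c.v c.m) (c.surjective h) m hM)
    refine ⟨fun j => cnt c.v j - al j, fun i => ?_⟩
    rw [dv_ker h c i, hal i]
    simp only [mul_sub, Finset.sum_sub_distrib]

/-- The radical of `A e i`. -/
def Ke (f : A) : Submodule A (Pe f) := Submodule.comap (Pe f).subtype (Ring.jacobson A)

theorem dv_top (h : Elem k e) (i₀ i : Fin n) (Z : Type) [AddCommGroup Z] [Module A Z]
    [Module k Z] [IsScalarTower k A Z] (p : Pe (e i₀) →ₗ[A] Z) (hp : Function.Surjective p)
    (hker : ∀ x, p x = 0 ↔ x ∈ Ke (e i₀)) : dv k e Z i = (if i = i₀ then 1 else 0) := by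
  have hpk : ∀ (c : k) x, p (c • x) = c • p x := fun c x => map_smul (p.restrictScalars k) c x
  unfold dv
  split_ifs with hi
  · subst hi
    norm_cast
    let ei : Pe (e i) := ⟨e i, h.idem i⟩
    have hei : e i • p ei = p ei := by
      rw [← map_smul]
      congr 1
      apply Subtype.ext
      exact h.idem i
    refine (finrank_eq_one_iff' (K := k)
      (V := eSub k (e i) Z)).2 ⟨⟨p ei, hei⟩, ?_, ?_⟩
    · intro h3
      have h4 : p ei = 0 := congrArg Subtype.val h3
      rw [hker] at h4
      exact h.notMem (k := k) i h4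
    · rintro ⟨w, hw⟩
      obtain ⟨x, rfl⟩ := hp w
      obtain ⟨c, hc⟩ := h.right i x.1 x.2
      refine ⟨c, ?_⟩
      apply Subtype.ext
      change c • p ei = p x
      rw [← hpk, ← sub_eq_zero, ← map_sub, hker]
      change c • e i - x.1 ∈ Ring.jacobson A
      rw [← neg_sub]
      exact neg_mem hc
  · norm_cast
    have hsub : Subsingleton (eSub k (e i) Z) := by
      have key : ∀ w : eSub k (e i) Z, w = 0 := by
        rintro ⟨w, hw⟩
        apply Subtype.ext
        change w = 0
        rw [← hw]
        obtain ⟨x, rfl⟩ := hp w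
        rw [← map_smul, hker]
        change e i * x.1 ∈ Ring.jacobson A
        have := h.mixed hi x.1
        rwa [mul_assoc, x.2] at this
      exact ⟨fun a b => by rw [key a, key b]⟩
    exact Module.finrank_zero_of_subsingleton

theorem dv_Ke (h : Elem k e) (i₀ i : Fin n) :
    dv k e (Ke (e i₀)) i = cart k e i i₀ - (if i = i₀ then 1 else 0) := by
  have h0 : Module.Finite k (Pe (e i₀)) := finite_submodule _
  have h1 := dv_exact (Z := Pe (e i₀) ⧸ Ke (e i₀)) h (Submodule.subtype (Ke (e i₀)))
    (Submodule.mkQ (Ke (e i₀)))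
    (Submodule.subtype_injective _) (Submodule.mkQ_surjective _)
    (LinearMap.exact_subtype_mkQ _) i
  rw [dv_Pe h, dv_top h i₀ i (Pe (e i₀) ⧸ Ke (e i₀)) (Submodule.mkQ (Ke (e i₀)))
    (Submodule.mkQ_surjective _) (fun x => Submodule.Quotient.mk_eq_zero _)] at h1
  linarith

/-- Syzygies of the simple module. -/
theorem ker_simple (h : Elem k e) (i₀ : Fin n) (S : Type) [AddCommGroup S] [Module A S]
    [IsSimpleModule A S] (hS : ∃ s : S, e i₀ • s ≠ 0) (m : ℕ)
    (hpd : HasProjectiveDimensionLT (ModuleCat.of A S) (m + 2)) :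
    HasProjectiveDimensionLT (ModuleCat.of A (Ke (e i₀))) (m + 1) := by
  obtain ⟨s, hs⟩ := hS
  let p : Pe (e i₀) →ₗ[A] S :=
    (LinearMap.toSpanSingleton A S (e i₀ • s)) ∘ₗ (Pe (e i₀)).subtype
  have hp : Function.Surjective p := by
    rw [← LinearMap.range_eq_top]
    refine (eq_bot_or_eq_top (LinearMap.range p)).resolve_left ?_
    intro hbot
    apply hs
    have : p ⟨e i₀, h.idem i₀⟩ = 0 := by
      rw [← Submodule.mem_bot A, ← hbot]
      exact ⟨_, rfl⟩
    have h2 : e i₀ • (e i₀ • s) = 0 := this
    rwa [← mul_smul, h.idem] at h2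
  have hker : LinearMap.ker p = Ke (e i₀) := by
    ext x
    rw [LinearMap.mem_ker]
    change x.1 • (e i₀ • s) = 0 ↔ x.1 ∈ Ring.jacobson A
    constructor
    · intro hx
      by_contra hne
      obtain ⟨w, hw⟩ := h.exists_inv i₀ x.1 x.2 hne
      apply hs
      have : w • (x.1 • (e i₀ • s)) = 0 := by rw [hx, smul_zero]
      rwa [← mul_smul, hw, ← mul_smul, h.idem] at this
    · intro hx
      exact Module.mem_annihilator.1 (IsSemisimpleModule.jacobson_le_annihilator A S hx) _
  have := projective_Pe (e i₀) (h.idem i₀)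
  rw [← hker]
  exact pd_ker p hp m hpd

end

end Pool.Agent.Run7.h155
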