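import Mathlib
import Pool.Agent.Run7.h155.Res

set_option autoImplicit false

/-!
The diagonal entry of the inverse Cartan matrix at a simple module of small projective
dimension.
-/

namespace Pool.Agent.Run7.h155

open Module CategoryTheory

section

variable {k A : Type} [Field k] [Ring A] [Algebra k A] [Module.Finite k A]
  {n : ℕ} {e : Fin n → A}

theorem cnt_nonneg {r : ℕ} (v : Fin r → Fin n) (j : Fin n) : 0 ≤ cnt v j := by
  unfold cnt
  apply Finset.sum_nonneg
  intro l _
  split_ifs <;> norm_num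

theorem cnt_zero {r : ℕ} (v : Fin r → Fin n) (j : Fin n) (hv : ∀ l, v l ≠ j) :
    cnt v j = 0 := by
  unfold cnt
  apply Finset.sum_eq_zero
  intro l _
  rw [if_neg (hv l)]

/-- The cover of the radical of `A e i₀` does not involve `A e i₀`. -/
theorem cov_Ke (h : Elem k e)
    (hgl : ∃ m : ℕ, ∀ M : ModuleCat.{0} A, HasProjectiveDimensionLT M m)
    (i₀ : Fin n) (c : Cov e (Ke (e i₀))) (l0 : Fin c.r) : c.v l0 ≠ i₀ := by
  intro hv
  set a : A := ((c.m l0).1 : A) with ha
  have haJ : a ∈ Ring.jacobson A := (c.m l0).2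
  have har : a * e i₀ = a := (c.m l0).1.2
  have hal : e i₀ * a = a := by
    have := congrArg (fun t : Ke (e i₀) => ((t : Pe (e i₀)) : A)) (c.fix l0)
    rw [hv] at this
    exact this
  have hspan := h.no_loops hgl i₀ a haJ (by rw [hal, har])
  have key : ∀ z ∈ Submodule.span k {z : A | ∃ a ∈ Ring.jacobson A, ∃ b ∈ Ring.jacobson A,
      z = a * b}, ∃ x : Fin c.r → A, (∀ l, x l ∈ Ring.jacobson A) ∧
      z * e i₀ = ∑ l, x l * ((c.m l).1 : A) := by
    intro z hz
    induction hz using Submodule.span_induction with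
    | mem z hz =>
      obtain ⟨a, ha, b, hb, rfl⟩ := hz
      have hbm : b * e i₀ ∈ Pe (e i₀) := by
        rw [mem_Pe, mul_assoc, h.idem]
      have hbk : (⟨b * e i₀, hbm⟩ : Pe (e i₀)) ∈ Ke (e i₀) := mem_mul_right' _ hb
      obtain ⟨y, hy⟩ := c.gen ⟨⟨b * e i₀, hbm⟩, hbk⟩
      refine ⟨fun l => a * y l, fun l => mem_mul_right' _ ha, ?_⟩
      have hy' : ∑ l, y l * ((c.m l).1 : A) = b * e i₀ := by
        have := congrArg (fun t : Ke (e i₀) => ((t : Pe (e i₀)) : A)) hy
        simp only [AddSubmonoidClass.coe_finsetSum] at this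
        exact this
      rw [mul_assoc, ← hy', Finset.mul_sum]
      simp only [mul_assoc]
    | zero => exact ⟨0, fun l => Submodule.zero_mem _, by simp⟩
    | add x y _ _ hx hy =>
      obtain ⟨x', hx1, hx2⟩ := hx
      obtain ⟨y', hy1, hy2⟩ := hy
      refine ⟨fun l => x' l + y' l, fun l => Submodule.add_mem _ (hx1 l) (hy1 l), ?_⟩
      rw [add_mul, hx2, hy2, ← Finset.sum_add_distrib]
      simp only [add_mul]
    | smul t x _ hx =>
      obtain ⟨x', hx1, hx2⟩ := hx
      refine ⟨fun l => t • x' l, fun l => mem_smul' t (hx1 l), ?_⟩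
      rw [smul_mul_assoc, hx2, Finset.smul_sum]
      simp only [smul_mul_assoc]
  obtain ⟨x, hx1, hx2⟩ := key a hspan
  rw [har] at hx2
  classical
  have hmin := c.min (fun l => (if l = l0 then e i₀ else 0) - x l * e (c.v l)) (by
    intro l
    split_ifs with hl
    · subst hl
      rw [sub_mul, mul_assoc, h.idem, hv, h.idem]
    · rw [zero_sub, neg_mul, mul_assoc, h.idem]) (by
    apply Subtype.ext
    apply Subtype.ext
    simp only [AddSubmonoidClass.coe_finsetSum]
    change ∑ l, ((if l = l0 then e i₀ else 0) - x l * e (c.v l)) * ((c.m l).1 : A) = 0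
    simp only [sub_mul, Finset.sum_sub_distrib]
    have h1 : ∑ l, (if l = l0 then e i₀ else 0) * ((c.m l).1 : A) = a := by
      rw [Finset.sum_eq_single l0]
      · rw [if_pos rfl]
        exact hal
      · intro b _ hb
        rw [if_neg hb, zero_mul]
      · intro hb
        exact absurd (Finset.mem_univ _) hb
    have h2 : ∑ l, x l * e (c.v l) * ((c.m l).1 : A) = a := by
      rw [hx2]
      refine Finset.sum_congr rfl fun l _ => ?_
      have := congrArg (fun t : Ke (e i₀) => ((t : Pe (e i₀)) : A)) (c.fix l)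
      have h3 : e (c.v l) * ((c.m l).1 : A) = ((c.m l).1 : A) := this
      rw [mul_assoc, h3]
    rw [h1, h2, sub_self]) l0
  simp only [if_true] at hmin
  apply h.notMem (k := k) i₀
  have := Submodule.add_mem _ hmin (mem_mul_right' (e (c.v l0)) (hx1 l0))
  rwa [sub_add_cancel] at this

/-- A right socle element forbids `A e i₀` as a summand of the kernel of a minimal cover which
is projective. -/
theorem cov_socle (h : Elem k e) (i₀ : Fin n) (z : A) (hz0 : z ≠ 0) (hz : z * e i₀ = z)
    (hzJ : ∀ x ∈ Ring.jacobson A, z * x = 0) {M : Type} [AddCommGroup M] [Module A M]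
    (c : Cov e M) [Module.Projective A (LinearMap.ker (covMap e c.v c.m))]
    (c' : Cov e (LinearMap.ker (covMap e c.v c.m))) (l0 : Fin c'.r) : c'.v l0 ≠ i₀ := by
  intro hv
  classical
  let x : ∀ l, Pe (e (c'.v l)) := Pi.single l0 ⟨z, by rw [mem_Pe, hv, hz]⟩
  have hx : covMap e c'.v c'.m x = 0 := by
    rw [covMap_apply, Finset.sum_eq_single l0]
    · apply Subtype.ext
      funext l
      apply Subtype.ext
      simp only [x, Pi.single_eq_same]
      change z * (((c'.m l0).1 l : Pe (e (c.v l))) : A) = 0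
      exact hzJ _ (c.ker_mem _ (c'.m l0).2 l)
    · intro b _ hb
      simp only [x]
      rw [Pi.single_eq_of_ne hb]
      simp
    · intro hb
      exact absurd (Finset.mem_univ _) hb
  have h0 : x = 0 := c'.injective (k := k) h (by rw [hx, map_zero])
  apply hz0
  have h1 := congrFun h0 l0
  simp only [x, Pi.single_eq_same] at h1
  exact congrArg Subtype.val h1

/-- The column of the inverse Cartan matrix at `i₀`. -/
theorem exists_col (h : Elem k e)
    (hgl : ∃ m : ℕ, ∀ M : ModuleCat.{0} A, HasProjectiveDimensionLT M m)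
    (i₀ : Fin n) (S : Type) [AddCommGroup S] [Module A S]
    [IsSimpleModule A S] (hS : ∃ s : S, e i₀ • s ≠ 0)
    (hpd : HasProjectiveDimensionLT (ModuleCat.of A S) 3 ∨
      (HasProjectiveDimensionLT (ModuleCat.of A S) 4 ∧
        ∃ z : A, z ≠ 0 ∧ z * e i₀ = z ∧ ∀ x ∈ Ring.jacobson A, z * x = 0)) :
    ∃ al : Fin n → ℤ, 0 < al i₀ ∧
      ∀ i, ∑ j, cart k e i j * al j = if i = i₀ then 1 else 0 := by
  have hfin : Module.Finite k (Pe (e i₀)) := finite_submodule _
  have hfin1 : Module.Finite k (Ke (e i₀)) := finite_submodule _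
  obtain ⟨c1⟩ := exists_cov h (Ke (e i₀))
  have hfin2 := finPeV (k := k) (e := e) c1.v
  have hfin3 : Module.Finite k (LinearMap.ker (covMap e c1.v c1.m)) := finite_submodule _
  obtain ⟨c2⟩ := exists_cov h (LinearMap.ker (covMap e c1.v c1.m))
  have hp1 := projPeV h c1.v
  have hp2 := projPeV h c2.v
  have hc1 := cov_Ke h hgl i₀ c1
  have e1 := fun i => dv_Ke h i₀ i
  have e2 := fun i => dv_ker h c1 i
  have hsum : ∀ i, ∑ j, cart k e i j * (if j = i₀ then 1 else 0) = cart k e i i₀ := by
    intro i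
    simp
  rcases hpd with hpd | ⟨hpd, z, hz0, hz, hzJ⟩
  · have h1 := ker_simple h i₀ S hS 1 hpd
    have h2 := pd_ker (covMap e c1.v c1.m) (c1.surjective h) 0 h1
    have h3 := proj_of_pd h2
    have e3 := fun i => dv_proj h c2 i
    refine ⟨fun j => (if j = i₀ then 1 else 0) - cnt c1.v j + cnt c2.v j, ?_, ?_⟩
    · simp only [if_true, cnt_zero c1.v i₀ hc1]
      have := cnt_nonneg c2.v i₀
      linarith
    · intro i
      simp only [mul_add, mul_sub, Finset.sum_add_distrib, Finset.sum_sub_distrib, hsum]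
      have := e1 i
      rw [e2 i, e3 i] at this
      linarith
  · have h1 := ker_simple h i₀ S hS 2 hpd
    have h2 := pd_ker (covMap e c1.v c1.m) (c1.surjective h) 1 h1
    have h3 := pd_ker (covMap e c2.v c2.m) (c2.surjective h) 0 h2
    have h4 := proj_of_pd h3
    have hfin4 := finPeV (k := k) (e := e) c2.v
    have hfin5 : Module.Finite k (LinearMap.ker (covMap e c2.v c2.m)) := finite_submodule _
    obtain ⟨c3⟩ := exists_cov h (LinearMap.ker (covMap e c2.v c2.m))
    have hc3 := cov_socle h i₀ z hz0 hz hzJ c2 c3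
    have e3 := fun i => dv_ker h c2 i
    have e4 := fun i => dv_proj h c3 i
    refine ⟨fun j => (if j = i₀ then 1 else 0) - cnt c1.v j + cnt c2.v j - cnt c3.v j,
      ?_, ?_⟩
    · simp only [if_true, cnt_zero c1.v i₀ hc1, cnt_zero c3.v i₀ hc3]
      have := cnt_nonneg c2.v i₀
      linarith
    · intro i
      simp only [mul_add, mul_sub, Finset.sum_add_distrib, Finset.sum_sub_distrib, hsum]
      have := e1 i
      rw [e2 i, e3 i, e4 i] at this
      linarith

/-- The Cartan matrix is invertible over the integers. -/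
theorem isUnit_det_cart (h : Elem k e)
    (hgl : ∃ m : ℕ, ∀ M : ModuleCat.{0} A, HasProjectiveDimensionLT M m) :
    IsUnit (cart k e).det := by
  obtain ⟨m, hm⟩ := hgl
  have hcol : ∀ i₀ : Fin n, ∃ al : Fin n → ℤ,
      ∀ i, ∑ j, cart k e i j * al j = if i = i₀ then 1 else 0 := by
    intro i₀
    have hfin : Module.Finite k (Pe (e i₀)) := finite_submodule _
    have hfin1 : Module.Finite k (Ke (e i₀)) := finite_submodule _
    have h1 := hm (ModuleCat.of A (Ke (e i₀)))
    obtain ⟨al, hal⟩ := exists_alpha (k := k) h m (Ke (e i₀))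
      (hasProjectiveDimensionLT_of_ge _ m (m + 1) (by omega))
    refine ⟨fun j => (if j = i₀ then 1 else 0) - al j, fun i => ?_⟩
    simp only [mul_sub, Finset.sum_sub_distrib, ← hal i, dv_Ke h]
    simp
  choose al hal using hcol
  have hmul : cart k e * (Matrix.of fun j i₀ => al i₀ j) = 1 := by
    ext i i₀
    rw [Matrix.mul_apply]
    simp only [Matrix.of_apply]
    rw [hal, Matrix.one_apply]
  exact Matrix.isUnit_det_of_right_inverse hmul

end

end Pool.Agent.Run7.h155
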