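import Mathlib
import Pool.Agent.Run7.h155.Sign

set_option autoImplicit false

/-!
The sign law `det C_A = sign (det C_Γ)`.
-/

namespace Pool.Agent.Run7.h155

open Module CategoryTheory

section

variable {k A : Type} [Field k] [Ring A] [Algebra k A] [Module.Finite k A]
  {n : ℕ} {e : Fin (n + 1) → A}

theorem det_minor (C : Matrix (Fin (n + 1)) (Fin (n + 1)) ℤ) (i₀ : Fin (n + 1))
    (al : Fin (n + 1) → ℤ) (hal : ∀ i, ∑ j, C i j * al j = if i = i₀ then 1 else 0) :
    al i₀ * C.det = (C.submatrix i₀.succAbove i₀.succAbove).det := by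
  have h1 : C.mulVec al = Pi.single i₀ 1 := by
    funext i
    rw [Matrix.mulVec, dotProduct, hal, Pi.single_apply]
  have h2 : C.adjugate.mulVec (C.mulVec al) = C.det • al := by
    rw [Matrix.mulVec_mulVec, Matrix.adjugate_mul, Matrix.smul_mulVec, Matrix.one_mulVec]
  rw [h1] at h2
  have h3 := congrFun h2 i₀
  rw [Matrix.mulVec_single_one, Matrix.col_apply, Matrix.adjugate_fin_succ_eq_det_submatrix,
    Pi.smul_apply, smul_eq_mul, ← two_mul, pow_mul, neg_one_sq, one_pow, one_mul] at h3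
  rw [h3, mul_comm]

theorem sign_law (h : Elem k e)
    (hgl : ∃ m : ℕ, ∀ M : ModuleCat.{0} A, HasProjectiveDimensionLT M m)
    (i₀ : Fin (n + 1)) (S : Type) [AddCommGroup S] [Module A S]
    [IsSimpleModule A S] (hS : ∃ s : S, e i₀ • s ≠ 0)
    (hpd : HasProjectiveDimensionLT (ModuleCat.of A S) 3 ∨
      (HasProjectiveDimensionLT (ModuleCat.of A S) 4 ∧
        ∃ z : A, z ≠ 0 ∧ z * e i₀ = z ∧ ∀ x ∈ Ring.jacobson A, z * x = 0)) :
    0 < (cart k e).det * ((cart k e).submatrix i₀.succAbove i₀.succAbove).det ∧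
    (cart k e).det = Int.sign ((cart k e).submatrix i₀.succAbove i₀.succAbove).det := by
  obtain ⟨al, hpos, hal⟩ := exists_col h hgl i₀ S hS hpd
  have h1 := det_minor (cart k e) i₀ al hal
  rcases Int.isUnit_iff.1 (isUnit_det_cart h hgl) with h2 | h2
  · rw [← h1, h2]
    refine ⟨by linarith, ?_⟩
    rw [mul_one, Int.sign_eq_one_of_pos hpos]
  · rw [← h1, h2]
    refine ⟨by linarith, ?_⟩
    rw [mul_neg_one, Int.sign_neg, Int.sign_eq_one_of_pos hpos]

end

end Pool.Agent.Run7.h155
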