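import Mathlib
import Pool.Agent.Run7.h155.SignLaw

set_option autoImplicit false

/-!
Two simple modules.
-/

namespace Pool.Agent.Run7.h155

open Module CategoryTheory

section

variable {k A : Type} [Field k] [Ring A] [Algebra k A] [Module.Finite k A]

omit [Module.Finite k A] in
/-- A left ideal has smaller projective dimension than the corresponding quotient. -/
theorem pd_ideal (m : ℕ) (hgl : ∀ M : ModuleCat.{0} A, HasProjectiveDimensionLT M (m + 2))
    (S : Submodule A A) : HasProjectiveDimensionLT (ModuleCat.of A S) (m + 1) := by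
  have h1 := pd_ker (Submodule.mkQ S) (Submodule.mkQ_surjective _) m
    (hgl (ModuleCat.of A (A ⧸ S)))
  rwa [Submodule.ker_mkQ] at h1

theorem exists_simple {n : ℕ} {e : Fin n → A} (h : Elem k e) (i₁ : Fin n) :
    ∃ (S : Submodule A A) (_ : IsSimpleModule A S) (i : Fin n), ∃ s : S, e i • s ≠ 0 := by
  have hart : IsArtinianRing A := isArtinian_of_tower k inferInstance
  have hnt : Nontrivial A := ⟨⟨e i₁, 0, h.ne i₁⟩⟩
  obtain ⟨S, hS⟩ := IsAtomic.exists_atom (Submodule A A)
  have hS' : IsSimpleModule A S := isSimpleModule_iff_isAtom.2 hS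
  refine ⟨S, hS', ?_⟩
  by_contra hno
  push Not at hno
  have : Nontrivial S := hS'.nontrivial
  obtain ⟨s, hs⟩ := exists_ne (0 : S)
  apply hs
  rw [← one_smul A s, ← h.sum, Finset.sum_smul]
  exact Finset.sum_eq_zero fun i _ => hno i s

omit [Module.Finite k A] in
/-- The line through a left socle element is a simple module. -/
theorem simple_socle {n : ℕ} {e : Fin n → A} (h : Elem k e) (i : Fin n) (w : A) (hw0 : w ≠ 0)
    (hw : e i * w = w) (hwJ : ∀ x ∈ Ring.jacobson A, x * w = 0) :
    IsSimpleModule A (Submodule.span A {w}) ∧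
      ∃ s : Submodule.span A {w}, e i • s ≠ 0 := by
  have key : ∀ x : A, ∃ c : k, x * w = c • w := by
    intro x
    obtain ⟨c, hc⟩ := h.split x
    refine ⟨c i, ?_⟩
    have h1 := hwJ _ hc
    rw [sub_mul, sub_eq_zero] at h1
    rw [h1]
    calc (∑ j, c j • e j) * w = (∑ j, c j • e j) * e i * w := by rw [mul_assoc, hw]
      _ = c i • w := by rw [h.sum_mul_right, smul_mul_assoc, hw]
  have hmem : w ∈ Submodule.span A {w} := Submodule.mem_span_singleton_self w
  constructor
  · rw [isSimpleModule_iff_isAtom]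
    refine ⟨?_, ?_⟩
    · rw [Ne, Submodule.span_singleton_eq_bot]
      exact hw0
    · intro N hN
      by_contra hne
      apply hN.not_ge
      rw [Submodule.span_singleton_le_iff_mem]
      obtain ⟨y, hy, hy0⟩ := (Submodule.ne_bot_iff N).1 hne
      obtain ⟨x, rfl⟩ := Submodule.mem_span_singleton.1 (hN.le hy)
      obtain ⟨c, hc⟩ := key x
      rw [smul_eq_mul] at hy hy0
      have hc0 : c ≠ 0 := by
        rintro rfl
        rw [hc, zero_smul] at hy0
        exact hy0 rfl
      have h2 : (algebraMap k A c⁻¹) • (x * w) ∈ N := N.smul_mem _ hy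
      rw [algebraMap_smul, hc, smul_smul, inv_mul_cancel₀ hc0, one_smul] at h2
      exact h2
  · refine ⟨⟨w, hmem⟩, ?_⟩
    intro h0
    apply hw0
    have := congrArg Subtype.val h0
    change e i * w = 0 at this
    rwa [hw] at this

theorem cart_diag_pos {n : ℕ} {e : Fin n → A} (h : Elem k e) (i : Fin n) :
    0 < cart k e i i := by
  unfold cart
  rw [Matrix.of_apply]
  norm_cast
  rw [Module.finrank_pos_iff]
  refine ⟨⟨⟨e i, e i, ?_⟩, 0, ?_⟩⟩
  · change e i * (e i * e i) = e i
    rw [h.idem, h.idem]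
  · intro h0
    exact h.ne i (congrArg Subtype.val h0)

/-- The Cartan determinant conjecture for elementary algebras with two simple modules and
global dimension at most three, and at most four under a socle condition. -/
theorem two_simples {e : Fin 2 → A} (h : Elem k e)
    (hgl : (∀ M : ModuleCat.{0} A, HasProjectiveDimensionLT M 4) ∨
      ((∀ M : ModuleCat.{0} A, HasProjectiveDimensionLT M 5) ∧
        ∃ i, ∃ z w : A, z ≠ 0 ∧ z * e i = z ∧ (∀ x ∈ Ring.jacobson A, z * x = 0) ∧
          w ≠ 0 ∧ e i * w = w ∧ (∀ x ∈ Ring.jacobson A, x * w = 0))) :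
    (cart k e).det = 1 := by
  have hconc : ∀ i : Fin 2, (cart k e).det =
      Int.sign ((cart k e).submatrix i.succAbove i.succAbove).det → (cart k e).det = 1 := by
    intro i hi
    rw [hi]
    apply Int.sign_eq_one_of_pos
    rw [Matrix.det_fin_one, Matrix.submatrix_apply]
    exact cart_diag_pos h _
  rcases hgl with hgl | ⟨hgl, i, z, w, hz0, hz, hzJ, hw0, hw, hwJ⟩
  · obtain ⟨S, hS, i, hs⟩ := exists_simple h 0
    have hpd := pd_ideal 2 hgl S
    exact hconc i (sign_law h ⟨4, hgl⟩ i S hs (Or.inl hpd)).2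
  · obtain ⟨hS, hs⟩ := simple_socle h i w hw0 hw hwJ
    have hpd := pd_ideal 3 hgl (Submodule.span A {w})
    exact hconc i (sign_law h ⟨5, hgl⟩ i _ hs (Or.inr ⟨hpd, z, hz0, hz, hzJ⟩)).2

end

end Pool.Agent.Run7.h155
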