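import Mathlib
import Pool.Agent.Run7.h155.Hh0
import Pool.Agent.Run7.h155.TwoSimples

set_option autoImplicit false

/-!
Two simple modules, at most one arrow in one direction.
-/

namespace Pool.Agent.Run7.h155

open Module TensorProduct CategoryTheory

section

variable {k A : Type} [Field k] [Ring A] [Algebra k A] {e : Fin 2 → A} {i j : Fin 2}

theorem mem_sq {z : A} (hz : z ∈ (Ring.jacobson A) ^ 2) :
    z ∈ Submodule.span k {z : A | ∃ a ∈ Ring.jacobson A, ∃ b ∈ Ring.jacobson A, z = a * b} := by
  rw [Submodule.pow_succ] at hz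
  refine Submodule.mul_induction_on hz (fun a ha b hb => ?_) (fun a b ha hb => ?_)
  · rw [Submodule.pow_one] at ha
    exact Submodule.subset_span ⟨a, ha, b, hb, rfl⟩
  · exact Submodule.add_mem _ ha hb

/-- The corner of the square of the radical. -/
theorem sq_corner [Module.Finite k A] (h : Elem k e)
    (hgl : ∃ m : ℕ, ∀ M : ModuleCat.{0} A, HasProjectiveDimensionLT M m)
    (hij : i ≠ j) {z : A} (hz : z ∈ (Ring.jacobson A) ^ 2) :
    e j * (z * e i) ∈ cor k (e j) (e i) * cor k (e i) (e j) * cor k (e j) (e i) := by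
  have hji : j ≠ i := Ne.symm hij
  have h1 := mem_sq (k := k) hz
  have h2 : Submodule.span k {z : A | ∃ a ∈ Ring.jacobson A, ∃ b ∈ Ring.jacobson A,
      z = a * b} ≤ (cor k (e j) (e i) * cor k (e i) (e j) * cor k (e j) (e i)).comap
        (corMap k (e j) (e i)) := by
    rw [Submodule.span_le]
    rintro _ ⟨a, ha, b, hb, rfl⟩
    change e j * (a * b * e i) ∈ cor k (e j) (e i) * cor k (e i) (e j) * cor k (e j) (e i)
    rw [cor_mul_expand h hij (e j) (e i) a b]
    refine Submodule.add_mem _ ?_ ?_
    · rw [mul_assoc (cor k (e j) (e i)), ← radc_eq h hgl hij]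
      refine Submodule.mul_mem_mul (mem_cor_mk _ _ _) ?_
      exact ⟨mem_mul_left' _ (mem_mul_right' _ hb), mem_cor_mk _ _ _⟩
    · rw [← radc_eq h hgl hji]
      refine Submodule.mul_mem_mul ?_ (mem_cor_mk _ _ _)
      exact ⟨mem_mul_left' _ (mem_mul_right' _ ha), mem_cor_mk _ _ _⟩
  exact h2 h1

theorem det_cart_two (k : Type) {A : Type} [Field k] [Ring A] [Algebra k A] (e : Fin 2 → A)
    {i j : Fin 2} (hij : i ≠ j) :
    (cart k e).det = (finrank k (cor k (e i) (e i)) : ℤ) * finrank k (cor k (e j) (e j)) -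
      (finrank k (cor k (e i) (e j)) : ℤ) * finrank k (cor k (e j) (e i)) := by
  have h1 : ∀ a b, cart k e a b = finrank k (cor k (e a) (e b)) := fun a b => rfl
  rw [Matrix.det_fin_two, h1, h1, h1, h1]
  fin_cases i <;> fin_cases j
  · exact absurd rfl hij
  · rfl
  · simp only [Fin.zero_eta, Fin.isValue, Fin.mk_one]
    ring
  · exact absurd rfl hij

theorem finrank_mul_le [Module.Finite k A] (P Q : Submodule k A) :
    finrank k (P * Q : Submodule k A) ≤ finrank k P * finrank k Q := by
  rw [← Submodule.mulMap_range, ← Module.finrank_tensorProduct]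
  exact LinearMap.finrank_range_le _

/-- From positivity to one. -/
theorem det_eq_one_of_pos [Module.Finite k A] (h : Elem k e)
    (hgl : ∃ m : ℕ, ∀ M : ModuleCat.{0} A, HasProjectiveDimensionLT M m)
    (hpos : 0 ≤ (cart k e).det) : (cart k e).det = 1 := by
  rcases Int.isUnit_iff.1 (isUnit_det_cart h hgl) with h2 | h2
  · exact h2
  · rw [h2] at hpos
    omega

/-- `M N M = 0` when there is one arrow. -/
theorem one_arrow_aux [Module.Finite k A] (h : Elem k e)
    (hgl : ∃ m : ℕ, ∀ M : ModuleCat.{0} A, HasProjectiveDimensionLT M m)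
    (hij : i ≠ j) (y : A) (hyM : y ∈ cor k (e j) (e i))
    (hy : cor k (e j) (e i) ≤ Submodule.span k {y} ⊔
      cor k (e j) (e i) * cor k (e i) (e j) * cor k (e j) (e i)) :
    cor k (e j) (e i) * cor k (e i) (e j) * cor k (e j) (e i) = ⊥ ∧
    ∀ n ∈ cor k (e i) (e j), ∃ n' ∈ cor k (e i) (e j), n * y = n' * y ∧ y * n' = 0 := by
  have hji : j ≠ i := Ne.symm hij
  have hRi : radc k (e i) = cor k (e i) (e j) * cor k (e j) (e i) := radc_eq h hgl hij
  have hRj : radc k (e j) = cor k (e j) (e i) * cor k (e i) (e j) := radc_eq h hgl hji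
  set M := cor k (e j) (e i) with hM
  set N := cor k (e i) (e j) with hN
  -- decomposition of `N`
  have hdec : ∀ θ : M ⊗[k] N, ∃ n' ∈ N, taM M N θ - n' * y ∈ radc k (e i) * radc k (e i) ∧
      Submodule.mulMap M N θ - y * n' ∈ radc k (e j) * radc k (e j) := by
    intro θ
    induction θ with
    | zero => exact ⟨0, Submodule.zero_mem _, by simp, by simp⟩
    | add a b ha hb =>
      obtain ⟨n1, hn1, h1, h2⟩ := ha
      obtain ⟨n2, hn2, h3, h4⟩ := hb
      refine ⟨n1 + n2, Submodule.add_mem _ hn1 hn2, ?_, ?_⟩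
      · have : taM M N (a + b) - (n1 + n2) * y =
            (taM M N a - n1 * y) + (taM M N b - n2 * y) := by
          rw [map_add, add_mul]; abel
        rw [this]
        exact Submodule.add_mem _ h1 h3
      · have : Submodule.mulMap M N (a + b) - y * (n1 + n2) =
            (Submodule.mulMap M N a - y * n1) + (Submodule.mulMap M N b - y * n2) := by
          rw [map_add, mul_add]; abel
        rw [this]
        exact Submodule.add_mem _ h2 h4
    | tmul m n =>
      obtain ⟨u, hu, m', hm', hsum⟩ := Submodule.mem_sup.1 (hy m.2)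
      obtain ⟨c, rfl⟩ := Submodule.mem_span_singleton.1 hu
      refine ⟨c • n.1, Submodule.smul_mem _ _ n.2, ?_, ?_⟩
      · have : taM M N (m ⊗ₜ n) - c • n.1 * y = n.1 * m' := by
          rw [taM_tmul, ← hsum, mul_add, mul_smul_comm, smul_mul_assoc]; abel
        rw [this, hRi]
        have h1 : N * M * (N * M) = N * (M * N * M) := by
          simp only [mul_assoc]
        rw [h1]
        exact Submodule.mul_mem_mul n.2 hm'
      · have : Submodule.mulMap M N (m ⊗ₜ n) - y * c • n.1 = m' * n.1 := by
          rw [Submodule.mulMap_tmul, ← hsum, add_mul, mul_smul_comm, smul_mul_assoc]; abel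
        rw [this, hRj]
        have h1 : M * N * (M * N) = (M * N * M) * N := by
          simp only [mul_assoc]
        rw [h1]
        exact Submodule.mul_mem_mul hm' n.2
  have hdec2 : ∀ n ∈ N, ∃ n' ∈ N, n * y - n' * y ∈ radc k (e i) * radc k (e i) ∧
      y * n' ∈ radc k (e j) * radc k (e j) := by
    intro n hn
    have h1 : n * y ∈ radc k (e i) := by
      rw [hRi]; exact Submodule.mul_mem_mul hn hyM
    obtain ⟨θ, h2, h3⟩ := hh0 h hgl hij _ h1
    obtain ⟨n', hn', h4, h5⟩ := hdec θ
    refine ⟨n', hn', ?_, ?_⟩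
    · have : n * y - n' * y = (n * y - taM M N θ) + (taM M N θ - n' * y) := by abel
      rw [this]
      exact Submodule.add_mem _ h3 h4
    · have h6 : Submodule.mulMap M N θ = 0 := h2
      rw [h6, zero_sub] at h5
      exact (Submodule.neg_mem_iff _).1 h5
  have hspan : Submodule.span k {y} ≤ M := by
    rw [Submodule.span_singleton_le_iff_mem]; exact hyM
  have hPM : M * N * M ≤ M := by
    rw [← hRj]
    exact (mul_le_mul' (radc_le_cor _) le_rfl).trans (cor_mul_cor h _ _ _)
  have hyNy : Submodule.span k {y} * N * Submodule.span k {y} ≤ M * N * M * (N * M) := by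
    have hel : ∀ n ∈ N, y * n * y ∈ M * N * M * (N * M) := by
      intro n hn
      obtain ⟨n', hn', h1, h2⟩ := hdec2 n hn
      have e1 : y * n * y = y * (n * y - n' * y) + (y * n') * y := by noncomm_ring
      rw [e1]
      refine Submodule.add_mem _ ?_ ?_
      · have h3 := Submodule.mul_mem_mul hyM h1
        rw [hRi] at h3
        have e2 : M * (N * M * (N * M)) = M * N * M * (N * M) := by
          simp only [mul_assoc]
        rw [e2] at h3
        exact h3
      · have h3 := Submodule.mul_mem_mul h2 hyM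
        rw [hRj] at h3
        have e2 : M * N * (M * N) * M = M * N * M * (N * M) := by
          simp only [mul_assoc]
        rw [e2] at h3
        exact h3
    rw [Submodule.mul_le]
    intro a ha b hb
    obtain ⟨d, rfl⟩ := Submodule.mem_span_singleton.1 hb
    refine Submodule.mul_induction_on ha (fun u hu n hn => ?_) (fun a b ha hb => ?_)
    · obtain ⟨c, rfl⟩ := Submodule.mem_span_singleton.1 hu
      have : c • y * n * d • y = (c * d) • (y * n * y) := by
        rw [mul_smul_comm, smul_mul_assoc, smul_mul_assoc, smul_smul, mul_comm c d]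
      rw [this]
      exact Submodule.smul_mem _ _ (hel n hn)
    · rw [add_mul]
      exact Submodule.add_mem _ ha hb
  have hP : M * N * M ≤ M * N * M * (N * M) := by
    have h1 : M * N * M ≤ (Submodule.span k {y} ⊔ M * N * M) * N *
        (Submodule.span k {y} ⊔ M * N * M) := mul_le_mul' (mul_le_mul' hy le_rfl) hy
    refine h1.trans ?_
    rw [Submodule.mul_sup, Submodule.sup_mul, Submodule.sup_mul]
    refine sup_le (sup_le hyNy ?_) ?_
    · calc M * N * M * N * Submodule.span k {y} ≤ M * N * M * N * M :=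
            mul_le_mul' le_rfl hspan
        _ = M * N * M * (N * M) := mul_assoc _ _ _
    · rw [← Submodule.sup_mul]
      calc (Submodule.span k {y} ⊔ M * N * M) * N * (M * N * M) ≤ M * N * (M * N * M) :=
            mul_le_mul' (mul_le_mul' (sup_le hspan hPM) le_rfl) le_rfl
        _ = M * N * M * (N * M) := by
          simp only [mul_assoc]
  have hP0 : M * N * M = ⊥ := by
    have h1 : ∀ m : ℕ, M * N * M ≤ M * N * M * (N * M) ^ m := by
      intro m
      induction m with
      | zero => rw [Submodule.pow_zero, mul_one]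
      | succ m ih =>
        refine ih.trans ?_
        rw [pow_succ', ← mul_assoc]
        exact mul_le_mul' hP le_rfl
    obtain ⟨s, hs⟩ := exists_pow_radc (k := k) (e i)
    rw [hRi] at hs
    have := h1 s
    rw [hs, Submodule.mul_bot] at this
    exact le_bot_iff.1 this
  refine ⟨hP0, ?_⟩
  intro n hn
  obtain ⟨n', hn', h1, h2⟩ := hdec2 n hn
  have e1 : radc k (e i) * radc k (e i) = ⊥ := by
    rw [hRi]
    have : N * M * (N * M) = N * (M * N * M) := by simp only [mul_assoc]
    rw [this, hP0, Submodule.mul_bot]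
  have e2 : radc k (e j) * radc k (e j) = ⊥ := by
    rw [hRj, ← mul_assoc, hP0, Submodule.bot_mul]
  rw [e1] at h1
  rw [e2] at h2
  exact ⟨n', hn', sub_eq_zero.1 h1, h2⟩

/-- The intersection of the two annihilators lies in `N M N`. -/
theorem one_arrow_inf [Module.Finite k A] (h : Elem k e)
    (hgl : ∃ m : ℕ, ∀ M : ModuleCat.{0} A, HasProjectiveDimensionLT M m)
    (hij : i ≠ j) (y : A) (hyM : y ∈ cor k (e j) (e i)) (hy0 : y ≠ 0)
    (hMNM : cor k (e j) (e i) * cor k (e i) (e j) * cor k (e j) (e i) = ⊥)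
    (u : A) (hu : u ∈ cor k (e i) (e j)) (h1 : u * y = 0) (h2 : y * u = 0) :
    u ∈ radc k (e i) * cor k (e i) (e j) := by
  have hji : j ≠ i := Ne.symm hij
  by_contra hnot
  obtain ⟨phi, hphi1, hphi2⟩ := Submodule.exists_le_ker_of_notMem hnot
  obtain ⟨mu, hmu⟩ : ∃ mu : A →ₗ[k] k, mu y ≠ 0 := by
    obtain ⟨mu, hmu, -⟩ := Submodule.exists_le_ker_of_notMem
      (p := (⊥ : Submodule k A)) (v := y) (by simpa using hy0)
    exact ⟨mu, hmu⟩
  let psi : A →ₗ[k] A →ₗ[k] k :=
    ((LinearMap.mul k k).compl₁₂ mu phi).compl₁₂ (corMap k (e j) (e i)) (corMap k (e i) (e j))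
  have hpsi : ∀ a b, psi a b = mu (e j * (a * e i)) * phi (e i * (b * e j)) := fun a b => rfl
  have hzero := psi_zero h hgl hij psi
    (by
      intro a b
      rw [hpsi, hpsi]
      congr 2
      · rw [mul_assoc (e j), mul_assoc a, h.idem, ← mul_assoc (e j) (e j), h.idem]
      · rw [mul_assoc (e i), mul_assoc b, h.idem, ← mul_assoc (e i) (e i), h.idem])
    (by
      intro a b l hl
      have hl' := (mem_radc (h.idem i)).1 hl
      rw [hpsi, hpsi]
      have t1 : e j * (a * l * e i) = 0 := by
        have : e j * (a * l * e i) = (e j * (a * e i)) * l := by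
          rw [mul_assoc (e j), mul_assoc a (e i) l, hl'.2.1, mul_assoc a l, hl'.2.2]
        rw [this]
        have hmem := Submodule.mul_mem_mul (mem_cor_mk (k := k) (e j) (e i) a) hl
        rw [radc_eq h hgl hij, ← mul_assoc, hMNM] at hmem
        exact hmem
      have t2 : phi (e i * (l * b * e j)) = 0 := by
        have : e i * (l * b * e j) = l * (e i * (b * e j)) := by
          rw [← mul_assoc l (e i), hl'.2.2, mul_assoc l b, ← mul_assoc (e i) l, hl'.2.1]
        rw [this]
        exact LinearMap.mem_ker.1 (hphi2 (Submodule.mul_mem_mul hl (mem_cor_mk _ _ _)))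
      rw [t1, t2, map_zero, zero_mul, mul_zero])
    (ι := Unit) Finset.univ (fun _ => y) (fun _ => u) (fun _ _ => hyM) (fun _ _ => hu)
    (by simpa using h2) (by simpa using h1)
  simp only [Finset.univ_unique, Finset.sum_singleton] at hzero
  rw [hpsi] at hzero
  have e1 : e j * (y * e i) = y := by
    rw [cor_right (h.idem i) hyM, cor_left (h.idem j) hyM]
  have e2 : e i * (u * e j) = u := by
    rw [cor_right (h.idem j) hu, cor_left (h.idem i) hu]
  rw [e1, e2] at hzero
  rcases mul_eq_zero.1 hzero with h3 | h3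
  · exact hmu h3
  · exact hphi1 h3

/-- The Cartan determinant conjecture for two simple modules when there is at most one arrow
in one of the two directions. -/
theorem one_arrow [Module.Finite k A] (h : Elem k e)
    (hgl : ∃ m : ℕ, ∀ M : ModuleCat.{0} A, HasProjectiveDimensionLT M m)
    (hij : i ≠ j)
    (hy : ∃ y : A, ∀ x ∈ Ring.jacobson A, ∃ c : k, e j * x * e i - c • y ∈
      (Ring.jacobson A) ^ 2) : (cart k e).det = 1 := by
  have hji : j ≠ i := Ne.symm hij
  obtain ⟨y0, hy0⟩ := hy
  set y := e j * (y0 * e i) with hydef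
  have hyM : y ∈ cor k (e j) (e i) := mem_cor_mk _ _ _
  have hle : cor k (e j) (e i) ≤ Submodule.span k {y} ⊔
      cor k (e j) (e i) * cor k (e i) (e j) * cor k (e j) (e i) := by
    intro x hx
    obtain ⟨c, hc⟩ := hy0 x (h.cor_mem_jac hji hx)
    have h1 : e j * x * e i = x := by
      rw [cor_left (h.idem j) hx, cor_right (h.idem i) hx]
    rw [h1] at hc
    have h2 := sq_corner h hgl hij hc
    have h3 : e j * ((x - c • y0) * e i) = x - c • y := by
      rw [sub_mul, mul_sub, smul_mul_assoc, mul_smul_comm, ← hydef,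
        cor_right (h.idem i) hx, cor_left (h.idem j) hx]
    rw [h3] at h2
    have h4 : x = c • y + (x - c • y) := by abel
    rw [h4]
    exact Submodule.add_mem_sup
      (Submodule.smul_mem _ _ (Submodule.mem_span_singleton_self _)) h2
  obtain ⟨hP0, hdec⟩ := one_arrow_aux h hgl hij y hyM hle
  have hRi : radc k (e i) = cor k (e i) (e j) * cor k (e j) (e i) := radc_eq h hgl hij
  have hRj : radc k (e j) = cor k (e j) (e i) * cor k (e i) (e j) := radc_eq h hgl hji
  have hM : cor k (e j) (e i) = Submodule.span k {y} := by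
    apply le_antisymm
    · rw [hP0, sup_bot_eq] at hle
      exact hle
    · rw [Submodule.span_singleton_le_iff_mem]
      exact hyM
  apply det_eq_one_of_pos h hgl
  rw [det_cart_two k e hij, finrank_cor_diag h i, finrank_cor_diag h j]
  by_cases hyz : y = 0
  · rw [hM, hyz, Submodule.span_zero_singleton, finrank_bot]
    push_cast
    rw [mul_zero, sub_zero]
    positivity
  have hc : finrank k (cor k (e j) (e i)) = 1 := by
    rw [hM]; exact finrank_span_singleton hyz
  set N := cor k (e i) (e j) with hN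
  let f1 : N →ₗ[k] A := (LinearMap.mulRight k y) ∘ₗ N.subtype
  let f2 : N →ₗ[k] A := (LinearMap.mulLeft k y) ∘ₗ N.subtype
  have hf1 : ∀ n, f1 n = n.1 * y := fun n => rfl
  have hf2 : ∀ n, f2 n = y * n.1 := fun n => rfl
  have hr1 : LinearMap.range f1 = radc k (e i) := by
    rw [hRi]
    apply le_antisymm
    · rintro _ ⟨n, rfl⟩
      exact Submodule.mul_mem_mul n.2 hyM
    · rw [Submodule.mul_le]
      intro n hn m hm
      rw [hM] at hm
      obtain ⟨c, rfl⟩ := Submodule.mem_span_singleton.1 hm
      refine ⟨⟨c • n, Submodule.smul_mem _ _ hn⟩, ?_⟩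
      rw [hf1, smul_mul_assoc, mul_smul_comm]
  have hr2 : LinearMap.range f2 = radc k (e j) := by
    rw [hRj]
    apply le_antisymm
    · rintro _ ⟨n, rfl⟩
      exact Submodule.mul_mem_mul hyM n.2
    · rw [Submodule.mul_le]
      intro m hm n hn
      rw [hM] at hm
      obtain ⟨c, rfl⟩ := Submodule.mem_span_singleton.1 hm
      refine ⟨⟨c • n, Submodule.smul_mem _ _ hn⟩, ?_⟩
      rw [hf2, smul_mul_assoc, mul_smul_comm]
  have htop : LinearMap.ker f1 ⊔ LinearMap.ker f2 = ⊤ := by
    rw [eq_top_iff]
    rintro ⟨n, hn⟩ _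
    obtain ⟨n', hn', h1, h2⟩ := hdec n hn
    have h3 : (⟨n, hn⟩ : N) = ⟨n - n', Submodule.sub_mem _ hn hn'⟩ + ⟨n', hn'⟩ := by
      apply Subtype.ext
      change n = n - n' + n'
      abel
    rw [h3]
    refine Submodule.add_mem_sup ?_ ?_
    · rw [LinearMap.mem_ker, hf1]
      change (n - n') * y = 0
      rw [sub_mul, h1, sub_self]
    · rw [LinearMap.mem_ker, hf2]
      exact h2
  have d1 := LinearMap.finrank_range_add_finrank_ker f1
  have d2 := LinearMap.finrank_range_add_finrank_ker f2
  rw [hr1] at d1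
  rw [hr2] at d2
  have d3 := Submodule.finrank_sup_add_finrank_inf_eq (LinearMap.ker f1) (LinearMap.ker f2)
  rw [htop, finrank_top] at d3
  -- the intersection
  have d4 : finrank k (LinearMap.ker f1 ⊓ LinearMap.ker f2 : Submodule k N) ≤
      finrank k (radc k (e i) * N : Submodule k A) := by
    rw [← Submodule.finrank_map_subtype_eq]
    apply Submodule.finrank_mono
    rintro _ ⟨u, ⟨hu1, hu2⟩, rfl⟩
    exact one_arrow_inf h hgl hij y hyM hyz hP0 u.1 u.2 hu1 hu2
  obtain ⟨C, hC⟩ := Submodule.exists_isCompl (LinearMap.ker f2)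
  have d5 := Submodule.finrank_add_eq_of_isCompl hC
  have hRN : radc k (e i) * N ≤ radc k (e i) * C.map N.subtype := by
    rw [Submodule.mul_le]
    intro x hx n hn
    rw [← hr1] at hx
    obtain ⟨n1, rfl⟩ := hx
    have hmem : (⟨n, hn⟩ : N) ∈ LinearMap.ker f2 ⊔ C := by
      rw [hC.sup_eq_top]; exact Submodule.mem_top
    obtain ⟨r, hr, c, hc', hsum⟩ := Submodule.mem_sup.1 hmem
    have e1 : n = r.1 + c.1 := (congrArg Subtype.val hsum).symm
    have e2 : y * r.1 = 0 := hr
    rw [hf1, e1, mul_add, mul_assoc n1.1 y r.1, e2, mul_zero, zero_add]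
    refine Submodule.mul_mem_mul ?_ ⟨c, hc', rfl⟩
    rw [← hr1]
    exact ⟨n1, rfl⟩
  have d6 : finrank k (radc k (e i) * N : Submodule k A) ≤
      finrank k (radc k (e i)) * finrank k C := by
    refine (Submodule.finrank_mono hRN).trans ?_
    refine (finrank_mul_le _ _).trans ?_
    rw [Submodule.finrank_map_subtype_eq]
  have d7 : finrank k C = finrank k (radc k (e j)) := by omega
  rw [d7] at d6
  rw [hc]
  set q1 := finrank k (radc k (e i))
  set q2 := finrank k (radc k (e j))
  set b := finrank k N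
  have d8 : b ≤ q1 + q2 + q1 * q2 := by omega
  have d9 : (b : ℤ) ≤ q1 + q2 + q1 * q2 := by exact_mod_cast d8
  push_cast
  nlinarith

end

end Pool.Agent.Run7.h155
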