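import Mathlib
import Pool.Agent.Run7.h155.OneArrow

set_option autoImplicit false

/-!
Two simple modules, one of the two diagonal corners being uniserial.
-/

namespace Pool.Agent.Run7.h155

open Module TensorProduct CategoryTheory

section

variable {k : Type} [Field k]

theorem aux_ineq (a b c d : ℕ) (f1 : b ≤ a) (f2 : c ≤ d) :
    2 * (a * c + b * d) ≤ (a + b) * (c + d) := by
  obtain ⟨u, rfl⟩ := Nat.exists_eq_add_of_le f1
  obtain ⟨v, rfl⟩ := Nat.exists_eq_add_of_le f2
  nlinarith [Nat.zero_le (u * v)]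

/-- The rank of `X ⊗ 1 - 1 ⊗ Y` for operators of square zero. -/
theorem rank_diff {V1 V2 : Type} [AddCommGroup V1] [Module k V1] [Module.Finite k V1]
    [AddCommGroup V2] [Module k V2] [Module.Finite k V2]
    (X : V1 →ₗ[k] V1) (Y : V2 →ₗ[k] V2) (hX : ∀ v, X (X v) = 0) (hY : ∀ v, Y (Y v) = 0)
    (D : V1 ⊗[k] V2 →ₗ[k] V1 ⊗[k] V2) (hD : ∀ m n, D (m ⊗ₜ n) = X m ⊗ₜ n - m ⊗ₜ Y n) :
    2 * finrank k (LinearMap.range D) ≤ finrank k V1 * finrank k V2 := by
  obtain ⟨C, hC⟩ := Submodule.exists_isCompl (LinearMap.ker X)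
  obtain ⟨C', hC'⟩ := Submodule.exists_isCompl (LinearMap.range Y)
  have d1 := Submodule.finrank_add_eq_of_isCompl hC
  have d2 := Submodule.finrank_add_eq_of_isCompl hC'
  have d3 := LinearMap.finrank_range_add_finrank_ker X
  have d4 := LinearMap.finrank_range_add_finrank_ker Y
  have d5 : finrank k (LinearMap.range X) ≤ finrank k (LinearMap.ker X) := by
    apply Submodule.finrank_mono
    rintro _ ⟨v, rfl⟩
    exact hX v
  have d6 : finrank k (LinearMap.range Y) ≤ finrank k (LinearMap.ker Y) := by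
    apply Submodule.finrank_mono
    rintro _ ⟨v, rfl⟩
    exact hY v
  let W1 := LinearMap.range (TensorProduct.mapIncl (LinearMap.ker X) (LinearMap.range Y))
  let W2 := LinearMap.range (D ∘ₗ TensorProduct.mapIncl C C')
  have w1 : finrank k W1 ≤ finrank k (LinearMap.ker X) * finrank k (LinearMap.range Y) := by
    rw [← Module.finrank_tensorProduct]
    exact LinearMap.finrank_range_le _
  have w2 : finrank k W2 ≤ finrank k C * finrank k C' := by
    rw [← Module.finrank_tensorProduct]
    exact LinearMap.finrank_range_le _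
  have hle : LinearMap.range D ≤ W1 ⊔ W2 := by
    rintro _ ⟨t, rfl⟩
    induction t with
    | zero => rw [map_zero]; exact Submodule.zero_mem _
    | add x y hx hy => rw [map_add]; exact Submodule.add_mem _ hx hy
    | tmul m n =>
      have hm : m ∈ LinearMap.ker X ⊔ C := by rw [hC.sup_eq_top]; exact Submodule.mem_top
      have hn : n ∈ LinearMap.range Y ⊔ C' := by rw [hC'.sup_eq_top]; exact Submodule.mem_top
      obtain ⟨p, hp, q, hq, rfl⟩ := Submodule.mem_sup.1 hm
      obtain ⟨r, hr, s, hs, rfl⟩ := Submodule.mem_sup.1 hn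
      obtain ⟨r', rfl⟩ := hr
      have e1 : D ((p + q) ⊗ₜ (Y r' + s)) =
          (X q ⊗ₜ Y r' - p ⊗ₜ Y s) + D (q ⊗ₜ s) := by
        rw [hD, hD, map_add, map_add, hY, zero_add, LinearMap.mem_ker.1 hp, zero_add,
          tmul_add, add_tmul]
        abel
      rw [e1]
      refine Submodule.add_mem_sup (Submodule.sub_mem _ ?_ ?_) ?_
      · exact ⟨(⟨X q, hX q⟩ : LinearMap.ker X) ⊗ₜ (⟨Y r', r', rfl⟩ : LinearMap.range Y), rfl⟩
      · exact ⟨(⟨p, hp⟩ : LinearMap.ker X) ⊗ₜ (⟨Y s, s, rfl⟩ : LinearMap.range Y), rfl⟩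
      · exact ⟨(⟨q, hq⟩ : C) ⊗ₜ (⟨s, hs⟩ : C'), rfl⟩
  have w3 : finrank k (LinearMap.range D) ≤ finrank k W1 + finrank k W2 :=
    (Submodule.finrank_mono hle).trans (Submodule.finrank_add_le_finrank_add_finrank _ _)
  set a := finrank k (LinearMap.ker X)
  set b := finrank k C
  set c := finrank k (LinearMap.range Y)
  set d := finrank k C'
  have f1 : b ≤ a := by omega
  have f2 : c ≤ d := by omega
  rw [← d1, ← d2]
  have h8 := aux_ineq a b c d f1 f2
  have h9 : finrank k (LinearMap.range D) ≤ a * c + b * d := by omega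
  omega

/-- A dimension count. -/
theorem dim_count {V1 V2 W : Type} [AddCommGroup V1] [Module k V1] [Module.Finite k V1]
    [AddCommGroup V2] [Module k V2] [Module.Finite k V2] [AddCommGroup W] [Module k W]
    [Module.Finite k W]
    (p t : V1 ⊗[k] V2 →ₗ[k] W) (D : V1 ⊗[k] V2 →ₗ[k] V1 ⊗[k] V2)
    (hkey : LinearMap.ker p ⊓ LinearMap.ker t ≤ LinearMap.range D) :
    finrank k V1 * finrank k V2 ≤ finrank k (LinearMap.range p) +
      finrank k (LinearMap.range t) + finrank k (LinearMap.range D) := by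
  have d1 := LinearMap.finrank_range_add_finrank_ker p
  rw [Module.finrank_tensorProduct] at d1
  have d2 := LinearMap.finrank_range_add_finrank_ker (t.domRestrict (LinearMap.ker p))
  have d3 : finrank k (LinearMap.range (t.domRestrict (LinearMap.ker p))) ≤
      finrank k (LinearMap.range t) := by
    apply Submodule.finrank_mono
    rintro _ ⟨θ, rfl⟩
    exact ⟨θ.1, rfl⟩
  have d4 : finrank k (LinearMap.ker (t.domRestrict (LinearMap.ker p))) ≤
      finrank k (LinearMap.range D) := by
    rw [← Submodule.finrank_map_subtype_eq]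
    apply Submodule.finrank_mono
    rintro _ ⟨θ, hθ, rfl⟩
    exact hkey ⟨θ.2, hθ⟩
  omega

end

section

variable {k A : Type} [Field k] [Ring A] [Algebra k A] {e : Fin 2 → A} {i j : Fin 2}

/-- The square of the radical of a uniserial corner vanishes. -/
theorem corner_sq [Module.Finite k A] (h : Elem k e)
    (hgl : ∃ m : ℕ, ∀ M : ModuleCat.{0} A, HasProjectiveDimensionLT M m)
    (hij : i ≠ j) (x : A) (hxR : x ∈ radc k (e i))
    (hx : radc k (e i) ≤ Submodule.span k {x} ⊔ radc k (e i) * radc k (e i)) :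
    radc k (e i) * radc k (e i) = ⊥ := by
  classical
  have hRi : radc k (e i) = cor k (e i) (e j) * cor k (e j) (e i) := radc_eq h hgl hij
  set R := radc k (e i) with hR
  have hRR : R * R ≤ R := by
    rw [Submodule.mul_le]
    intro a ha b hb
    rw [hR, mem_radc (h.idem i)] at ha hb ⊢
    refine ⟨mem_mul_left' _ hb.1, ?_, ?_⟩
    · rw [← mul_assoc, ha.2.1]
    · rw [mul_assoc, hb.2.2]
  by_contra hne
  have hxx : x * x ∉ R * R * R := by
    intro hmem
    apply hne
    have h1 : R * R ≤ R * R * R := by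
      have h2 : R * R ≤ (Submodule.span k {x} ⊔ R * R) * (Submodule.span k {x} ⊔ R * R) :=
        mul_le_mul' hx hx
      refine h2.trans ?_
      rw [Submodule.mul_sup, Submodule.sup_mul]
      refine sup_le (sup_le ?_ ?_) ?_
      · rw [Submodule.span_mul_span, Set.singleton_mul_singleton,
          Submodule.span_singleton_le_iff_mem]
        exact hmem
      · refine mul_le_mul' le_rfl ?_
        rw [Submodule.span_singleton_le_iff_mem]; exact hxR
      · have h3 : (Submodule.span k {x} ⊔ R * R) ≤ R := by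
          refine sup_le ?_ hRR
          rw [Submodule.span_singleton_le_iff_mem]; exact hxR
        refine (mul_le_mul' h3 le_rfl).trans ?_
        rw [mul_assoc]
    have h2 : ∀ m : ℕ, R * R ≤ R * R * R ^ m := by
      intro m
      induction m with
      | zero => rw [Submodule.pow_zero, mul_one]
      | succ m ih =>
        refine ih.trans ?_
        rw [pow_succ', ← mul_assoc]
        exact mul_le_mul' h1 le_rfl
    obtain ⟨s, hs⟩ := exists_pow_radc (k := k) (e i)
    have := h2 s
    rw [hR, hs, Submodule.mul_bot] at this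
    exact le_bot_iff.1 this
  have hx2 : x ∉ R * R := by
    intro hmem
    exact hxx (Submodule.mul_mem_mul hmem hxR)
  obtain ⟨θ, hθ1, hθ2⟩ := hh0 h hgl hij x hxR
  obtain ⟨S, hS⟩ := TensorProduct.exists_finset θ
  -- the matrix of leading coefficients
  have hD : ∀ s t : S, ∃ c : k, (s.1.2 : A) * (t.1.1 : A) - c • x ∈ R * R := by
    intro s t
    have h1 : (s.1.2 : A) * (t.1.1 : A) ∈ R := by
      rw [hRi]; exact Submodule.mul_mem_mul s.1.2.2 t.1.1.2
    obtain ⟨u, hu, v, hv, hsum⟩ := Submodule.mem_sup.1 (hx h1)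
    obtain ⟨c, rfl⟩ := Submodule.mem_span_singleton.1 hu
    refine ⟨c, ?_⟩
    rw [← hsum, add_sub_cancel_left]
    exact hv
  choose D hD using hD
  have hpi : ∑ s : S, (s.1.1 : A) * (s.1.2 : A) = 0 := by
    rw [← hθ1, hS, map_sum]
    exact Finset.sum_coe_sort S (fun s => (s.1 : A) * (s.2 : A))
  have hta : ∑ s : S, (s.1.2 : A) * (s.1.1 : A) = taM _ _ θ := by
    rw [hS, map_sum]
    exact Finset.sum_coe_sort S (fun s => (s.2 : A) * (s.1 : A))
  have htr : ∑ s : S, D s s = 1 := by
    by_contra hne1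
    apply hx2
    have h1 : (1 - ∑ s : S, D s s) • x ∈ R * R := by
      have h2 : (1 - ∑ s : S, D s s) • x =
          (x - taM _ _ θ) + ∑ s : S, ((s.1.2 : A) * (s.1.1 : A) - D s s • x) := by
        rw [Finset.sum_sub_distrib, hta, sub_smul, one_smul, Finset.sum_smul]
        abel
      rw [h2]
      exact Submodule.add_mem _ hθ2 (Submodule.sum_mem _ fun s _ => hD s s)
    have h3 := Submodule.smul_mem _ (1 - ∑ s : S, D s s)⁻¹ h1
    rwa [smul_smul, inv_mul_cancel₀ (sub_ne_zero.2 (Ne.symm hne1)), one_smul] at h3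
  have hsq : (Matrix.of D) * (Matrix.of D) = 0 := by
    ext l t
    rw [Matrix.mul_apply, Matrix.zero_apply]
    simp only [Matrix.of_apply]
    by_contra hne1
    apply hxx
    have h0 : ∑ s : S, ((l.1.2 : A) * (s.1.1 : A)) * ((s.1.2 : A) * (t.1.1 : A)) = 0 := by
      have : ∀ s : S, ((l.1.2 : A) * (s.1.1 : A)) * ((s.1.2 : A) * (t.1.1 : A)) =
          (l.1.2 : A) * ((s.1.1 : A) * (s.1.2 : A)) * (t.1.1 : A) := by
        intro s; simp only [mul_assoc]
      simp only [this]
      rw [← Finset.sum_mul, ← Finset.mul_sum, hpi, mul_zero, zero_mul]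
    have h1 : ∀ s : S, ((l.1.2 : A) * (s.1.1 : A)) * ((s.1.2 : A) * (t.1.1 : A)) -
        (D l s * D s t) • (x * x) ∈ R * R * R := by
      intro s
      have e1 : ((l.1.2 : A) * (s.1.1 : A)) * ((s.1.2 : A) * (t.1.1 : A)) -
          (D l s * D s t) • (x * x) =
          ((l.1.2 : A) * (s.1.1 : A) - D l s • x) * ((s.1.2 : A) * (t.1.1 : A)) +
          (D l s • x) * ((s.1.2 : A) * (t.1.1 : A) - D s t • x) := by
        rw [sub_mul, mul_sub, smul_mul_smul_comm]
        abel
      rw [e1]
      refine Submodule.add_mem _ ?_ ?_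
      · refine Submodule.mul_mem_mul (hD l s) ?_
        rw [hRi]
        exact Submodule.mul_mem_mul s.1.2.2 t.1.1.2
      · rw [mul_assoc R R R]
        exact Submodule.mul_mem_mul (Submodule.smul_mem _ _ hxR) (hD s t)
    have h2 : (∑ s : S, D l s * D s t) • (x * x) ∈ R * R * R := by
      have h3 := Submodule.sum_mem _ (fun (s : S) (_ : s ∈ Finset.univ) => h1 s)
      rw [Finset.sum_sub_distrib, h0, zero_sub, ← Finset.sum_smul, Submodule.neg_mem_iff] at h3
      exact h3
    have h3 := Submodule.smul_mem _ (∑ s : S, D l s * D s t)⁻¹ h2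
    rwa [smul_smul, inv_mul_cancel₀ hne1, one_smul] at h3
  have hnil : IsNilpotent (Matrix.of D) := ⟨2, by rw [pow_two, hsq]⟩
  have h4 := (Matrix.isNilpotent_trace_of_isNilpotent hnil).eq_zero
  rw [Matrix.trace] at h4
  simp only [Matrix.diag_apply, Matrix.of_apply] at h4
  rw [htr] at h4
  exact one_ne_zero h4

/-- The Cartan determinant conjecture for two simple modules when the radical of one of the
two diagonal corners is generated by one element. -/
theorem uniserial_corner [Module.Finite k A] (h : Elem k e)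
    (hgl : ∃ m : ℕ, ∀ M : ModuleCat.{0} A, HasProjectiveDimensionLT M m)
    (hij : i ≠ j)
    (hx : ∃ x : A, ∀ z ∈ Ring.jacobson A, ∃ c : k, e i * z * e i - c • x ∈
      Submodule.span k {w : A | ∃ a ∈ Ring.jacobson A, ∃ b ∈ Ring.jacobson A,
        w = e i * a * e i * b * e i}) : (cart k e).det = 1 := by
  have hji : j ≠ i := Ne.symm hij
  have hRi : radc k (e i) = cor k (e i) (e j) * cor k (e j) (e i) := radc_eq h hgl hij
  have hRj : radc k (e j) = cor k (e j) (e i) * cor k (e i) (e j) := radc_eq h hgl hji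
  have hRmem : ∀ a ∈ Ring.jacobson A, e i * a * e i ∈ radc k (e i) := by
    intro a ha
    rw [mul_assoc]
    exact ⟨mem_mul_left' _ (mem_mul_right' _ ha), mem_cor_mk _ _ _⟩
  have hspan : Submodule.span k {w : A | ∃ a ∈ Ring.jacobson A, ∃ b ∈ Ring.jacobson A,
        w = e i * a * e i * b * e i} ≤ radc k (e i) * radc k (e i) := by
    rw [Submodule.span_le]
    rintro _ ⟨a, ha, b, hb, rfl⟩
    have e1 : e i * a * e i * b * e i = (e i * a * e i) * (e i * b * e i) := by
      calc e i * a * e i * b * e i = e i * a * (e i * e i) * b * e i := by rw [h.idem]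
        _ = _ := by simp only [mul_assoc]
    rw [e1]
    exact Submodule.mul_mem_mul (hRmem a ha) (hRmem b hb)
  obtain ⟨x0, hx0⟩ := hx
  have hx0' : ∀ z ∈ radc k (e i), ∃ c : k, z - c • x0 ∈ radc k (e i) * radc k (e i) := by
    intro z hz
    have hz' := (mem_radc (h.idem i)).1 hz
    obtain ⟨c, hc⟩ := hx0 z hz'.1
    rw [hz'.2.1, hz'.2.2] at hc
    exact ⟨c, hspan hc⟩
  have hex : ∃ x ∈ radc k (e i), radc k (e i) ≤
      Submodule.span k {x} ⊔ radc k (e i) * radc k (e i) := by
    by_cases hle : radc k (e i) ≤ radc k (e i) * radc k (e i)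
    · exact ⟨0, Submodule.zero_mem _, hle.trans le_sup_right⟩
    · obtain ⟨z, hz, hz2⟩ := SetLike.not_le_iff_exists.1 hle
      refine ⟨z, hz, ?_⟩
      obtain ⟨c, hc⟩ := hx0' z hz
      have hc0 : c ≠ 0 := by
        rintro rfl
        rw [zero_smul, sub_zero] at hc
        exact hz2 hc
      intro w hw
      obtain ⟨d, hd⟩ := hx0' w hw
      have e1 : w = (d * c⁻¹) • z + ((w - d • x0) - (d * c⁻¹) • (z - c • x0)) := by
        rw [smul_sub, smul_smul, mul_assoc, inv_mul_cancel₀ hc0, mul_one]
        abel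
      rw [e1]
      exact Submodule.add_mem_sup (Submodule.smul_mem _ _ (Submodule.mem_span_singleton_self _))
        (Submodule.sub_mem _ hd (Submodule.smul_mem _ _ hc))
  obtain ⟨x, hxR, hle⟩ := hex
  have hsq := corner_sq h hgl hij x hxR hle
  rw [hsq, sup_bot_eq] at hle
  have hxx : x * x = 0 := by
    have := Submodule.mul_mem_mul hxR hxR
    rw [hsq] at this
    exact this
  have hxi := (mem_radc (h.idem i)).1 hxR
  set M := cor k (e j) (e i) with hM
  set N := cor k (e i) (e j) with hN
  have hMx : ∀ m : M, m.1 * x ∈ M := fun m =>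
    cor_mul_cor h _ _ _ (Submodule.mul_mem_mul m.2 (radc_le_cor _ hxR))
  have hxN : ∀ n : N, x * n.1 ∈ N := fun n =>
    cor_mul_cor h _ _ _ (Submodule.mul_mem_mul (radc_le_cor _ hxR) n.2)
  let X : M →ₗ[k] M := LinearMap.codRestrict M ((LinearMap.mulRight k x) ∘ₗ M.subtype) hMx
  let Y : N →ₗ[k] N := LinearMap.codRestrict N ((LinearMap.mulLeft k x) ∘ₗ N.subtype) hxN
  have hX : ∀ m, X (X m) = 0 := by
    intro m
    apply Subtype.ext
    change m.1 * x * x = 0
    rw [mul_assoc, hxx, mul_zero]
  have hY : ∀ n, Y (Y n) = 0 := by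
    intro n
    apply Subtype.ext
    change x * (x * n.1) = 0
    rw [← mul_assoc, hxx, zero_mul]
  let D : M ⊗[k] N →ₗ[k] M ⊗[k] N := X.rTensor N + ((-1 : k) • Y).lTensor M
  have hD : ∀ m n, D (m ⊗ₜ n) = X m ⊗ₜ n - m ⊗ₜ Y n := by
    intro m n
    change X m ⊗ₜ n + m ⊗ₜ ((-1 : k) • Y n) = X m ⊗ₜ n - m ⊗ₜ Y n
    have h0 : ((-1 : k) • Y n + Y n : N) = 0 := by
      apply Subtype.ext
      change (-1 : k) • (Y n : A) + (Y n : A) = 0
      rw [neg_one_smul, neg_add_cancel]
    rw [eq_sub_iff_add_eq, add_assoc, ← TensorProduct.tmul_add, h0, TensorProduct.tmul_zero,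
      add_zero]
  have hrank := rank_diff X Y hX hY D hD
  -- the key inclusion
  have hkey : LinearMap.ker (Submodule.mulMap M N) ⊓ LinearMap.ker (taM M N) ≤
      LinearMap.range D := by
    rintro θ ⟨h1, h2⟩
    by_contra hnot
    obtain ⟨phi, hphi1, hphi2⟩ := Submodule.exists_le_ker_of_notMem
      (V := M ⊗[k] N) (p := LinearMap.range D) (v := θ) hnot
    apply hphi1
    let pM : A →ₗ[k] M := (corMap k (e j) (e i)).rangeRestrict
    let pN : A →ₗ[k] N := (corMap k (e i) (e j)).rangeRestrict
    have hpM : ∀ a, (pM a : A) = e j * (a * e i) := fun a => rfl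
    have hpN : ∀ a, (pN a : A) = e i * (a * e j) := fun a => rfl
    let psi : A →ₗ[k] A →ₗ[k] k := ((TensorProduct.mk k M N).compr₂ phi).compl₁₂ pM pN
    have hpsi : ∀ a b, psi a b = phi (pM a ⊗ₜ pN b) := fun a b => rfl
    obtain ⟨S, hS⟩ := TensorProduct.exists_finset θ
    have hz := psi_zero h hgl hij psi
      (by
        intro a b
        rw [hpsi, hpsi]
        have t1 : pM (e j * (a * e i)) = pM a := by
          apply Subtype.ext
          rw [hpM, hpM, mul_assoc (e j), mul_assoc a, h.idem, ← mul_assoc (e j) (e j), h.idem]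
        have t2 : pN (e i * (b * e j)) = pN b := by
          apply Subtype.ext
          rw [hpN, hpN, mul_assoc (e i), mul_assoc b, h.idem, ← mul_assoc (e i) (e i), h.idem]
        rw [t1, t2])
      (by
        intro a b l hl
        obtain ⟨c, rfl⟩ := Submodule.mem_span_singleton.1 (hle hl)
        rw [hpsi, hpsi]
        have t1 : pM (a * c • x) = c • X (pM a) := by
          apply Subtype.ext
          change e j * (a * c • x * e i) = c • (e j * (a * e i) * x)
          rw [mul_smul_comm, smul_mul_assoc, mul_smul_comm, mul_assoc a x, hxi.2.2,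
            mul_assoc (e j) (a * e i), mul_assoc a (e i), hxi.2.1]
        have t2 : pN (c • x * b) = c • Y (pN b) := by
          apply Subtype.ext
          change e i * (c • x * b * e j) = c • (x * (e i * (b * e j)))
          rw [smul_mul_assoc, smul_mul_assoc, mul_smul_comm, ← mul_assoc x (e i), hxi.2.2,
            mul_assoc x b, ← mul_assoc (e i) x, hxi.2.1]
        have t3 : phi (X (pM a) ⊗ₜ pN b - pM a ⊗ₜ Y (pN b)) = 0 := by
          rw [← hD]
          exact LinearMap.mem_ker.1 (hphi2 ⟨_, rfl⟩)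
        rw [map_sub, sub_eq_zero] at t3
        rw [t1, t2, ← TensorProduct.smul_tmul', TensorProduct.tmul_smul, map_smul, map_smul, t3])
      S (fun s => (s.1 : A)) (fun s => (s.2 : A)) (fun s _ => s.1.2) (fun s _ => s.2.2)
      (by
        have h3 : Submodule.mulMap M N θ = 0 := h1
        rw [hS, map_sum] at h3
        exact h3)
      (by
        have h3 : taM M N θ = 0 := h2
        rw [hS, map_sum] at h3
        exact h3)
    rw [hS, map_sum, ← hz]
    refine Finset.sum_congr rfl fun s _ => ?_
    rw [hpsi]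
    have t1 : pM (s.1 : A) = s.1 := by
      apply Subtype.ext
      rw [hpM, cor_right (h.idem i) s.1.2, cor_left (h.idem j) s.1.2]
    have t2 : pN (s.2 : A) = s.2 := by
      apply Subtype.ext
      rw [hpN, cor_right (h.idem j) s.2.2, cor_left (h.idem i) s.2.2]
    rw [t1, t2]
  -- dimension count
  have d1 := dim_count (Submodule.mulMap M N) (taM M N) D hkey
  rw [Submodule.mulMap_range, ← hRj] at d1
  have d3 : finrank k (LinearMap.range (taM M N)) ≤ finrank k (radc k (e i)) := by
    apply Submodule.finrank_mono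
    rintro _ ⟨θ, rfl⟩
    rw [hRi, ← Submodule.mulMap_range]
    exact ⟨_, rfl⟩
  apply det_eq_one_of_pos h hgl
  rw [det_cart_two k e hij, finrank_cor_diag h i, finrank_cor_diag h j]
  change 0 ≤ ((1 + finrank k (radc k (e i)) : ℕ) : ℤ) * ((1 + finrank k (radc k (e j)) : ℕ) : ℤ) -
    (finrank k N : ℤ) * finrank k M
  by_cases hx0 : x = 0
  · have hr0 : radc k (e i) = ⊥ := by
      rw [hx0, Submodule.span_zero_singleton] at hle
      exact le_bot_iff.1 hle
    have hD0 : LinearMap.range D = ⊥ := by
      rw [LinearMap.range_eq_bot]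
      have hX0 : X = 0 := by
        refine LinearMap.ext fun m => ?_
        apply Subtype.ext
        change m.1 * x = 0
        rw [hx0, mul_zero]
      have hY0 : Y = 0 := by
        refine LinearMap.ext fun m => ?_
        apply Subtype.ext
        change x * m.1 = 0
        rw [hx0, zero_mul]
      change X.rTensor N + ((-1 : k) • Y).lTensor M = 0
      rw [hX0, hY0, smul_zero, LinearMap.rTensor_zero, LinearMap.lTensor_zero, add_zero]
    rw [hD0, finrank_bot] at d1
    rw [hr0, finrank_bot] at d3 ⊢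
    have d5 : finrank k M * finrank k N ≤ finrank k (radc k (e j)) := by omega
    have d6 : (finrank k N : ℤ) * finrank k M ≤ finrank k (radc k (e j)) := by
      rw [mul_comm]
      exact_mod_cast d5
    push_cast
    linarith
  · have hr1 : finrank k (radc k (e i)) = 1 := by
      have : radc k (e i) = Submodule.span k {x} := by
        apply le_antisymm hle
        rw [Submodule.span_singleton_le_iff_mem]
        exact hxR
      rw [this]
      exact finrank_span_singleton hx0
    rw [hr1] at d3 ⊢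
    have d5 : finrank k M * finrank k N ≤ 2 * finrank k (radc k (e j)) + 2 := by omega
    have d6 : (finrank k N : ℤ) * finrank k M ≤ 2 * finrank k (radc k (e j)) + 2 := by
      rw [mul_comm]
      exact_mod_cast d5
    push_cast
    linarith

end

end Pool.Agent.Run7.h155
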